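import Pool.Agent.Lib.SM.C.Defs

/-!
# SMITH, block C, module Cst: the field of constants of `Ω`
-/

set_option autoImplicit false

namespace Pool.Agent.SmithC

open Polynomial

variable {k Ω : Type} [Field k] [Field Ω] [Algebra (RatFunc k) Ω]

variable (k Ω) in
/-- `Ω` as a `k`-algebra. -/
@[reducible] noncomputable def algk : Algebra k Ω :=
  ((algebraMap (RatFunc k) Ω).comp (algebraMap k (RatFunc k))).toAlgebra

theorem isCst_iff [Finite k] (x : Ω) : IsCst k x ↔ @IsAlgebraic k Ω _ _ (algk k Ω) x := by
  letI : Algebra k Ω := algk k Ω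
  have hq : 1 < Nat.card k := Finite.one_lt_card
  constructor
  · rintro ⟨n, hn, hx⟩
    have h1 : 1 < Nat.card k ^ n := Nat.one_lt_pow hn.ne' hq
    refine ⟨X ^ (Nat.card k ^ n) - X, ?_, ?_⟩
    · exact FiniteField.X_pow_card_sub_X_ne_zero k h1
    · simp [hx]
  · intro hx
    have hfd : FiniteDimensional k (IntermediateField.adjoin k {x}) :=
      IntermediateField.adjoin.finiteDimensional hx.isIntegral
    have hfin : Finite (IntermediateField.adjoin k {x}) := Module.finite_of_finite k
    refine ⟨Module.finrank k (IntermediateField.adjoin k {x}), Module.finrank_pos, ?_⟩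
    have h1 : (⟨x, IntermediateField.mem_adjoin_simple_self k x⟩ :
        IntermediateField.adjoin k {x}) ^ Nat.card (IntermediateField.adjoin k {x})
        = ⟨x, IntermediateField.mem_adjoin_simple_self k x⟩ := by
      have : Fintype (IntermediateField.adjoin k {x}) := Fintype.ofFinite _
      rw [Nat.card_eq_fintype_card]
      exact FiniteField.pow_card _
    rw [Module.natCard_eq_pow_finrank (K := k)] at h1
    exact congrArg Subtype.val h1

/-- the set of constants is a subfield, algebraically closed, `t` is transcendental over it -/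
theorem exists_cstField [Finite k] (h2 : (2 : k) ≠ 0) [IsSepClosure (RatFunc k) Ω] :
    ∃ κ : Subfield Ω, (∀ x, x ∈ κ ↔ IsCst k x) ∧ IsAlgClosed κ ∧
      Transcendental κ (tt k Ω) ∧ (∀ a : k, algebraMap (RatFunc k) Ω (RatFunc.C a) ∈ κ) := by
  letI : Algebra k Ω := algk k Ω
  have : IsScalarTower k (RatFunc k) Ω := IsScalarTower.of_algebraMap_eq fun _ => rfl
  have hsc : IsSepClosed Ω := IsSepClosure.sep_closed (RatFunc k)
  set κ' : IntermediateField k Ω := algebraicClosure k Ω with hκ'
  have halg : Algebra.IsAlgebraic k κ' := by rw [hκ']; infer_instance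
  have hperf : PerfectField κ' := Algebra.IsAlgebraic.perfectField (K := k)
  have hres : ∀ x : Ω, IsAlgebraic κ' x → x ∈ κ' := by
    intro x hx
    rw [hκ', mem_algebraicClosure_iff]
    exact hx.restrictScalars k
  have hcl : IsAlgClosed κ' := by
    apply IsAlgClosed.of_exists_root
    intro p hp hirr
    have h1 : p.Separable := PerfectField.separable_of_irreducible hirr
    have h3 : (p.map (algebraMap κ' Ω)).degree ≠ 0 := by
      rw [degree_map]
      exact (degree_pos_of_irreducible hirr).ne'
    obtain ⟨x, hx⟩ := IsSepClosed.exists_root (p.map (algebraMap κ' Ω)) h3 h1.map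
    have h4 : aeval x p = 0 := by
      rw [aeval_def, ← eval_map]
      exact hx
    have h5 : x ∈ κ' := hres x ⟨p, hirr.ne_zero, h4⟩
    refine ⟨⟨x, h5⟩, ?_⟩
    apply (algebraMap κ' Ω).injective
    rw [map_zero, ← h4]
    have : x = algebraMap κ' Ω ⟨x, h5⟩ := rfl
    conv_rhs => rw [this]
    rw [aeval_algebraMap_apply]
    rfl
  refine ⟨κ'.toSubfield, fun x => ?_, hcl, ?_, fun a => ?_⟩
  · rw [isCst_iff]
    exact mem_algebraicClosure_iff
  · intro h
    have h1 : IsAlgebraic κ' (tt k Ω) := h
    have h3 : IsAlgebraic k (tt k Ω) := h1.restrictScalars k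
    have h4 : IsAlgebraic k (RatFunc.X : RatFunc k) :=
      (isAlgebraic_algebraMap_iff (algebraMap (RatFunc k) Ω).injective).1 h3
    exact RatFunc.transcendental_X h4
  · change algebraMap k Ω a ∈ κ'
    exact κ'.algebraMap_mem a

end Pool.Agent.SmithC
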