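import Pool.Agent.Lib.SM.C.DefsU

/-!
# SMITH, block C, piece 0: Hilbert 90 for subgroups of `Gal(Ω / k(t))`

`z` a locally constant cocycle on the subgroup `A` with values in `Ωˣ`: `z s = s y / y`.
Proof: `N` open normal with `z (s n) = z s`; `b x = ∑ z(g) g(x)`, the sum over representatives in `A`
of the image of `A` in `G / N`, `x` in the fixed field of `N`; `b x ≠ 0` for some `x` by linear
independence of characters and `z h * h (b x) = b x`.
-/

set_option autoImplicit false

namespace Pool.Agent.SmithC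

open Pool.Agent.SmF

variable {k Ω : Type} [Field k] [Field Ω] [Algebra (RatFunc k) Ω]

/-- PIECE 0 (Hilbert 90 for any subgroup, locally constant cocycles). -/
theorem h90U [IsSepClosure (RatFunc k) Ω] (A : Subgroup (GG k Ω)) (z : GG k Ω → Ωˣ)
    (hz : LCOn A z) (hc : ∀ s ∈ A, ∀ t ∈ A, z (s * t) = z s * s • z t) :
    ∃ y : Ωˣ, ∀ s ∈ A, z s = s • y * y⁻¹ := by
  classical
  obtain ⟨N, hN, hNo, hzN⟩ := hz
  have hfin : Finite (GG k Ω ⧸ N) := Subgroup.quotient_finite_of_isOpen N hNo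
  have : Fintype (GG k Ω ⧸ N) := Fintype.ofFinite _
  have hNcl : IsClosed (N : Set (GG k Ω)) := Subgroup.isClosed_of_isOpen N hNo
  let L : IntermediateField (RatFunc k) Ω := IntermediateField.fixedField N
  have hL : ∀ x : Ω, x ∈ L ↔ ∀ n ∈ N, n x = x := fun x => IntermediateField.mem_fixedField_iff N x
  have hLN : ∀ g : GG k Ω, (∀ x ∈ L, g x = x) → g ∈ N := by
    intro g hg
    have h3 := InfiniteGalois.fixingSubgroup_fixedField (k := RatFunc k) (K := Ω) ⟨N, hNcl⟩
    have h4 : g ∈ (IntermediateField.fixedField N).fixingSubgroup := by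
      rw [IntermediateField.mem_fixingSubgroup_iff]
      exact hg
    rwa [show (IntermediateField.fixedField N).fixingSubgroup = N from h3] at h4
  -- the image of `A` and representatives in `A`
  let T : Finset (GG k Ω ⧸ N) :=
    Finset.univ.filter fun q => ∃ a ∈ A, (QuotientGroup.mk a : GG k Ω ⧸ N) = q
  have hT : ∀ q, q ∈ T ↔ ∃ a ∈ A, (QuotientGroup.mk a : GG k Ω ⧸ N) = q := by
    intro q
    simp [T]
  have hrep : ∀ q : GG k Ω ⧸ N, ∃ a : GG k Ω, q ∈ T → a ∈ A ∧ (QuotientGroup.mk a : GG k Ω ⧸ N) = q := by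
    intro q
    by_cases hq : q ∈ T
    · obtain ⟨a, ha, h⟩ := (hT q).1 hq
      exact ⟨a, fun _ => ⟨ha, h⟩⟩
    · exact ⟨1, fun h => absurd h hq⟩
  choose a ha using hrep
  -- the characters
  let φ : T → (L →* Ω) := fun q =>
    { toFun := fun x => a q (x : Ω)
      map_one' := by simp
      map_mul' := fun x y => by simp }
  have hφinj : Function.Injective φ := by
    intro q q' h
    apply Subtype.ext
    rw [← (ha q q.2).2, ← (ha q' q'.2).2, QuotientGroup.eq]
    apply hLN
    intro x hx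
    have h1 : a q x = a q' x := DFunLike.congr_fun h ⟨x, hx⟩
    rw [AlgEquiv.mul_apply, ← h1, ← AlgEquiv.mul_apply, inv_mul_cancel, AlgEquiv.one_apply]
  have hli := (linearIndependent_monoidHom L Ω).comp φ hφinj
  -- an element with nonzero sum
  obtain ⟨x, hx, hb⟩ : ∃ x : Ω, x ∈ L ∧ ∑ q ∈ T, (z (a q) : Ω) * a q x ≠ 0 := by
    by_contra hcon
    push Not at hcon
    have h1 : ∑ q : T, (z (a q) : Ω) • (⇑(φ q) : L → Ω) = 0 := by
      funext x
      rw [Finset.sum_apply]
      have h2 := hcon (x : Ω) x.2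
      rw [← Finset.sum_coe_sort T] at h2
      exact h2
    have h3 : (QuotientGroup.mk (1 : GG k Ω) : GG k Ω ⧸ N) ∈ T := (hT _).2 ⟨1, A.one_mem, rfl⟩
    have h4 := (Fintype.linearIndependent_iff.1 hli) (fun q => (z (a q) : Ω)) h1 ⟨_, h3⟩
    exact (z _).ne_zero h4
  set b : Ω := ∑ q ∈ T, (z (a q) : Ω) * a q x with hbdef
  -- the transformation rule
  have key : ∀ h ∈ A, (z h : Ω) * h b = b := by
    intro h hh
    rw [hbdef, map_sum, Finset.mul_sum]
    refine Finset.sum_nbij' (fun q => h • q) (fun q => h⁻¹ • q) ?_ ?_ ?_ ?_ ?_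
    · intro q hq
      obtain ⟨c, hcA, hcq⟩ := (hT q).1 hq
      exact (hT _).2 ⟨h * c, A.mul_mem hh hcA, by rw [← hcq]; rfl⟩
    · intro q hq
      obtain ⟨c, hcA, hcq⟩ := (hT q).1 hq
      exact (hT _).2 ⟨h⁻¹ * c, A.mul_mem (A.inv_mem hh) hcA, by rw [← hcq]; rfl⟩
    · intro q _
      exact inv_smul_smul h q
    · intro q _
      exact smul_inv_smul h q
    · intro q hq
      have hq' : h • q ∈ T := by
        obtain ⟨c, hcA, hcq⟩ := (hT q).1 hq
        exact (hT _).2 ⟨h * c, A.mul_mem hh hcA, by rw [← hcq]; rfl⟩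
      obtain ⟨ha1, ha2⟩ := ha q hq
      obtain ⟨ha3, ha4⟩ := ha (h • q) hq'
      -- `a (h q) = h (a q) n`
      have h5 : (h * a q)⁻¹ * a (h • q) ∈ N := by
        rw [← QuotientGroup.eq, ha4,
          show (QuotientGroup.mk (h * a q) : GG k Ω ⧸ N) = h • (QuotientGroup.mk (a q)) from rfl,
          ha2]
      have h6 : (h * a q)⁻¹ * a (h • q) ∈ A :=
        A.mul_mem (A.inv_mem (A.mul_mem hh ha1)) ha3
      have h7 : a (h • q) = h * a q * ((h * a q)⁻¹ * a (h • q)) := by
        rw [mul_inv_cancel_left]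
      have h8 : z (a (h • q)) = z h * h • z (a q) := by
        rw [h7, hzN _ (A.mul_mem hh ha1) _ h5 h6, hc h hh _ ha1]
      have h9 : a (h • q) x = h (a q x) := by
        rw [h7, AlgEquiv.mul_apply, (hL x).1 hx _ h5]
        rfl
      rw [h8, h9, map_mul, Units.val_mul, mul_assoc]
      rfl
  refine ⟨(Units.mk0 b hb)⁻¹, fun s hs => ?_⟩
  have h10 : z s * s • Units.mk0 b hb = Units.mk0 b hb := by
    apply Units.ext
    exact key s hs
  rw [smul_inv', inv_inv]
  rw [eq_comm, inv_mul_eq_iff_eq_mul, mul_comm]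
  exact h10.symm

end Pool.Agent.SmithC
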