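import Pool.Agent.Lib.SM.C.Cst

/-!
# SMITH, block C, piece 2: Kummer theory over `kbar(t)`

`κ` = the field of constants of `Ω` (algebraically closed), `H = HH k Ω` = the automorphisms fixing
`κ`. The fixed field of `H` is `κ(t)` (`Kb`), and every homomorphism `H → ZMod 2` which is locally
constant is a finite sum of the Kummer symbols `kap (t - α)`, `α ∈ κ`.

Proof: let `U` be the kernel of `χ` on `H`, a closed subgroup. If `U ≠ H` there is `x` fixed by `U`
and not in `κ(t)`; for `τ ∈ H` with `χ τ = 1` the element `y = x - τ x` is nonzero and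
`h y = (-1)^(χ h) y` for `h ∈ H`. So `a = y ^ 2` is in `κ(t)`, `χ = kap a` on `H`; `a` is a quotient
of two polynomials in `t`, products of linear factors times constants, which are squares.
-/

set_option autoImplicit false

namespace Pool.Agent.SmithC

open Pool.Agent.SmF Polynomial

variable {k Ω : Type} [Field k] [Field Ω] [Algebra (RatFunc k) Ω]

theorem kum_two (h2 : (2 : k) ≠ 0) : (2 : Ω) ≠ 0 := by
  intro h
  apply h2
  apply ((algebraMap (RatFunc k) Ω).comp (RatFunc.C (K := k))).injective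
  rw [map_ofNat, h, map_zero]

theorem kum_sqrt (h2 : (2 : k) ≠ 0) [IsSepClosure (RatFunc k) Ω] (x : Ω) : ∃ y : Ω, y ^ 2 = x := by
  have hsc : IsSepClosed Ω := IsSepClosure.sep_closed (RatFunc k)
  have : NeZero (2 : Ω) := ⟨kum_two h2⟩
  obtain ⟨z, hz⟩ := IsSepClosed.exists_eq_mul_self x
  exact ⟨z, by rw [hz, sq]⟩

open Classical in
theorem kum_val {f y : Ω} (hy : y ^ 2 = f) (g : GG k Ω) :
    kap f g = if g y = y then 0 else 1 := by
  unfold kap
  by_cases h : g y = y
  · rw [if_pos h, if_pos]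
    intro r hr
    have h1 : r = y ∨ r = -y := by rw [← sq_eq_sq_iff_eq_or_eq_neg, hr, hy]
    rcases h1 with rfl | rfl
    · exact h
    · rw [map_neg, h]
  · rw [if_neg h, if_neg (fun h1 => h (h1 y hy))]

theorem kum_zero_iff {f y : Ω} (hy : y ^ 2 = f) (g : GG k Ω) : kap f g = 0 ↔ g y = y := by
  classical
  rw [kum_val hy]
  by_cases h : g y = y
  · simp [h]
  · simp [h]

theorem kum_neg {f y : Ω} (hy : y ^ 2 = f) {g : GG k Ω} (hg : g f = f) : g y = y ∨ g y = -y := by
  rw [← sq_eq_sq_iff_eq_or_eq_neg, ← map_pow, hy, hg]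

theorem kum_mul (h2 : (2 : k) ≠ 0) [IsSepClosure (RatFunc k) Ω] {f f' : Ω} (hf : f ≠ 0)
    (hf' : f' ≠ 0) {g : GG k Ω} (hg : g f = f) (hg' : g f' = f') :
    kap (f * f') g = kap f g + kap f' g := by
  classical
  obtain ⟨y, hy⟩ := kum_sqrt h2 f
  obtain ⟨z, hz⟩ := kum_sqrt h2 f'
  have hyz : (y * z) ^ 2 = f * f' := by rw [mul_pow, hy, hz]
  have hy0 : y ≠ 0 := by rintro rfl; apply hf; rw [← hy]; simp
  have hz0 : z ≠ 0 := by rintro rfl; apply hf'; rw [← hz]; simp
  have hne : ∀ x : Ω, x ≠ 0 → -x ≠ x := by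
    intro x hx h
    apply hx
    have h3 : (2 : Ω) * x = 0 := by linear_combination -h
    exact (mul_eq_zero.1 h3).resolve_left (kum_two h2)
  rw [kum_val hy, kum_val hz, kum_val hyz, map_mul]
  rcases kum_neg hy hg with h1 | h1 <;> rcases kum_neg hz hg' with h3 | h3 <;> rw [h1, h3]
  · simp
  · rw [if_pos rfl, if_neg (hne z hz0), mul_neg, if_neg (hne _ (mul_ne_zero hy0 hz0)), zero_add]
  · rw [if_pos rfl, if_neg (hne y hy0), neg_mul, if_neg (hne _ (mul_ne_zero hy0 hz0)), add_zero]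
  · rw [if_neg (hne y hy0), if_neg (hne z hz0), neg_mul_neg, if_pos rfl]
    decide

theorem kum_one (g : GG k Ω) : kap (1 : Ω) g = 0 := by
  rw [kum_zero_iff (y := 1) (by simp)]
  simp

theorem kum_inv (h2 : (2 : k) ≠ 0) [IsSepClosure (RatFunc k) Ω] {f : Ω} (hf : f ≠ 0)
    {g : GG k Ω} (hg : g f = f) : kap f⁻¹ g = kap f g := by
  have h := kum_mul h2 hf (inv_ne_zero hf) hg (by rw [map_inv₀, hg])
  rw [mul_inv_cancel₀ hf, kum_one] at h
  have h3 : kap f g + kap f g = 0 := CharTwo.add_self_eq_zero _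
  linear_combination -h - h3

theorem kum_tt (g : GG k Ω) : g (tt k Ω) = tt k Ω := g.commutes _

/-- The symbol of a product of linear factors. -/
theorem kum_prod (h2 : (2 : k) ≠ 0) [IsSepClosure (RatFunc k) Ω] (M : Multiset Ω)
    (hM : ∀ α ∈ M, tt k Ω - α ≠ 0) {g : GG k Ω} (hg : ∀ α ∈ M, g α = α) :
    kap ((M.map fun α => tt k Ω - α).prod) g = (M.map fun α => kap (tt k Ω - α) g).sum := by
  induction M using Multiset.induction_on with
  | empty => simp [kum_one]
  | cons a M ih =>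
    rw [Multiset.map_cons, Multiset.prod_cons, Multiset.map_cons, Multiset.sum_cons, kum_mul h2,
      ih (fun α hα => hM α (Multiset.mem_cons_of_mem hα))
        (fun α hα => hg α (Multiset.mem_cons_of_mem hα))]
    · exact hM a (Multiset.mem_cons_self a M)
    · rw [Ne, Multiset.prod_eq_zero_iff, Multiset.mem_map]
      rintro ⟨α, hα, h⟩
      exact hM α (Multiset.mem_cons_of_mem hα) h
    · rw [map_sub, kum_tt, hg a (Multiset.mem_cons_self a M)]
    · rw [map_multiset_prod, Multiset.map_map]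
      congr 1
      apply Multiset.map_congr rfl
      intro α hα
      change g (tt k Ω - α) = tt k Ω - α
      rw [map_sub, kum_tt, hg α (Multiset.mem_cons_of_mem hα)]

section

variable (κ : Subfield Ω) (hκ : ∀ x, x ∈ κ ↔ IsCst k x)

include hκ

theorem kum_fix {g : GG k Ω} (hg : g ∈ HH k Ω) (x : κ) : g (x : Ω) = x :=
  hg _ ((hκ _).1 x.2)

theorem kum_aeval {g : GG k Ω} (hg : g ∈ HH k Ω) (p : κ[X]) :
    g (aeval (tt k Ω) p) = aeval (tt k Ω) p := by
  induction p using Polynomial.induction_on with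
  | C a =>
    rw [aeval_C]
    exact kum_fix κ hκ hg a
  | add p q hp hq => rw [map_add, map_add, hp, hq]
  | monomial n a h =>
    rw [map_mul, map_pow, aeval_C, aeval_X, map_mul, map_pow, kum_tt]
    congr 1
    exact kum_fix κ hκ hg a

/-- The symbol of a polynomial in `t`. -/
theorem kum_poly (h2 : (2 : k) ≠ 0) [IsSepClosure (RatFunc k) Ω] [IsAlgClosed κ]
    (ht : Transcendental κ (tt k Ω)) (p : κ[X]) (hp : p ≠ 0) {g : GG k Ω} (hg : g ∈ HH k Ω) :
    kap (aeval (tt k Ω) p) g =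
      (p.roots.map fun α : κ => kap (tt k Ω - (α : Ω)) g).sum := by
  have h0 : ∀ α : κ, tt k Ω - (α : Ω) ≠ 0 := by
    intro α h
    apply X_sub_C_ne_zero α
    apply (transcendental_iff.1 ht)
    rw [map_sub, aeval_X, aeval_C]
    exact h
  have hsp : aeval (tt k Ω) p = (p.leadingCoeff : Ω) *
      ((p.roots.map fun α : κ => (α : Ω)).map fun α => tt k Ω - α).prod := by
    conv_lhs => rw [(IsAlgClosed.splits p).eq_prod_roots]
    rw [map_mul, aeval_C, map_multiset_prod, Multiset.map_map, Multiset.map_map]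
    congr 2
    apply Multiset.map_congr rfl
    intro α _
    change aeval (tt k Ω) (X - C α) = _
    rw [map_sub, aeval_X, aeval_C]
    rfl
  have hlc : (p.leadingCoeff : Ω) ≠ 0 := by
    rw [Ne, ZeroMemClass.coe_eq_zero, leadingCoeff_eq_zero]
    exact hp
  have hM : ∀ α ∈ (p.roots.map fun α : κ => (α : Ω)), tt k Ω - α ≠ 0 := by
    intro α hα
    obtain ⟨β, _, rfl⟩ := Multiset.mem_map.1 hα
    exact h0 β
  have hgM : ∀ α ∈ (p.roots.map fun α : κ => (α : Ω)), g α = α := by
    intro α hα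
    obtain ⟨β, _, rfl⟩ := Multiset.mem_map.1 hα
    exact kum_fix κ hκ hg β
  rw [hsp, kum_mul h2 hlc, kum_prod h2 _ hM hgM]
  · obtain ⟨d, hd⟩ := IsAlgClosed.exists_pow_nat_eq p.leadingCoeff (n := 2) (by norm_num)
    have hd' : (d : Ω) ^ 2 = (p.leadingCoeff : Ω) := by rw [← hd]; rfl
    rw [(kum_zero_iff hd' g).2 (kum_fix κ hκ hg d), zero_add, Multiset.map_map]
    rfl
  · rw [Ne, Multiset.prod_eq_zero_iff, Multiset.mem_map]
    rintro ⟨α, hα, h⟩
    exact hM α hα h
  · exact kum_fix κ hκ hg _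
  · rw [map_multiset_prod, Multiset.map_map]
    congr 1
    apply Multiset.map_congr rfl
    intro α hα
    change g (tt k Ω - α) = tt k Ω - α
    rw [map_sub, kum_tt, hgM α hα]

end

section

variable (κ : Subfield Ω)

/-- The field `κ(t)` as an intermediate field of `Ω / k(t)`. -/
noncomputable def Kb (hk : ∀ a : k, algebraMap (RatFunc k) Ω (RatFunc.C a) ∈ κ) :
    IntermediateField (RatFunc k) Ω :=
  { (IntermediateField.adjoin κ {tt k Ω}).toSubfield with
    algebraMap_mem' := by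
      intro r
      have hp : ∀ p : k[X], algebraMap (RatFunc k) Ω (algebraMap k[X] (RatFunc k) p) ∈
          IntermediateField.adjoin κ {tt k Ω} := by
        intro p
        induction p using Polynomial.induction_on with
        | C a =>
          have h := (IntermediateField.adjoin κ {tt k Ω}).algebraMap_mem ⟨_, hk a⟩
          exact h
        | add p q hp hq => rw [map_add, map_add]; exact add_mem hp hq
        | monomial n a h =>
          rw [map_mul, map_mul, map_pow, map_pow]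
          refine mul_mem ?_ (pow_mem ?_ _)
          · exact (IntermediateField.adjoin κ {tt k Ω}).algebraMap_mem ⟨_, hk a⟩
          · rw [RatFunc.algebraMap_X]
            exact IntermediateField.mem_adjoin_simple_self κ (tt k Ω)
      induction r using RatFunc.induction_on with
      | f p q hq =>
        rw [map_div₀]
        exact div_mem (hp p) (hp q) }

theorem mem_Kb (hk : ∀ a : k, algebraMap (RatFunc k) Ω (RatFunc.C a) ∈ κ) (x : Ω) :
    x ∈ Kb κ hk ↔ ∃ r s : κ[X], x = aeval (tt k Ω) r / aeval (tt k Ω) s := by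
  rw [← IntermediateField.mem_adjoin_simple_iff κ x]
  exact Iff.rfl

theorem Kb_fixingSubgroup (hκ : ∀ x, x ∈ κ ↔ IsCst k x)
    (hk : ∀ a : k, algebraMap (RatFunc k) Ω (RatFunc.C a) ∈ κ) :
    (Kb κ hk).fixingSubgroup = HH k Ω := by
  ext g
  rw [IntermediateField.mem_fixingSubgroup_iff]
  constructor
  · intro h x hx
    exact h x ((IntermediateField.adjoin κ {tt k Ω}).algebraMap_mem ⟨x, (hκ x).2 hx⟩)
  · intro h x hx
    obtain ⟨r, s, rfl⟩ := (mem_Kb κ hk x).1 hx
    rw [map_div₀, kum_aeval κ hκ h, kum_aeval κ hκ h]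

/-- The fixed field of `H` is `κ(t)`. -/
theorem fixed_HH [IsSepClosure (RatFunc k) Ω] (hκ : ∀ x, x ∈ κ ↔ IsCst k x)
    (hk : ∀ a : k, algebraMap (RatFunc k) Ω (RatFunc.C a) ∈ κ) :
    IntermediateField.fixedField (HH k Ω) = Kb κ hk := by
  rw [← Kb_fixingSubgroup κ hκ hk]
  exact InfiniteGalois.fixedField_fixingSubgroup _

theorem isClosed_HH [IsSepClosure (RatFunc k) Ω] (hκ : ∀ x, x ∈ κ ↔ IsCst k x)
    (hk : ∀ a : k, algebraMap (RatFunc k) Ω (RatFunc.C a) ∈ κ) :
    IsClosed (HH k Ω : Set (GG k Ω)) := by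
  rw [← Kb_fixingSubgroup κ hκ hk]
  exact InfiniteGalois.fixingSubgroup_isClosed _

end

/-- Kummer theory over `κ(t)`, in terms of the field of constants `κ`. -/
theorem kummerH_aux (h2 : (2 : k) ≠ 0) [IsSepClosure (RatFunc k) Ω] (κ : Subfield Ω)
    (hκ : ∀ x, x ∈ κ ↔ IsCst k x) [IsAlgClosed κ] (ht : Transcendental κ (tt k Ω))
    (hk : ∀ a : k, algebraMap (RatFunc k) Ω (RatFunc.C a) ∈ κ)
    (χ : GG k Ω → ZMod 2) (hχ : LCOn (HH k Ω) χ)
    (hhom : ∀ s ∈ HH k Ω, ∀ t ∈ HH k Ω, χ (s * t) = χ s + χ t) :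
    ∃ m : Ω →₀ ZMod 2, (∀ α ∈ m.support, IsCst k α) ∧
      ∀ h ∈ HH k Ω, χ h = m.sum fun α a => a * kap (tt k Ω - α) h := by
  classical
  by_cases htriv : ∀ h ∈ HH k Ω, χ h = 0
  · exact ⟨0, by simp, fun h hh => by rw [htriv h hh, Finsupp.sum_zero_index]⟩
  push Not at htriv
  obtain ⟨τ, hτ, hτ1⟩ := htriv
  have hzm : ∀ a : ZMod 2, a ≠ 0 → a = 1 := by decide
  replace hτ1 := hzm _ hτ1
  have hχ1 : χ 1 = 0 := by
    have h := hhom 1 (HH k Ω).one_mem 1 (HH k Ω).one_mem
    rw [mul_one] at h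
    linear_combination -h
  have hχinv : ∀ s ∈ HH k Ω, χ s⁻¹ = χ s := by
    intro s hs
    have h := hhom s hs s⁻¹ ((HH k Ω).inv_mem hs)
    rw [mul_inv_cancel, hχ1] at h
    have h3 : χ s + χ s = 0 := CharTwo.add_self_eq_zero _
    linear_combination -h - h3
  -- the kernel
  let U : Subgroup (GG k Ω) :=
    { carrier := {g | g ∈ HH k Ω ∧ χ g = 0}
      one_mem' := ⟨(HH k Ω).one_mem, hχ1⟩
      mul_mem' := by
        rintro a b ⟨ha, ha'⟩ ⟨hb, hb'⟩
        exact ⟨(HH k Ω).mul_mem ha hb, by rw [hhom a ha b hb, ha', hb', add_zero]⟩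
      inv_mem' := by
        rintro a ⟨ha, ha'⟩
        exact ⟨(HH k Ω).inv_mem ha, by rw [hχinv a ha, ha']⟩ }
  have hU : ∀ g, g ∈ U ↔ g ∈ HH k Ω ∧ χ g = 0 := fun _ => Iff.rfl
  have hUcl : IsClosed (U : Set (GG k Ω)) := by
    obtain ⟨N, hN1, hN2, hN3⟩ := hχ
    have h1 : (U : Set (GG k Ω)) = (HH k Ω : Set (GG k Ω)) ∩ ((U ⊔ N : Subgroup (GG k Ω))) := by
      ext x
      constructor
      · intro hx
        exact ⟨((hU x).1 hx).1, (le_sup_left : U ≤ U ⊔ N) hx⟩
      · rintro ⟨hx, hx'⟩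
        obtain ⟨u, hu, n, hn, rfl⟩ := Subgroup.mem_sup_of_normal_right.1 hx'
        have hu' := (hU u).1 hu
        have hnH : n ∈ HH k Ω := by
          have h := (HH k Ω).mul_mem ((HH k Ω).inv_mem hu'.1) hx
          rwa [inv_mul_cancel_left] at h
        exact (hU _).2 ⟨hx, by rw [hN3 u hu'.1 n hn hnH, hu'.2]⟩
    rw [h1]
    exact (isClosed_HH κ hκ hk).inter
      (Subgroup.isClosed_of_isOpen _ (Subgroup.isOpen_mono le_sup_right hN2))
  -- an element fixed by `U`, not in `κ(t)`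
  obtain ⟨x, hxU, hxK⟩ : ∃ x : Ω, (∀ g ∈ U, g x = x) ∧ x ∉ Kb κ hk := by
    by_contra hcon
    push Not at hcon
    have h1 : IntermediateField.fixedField U ≤ Kb κ hk := by
      intro x hx
      rw [IntermediateField.mem_fixedField_iff] at hx
      exact hcon x hx
    have h2 : (Kb κ hk).fixingSubgroup ≤ (IntermediateField.fixedField U).fixingSubgroup :=
      IntermediateField.fixingSubgroup_antitone h1
    rw [Kb_fixingSubgroup κ hκ hk] at h2
    have h3 := InfiniteGalois.fixingSubgroup_fixedField (k := RatFunc k) (K := Ω) ⟨U, hUcl⟩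
    have h4 : τ ∈ U := by
      have h5 := h2 hτ
      rw [show (IntermediateField.fixedField U).fixingSubgroup = U from h3] at h5
      exact h5
    rw [((hU τ).1 h4).2] at hτ1
    exact zero_ne_one hτ1
  -- `y = x - τ x`
  set y : Ω := x - τ x with hy
  have hconj : ∀ h ∈ HH k Ω, χ h = 0 → h x = x := fun h hh hh' => hxU h ((hU h).2 ⟨hh, hh'⟩)
  have hact : ∀ h ∈ HH k Ω, (χ h = 0 → h y = y) ∧ (χ h = 1 → h y = -y) := by
    intro h hh
    -- `h (τ x) = τ x` if `χ h = 0`, `= x` if `χ h = 1`; `h x = x` resp. `τ x`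
    have e1 : ∀ g ∈ HH k Ω, χ g = 1 → g x = τ x := by
      intro g hg hg'
      have h3 : (τ⁻¹ * g) x = x := hconj _ ((HH k Ω).mul_mem ((HH k Ω).inv_mem hτ) hg) (by
        rw [hhom _ ((HH k Ω).inv_mem hτ) _ hg, hχinv τ hτ, hτ1, hg']; decide)
      have h4 := congrArg τ h3
      rw [← AlgEquiv.mul_apply, mul_inv_cancel_left] at h4
      exact h4
    constructor
    · intro h0
      have h3 : (h * τ) x = τ x := e1 _ ((HH k Ω).mul_mem hh hτ) (by
        rw [hhom _ hh _ hτ, h0, hτ1, zero_add])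
      rw [hy, map_sub, hconj h hh h0]
      rw [AlgEquiv.mul_apply] at h3
      rw [h3]
    · intro h1
      have h3 : (h * τ) x = x := hconj _ ((HH k Ω).mul_mem hh hτ) (by
        rw [hhom _ hh _ hτ, h1, hτ1]; decide)
      rw [hy, map_sub, e1 h hh h1]
      rw [AlgEquiv.mul_apply] at h3
      rw [h3]
      ring
  have hy0 : y ≠ 0 := by
    intro h0
    apply hxK
    rw [← fixed_HH κ hκ hk, IntermediateField.mem_fixedField_iff]
    intro g hg
    by_cases hg0 : χ g = 0
    · exact hconj g hg hg0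
    · have h3 : (τ⁻¹ * g) x = x := hconj _ ((HH k Ω).mul_mem ((HH k Ω).inv_mem hτ) hg) (by
        rw [hhom _ ((HH k Ω).inv_mem hτ) _ hg, hχinv τ hτ, hτ1, hzm _ hg0]; decide)
      have h4 := congrArg τ h3
      rw [← AlgEquiv.mul_apply, mul_inv_cancel_left] at h4
      rw [h4]
      rw [hy] at h0
      linear_combination -h0
  have hyneg : -y ≠ y := by
    intro h
    apply hy0
    have h3 : (2 : Ω) * y = 0 := by linear_combination -h
    exact (mul_eq_zero.1 h3).resolve_left (kum_two h2)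
  have hkap : ∀ h ∈ HH k Ω, χ h = kap (y ^ 2) h := by
    intro h hh
    rw [kum_val rfl]
    by_cases h0 : χ h = 0
    · rw [if_pos ((hact h hh).1 h0), h0]
    · rw [(hact h hh).2 (hzm _ h0), if_neg hyneg]
      exact hzm _ h0
  -- `y ^ 2` is a quotient of polynomials in `t`
  have hmem : y ^ 2 ∈ Kb κ hk := by
    rw [← fixed_HH κ hκ hk, IntermediateField.mem_fixedField_iff]
    intro g hg
    rw [map_pow]
    by_cases hg0 : χ g = 0
    · rw [(hact g hg).1 hg0]
    · rw [(hact g hg).2 (hzm _ hg0), neg_sq]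
  obtain ⟨r, s, hrs⟩ := (mem_Kb κ hk _).1 hmem
  have hr0 : aeval (tt k Ω) r ≠ 0 := by
    intro h
    rw [h, zero_div] at hrs
    exact hy0 (pow_eq_zero_iff (n := 2) (by norm_num) |>.1 hrs)
  have hs0 : aeval (tt k Ω) s ≠ 0 := by
    intro h
    rw [h, div_zero] at hrs
    exact hy0 (pow_eq_zero_iff (n := 2) (by norm_num) |>.1 hrs)
  have hr : r ≠ 0 := by rintro rfl; exact hr0 (map_zero _)
  have hs : s ≠ 0 := by rintro rfl; exact hs0 (map_zero _)
  -- the answer
  let P : κ → (Ω →₀ ZMod 2) := fun α => Finsupp.single (α : Ω) 1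
  have hsupp : ∀ M : Multiset κ, ∀ α ∈ ((M.map P).sum).support, IsCst k α := by
    intro M
    induction M using Multiset.induction_on with
    | empty => simp
    | cons a M ih =>
      intro α hα
      rw [Multiset.map_cons, Multiset.sum_cons] at hα
      rcases Finset.mem_union.1 (Finsupp.support_add hα) with h1 | h1
      · have h3 := Finsupp.support_single_subset h1
        rw [Finset.mem_singleton] at h3
        rw [h3]
        exact (hκ _).1 a.2
      · exact ih α h1
  have hval : ∀ (g : GG k Ω) (M : Multiset κ),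
      ((M.map P).sum).sum (fun α a => a * kap (tt k Ω - α) g) =
        (M.map fun α : κ => kap (tt k Ω - (α : Ω)) g).sum := by
    intro g M
    induction M using Multiset.induction_on with
    | empty => simp
    | cons a M ih =>
      rw [Multiset.map_cons, Multiset.sum_cons, Multiset.map_cons, Multiset.sum_cons,
        Finsupp.sum_add_index' (by simp) (by intro α b c; ring), ih,
        Finsupp.sum_single_index (by simp), one_mul]
  refine ⟨(r.roots.map P).sum + (s.roots.map P).sum, ?_, ?_⟩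
  · intro α hα
    rcases Finset.mem_union.1 (Finsupp.support_add hα) with h1 | h1
    · exact hsupp _ α h1
    · exact hsupp _ α h1
  · intro h hh
    rw [Finsupp.sum_add_index' (by simp) (by intro α b c; ring), hval, hval, hkap h hh, hrs,
      div_eq_mul_inv, kum_mul h2 hr0 (inv_ne_zero hs0) (kum_aeval κ hκ hh r)
        (by rw [map_inv₀, kum_aeval κ hκ hh]),
      kum_inv h2 hs0 (kum_aeval κ hκ hh s), kum_poly κ hκ h2 ht r hr hh,
      kum_poly κ hκ h2 ht s hs hh]

/-- PIECE 2 (Kummer theory over `kbar(t)`). -/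
theorem kummerH [Finite k] (h2 : (2 : k) ≠ 0) [IsSepClosure (RatFunc k) Ω]
    (χ : GG k Ω → ZMod 2) (hχ : LCOn (HH k Ω) χ)
    (hhom : ∀ s ∈ HH k Ω, ∀ t ∈ HH k Ω, χ (s * t) = χ s + χ t) :
    ∃ m : Ω →₀ ZMod 2, (∀ α ∈ m.support, IsCst k α) ∧
      ∀ h ∈ HH k Ω, χ h = m.sum fun α a => a * kap (tt k Ω - α) h := by
  obtain ⟨κ, hκ, hac, ht, hk⟩ := exists_cstField (k := k) (Ω := Ω) h2
  exact kummerH_aux h2 κ hκ ht hk χ hχ hhom

end Pool.Agent.SmithC
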