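import Pool.Agent.Lib.SM.C.H90U
import Pool.Agent.Lib.SM.C.Kum

/-!
# SMITH, block C, piece 0': from splitting in `Ω^*` to splitting in `μ_M`

`c = dβ` on `A`, `c ^ M = 1`: then `β ^ M` is a cocycle, `β ^ M = d y` (Hilbert 90), `y = r ^ M`,
`b = β / d r` has `b ^ M = 1` and `c = db`.
-/

set_option autoImplicit false

namespace Pool.Agent.SmithC

open Pool.Agent.SmF

variable {k Ω : Type} [Field k] [Field Ω] [Algebra (RatFunc k) Ω]

private theorem KumStep_root (h2 : (2 : k) ≠ 0) [IsSepClosure (RatFunc k) Ω] (e : ℕ) (y : Ωˣ) :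
    ∃ r : Ωˣ, r ^ (2 ^ e) = y := by
  have hsc : IsSepClosed Ω := IsSepClosure.sep_closed (RatFunc k)
  have h2' : (2 : Ω) ≠ 0 := kum_two h2
  have : NeZero ((2 ^ e : ℕ) : Ω) := ⟨by rw [Nat.cast_pow]; exact pow_ne_zero _ h2'⟩
  obtain ⟨z, hz⟩ := IsSepClosed.exists_pow_nat_eq (y : Ω) (2 ^ e)
  have hz0 : z ≠ 0 := by
    rintro rfl
    rw [zero_pow (by positivity)] at hz
    exact y.ne_zero hz.symm
  exact ⟨Units.mk0 z hz0, Units.ext (by rw [Units.val_pow_eq_pow_val, Units.val_mk0, hz])⟩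

/-- an element of `Ωˣ` is fixed by an open normal subgroup -/
private theorem KumStep_open [IsSepClosure (RatFunc k) Ω] (r : Ωˣ) :
    ∃ N : Subgroup (GG k Ω), N.Normal ∧ IsOpen (N : Set (GG k Ω)) ∧ ∀ n ∈ N, n • r = r := by
  have hgal : IsGalois (RatFunc k) Ω := inferInstance
  let L := FiniteGaloisIntermediateField.adjoin (RatFunc k) ({(r : Ω)} : Set Ω)
  refine ⟨L.1.fixingSubgroup, ?_, IntermediateField.fixingSubgroup_isOpen L.1, ?_⟩
  · rw [InfiniteGalois.normal_iff_isGalois]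
    infer_instance
  · intro n hn
    apply Units.ext
    rw [IntermediateField.mem_fixingSubgroup_iff] at hn
    exact hn _ (FiniteGaloisIntermediateField.subset_adjoin _ _ rfl)

/-- PIECE 0': a cocycle with values in `μ_M` which splits over `A` with values in `Ω^*` splits with
values in `μ_M`. -/
theorem kumStep [IsSepClosure (RatFunc k) Ω] (h2 : (2 : k) ≠ 0) (e : ℕ) (A : Subgroup (GG k Ω))
    (c : GG k Ω → GG k Ω → Ωˣ) (hM : ∀ s t, c s t ^ (2 ^ e) = 1) (β : GG k Ω → Ωˣ)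
    (hβ : LCOn A β) (hs : SplU A c β) :
    ∃ b : GG k Ω → Ωˣ, (∀ s, b s ^ (2 ^ e) = 1) ∧ LCOn A b ∧ SplU A c b := by
  classical
  obtain ⟨y, hy⟩ := h90U A (fun s => β s ^ (2 ^ e)) (by
    obtain ⟨N, h1, h2, h3⟩ := hβ
    exact ⟨N, h1, h2, fun s hs n hn hnA => by
      change β (s * n) ^ (2 ^ e) = β s ^ (2 ^ e)
      rw [h3 s hs n hn hnA]⟩) (by
    intro s hsA t htA
    have h4 := congrArg (fun u => u ^ (2 ^ e)) (hs s hsA t htA)
    rw [hM, mul_pow, mul_pow, inv_pow, ← smul_pow'] at h4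
    change β (s * t) ^ (2 ^ e) = β s ^ (2 ^ e) * s • (β t ^ (2 ^ e))
    rw [eq_comm, mul_inv_eq_one] at h4
    exact h4.symm)
  obtain ⟨r, hr⟩ := KumStep_root (k := k) h2 e y
  have hval : ∀ s ∈ A, (β s * (s • r * r⁻¹)⁻¹) ^ (2 ^ e) = 1 := by
    intro s hsA
    have h4 : β s ^ (2 ^ e) = s • y * y⁻¹ := hy s hsA
    rw [mul_pow, inv_pow, mul_pow, inv_pow, ← smul_pow', hr, h4, mul_inv_cancel]
  refine ⟨fun s => if s ∈ A then β s * (s • r * r⁻¹)⁻¹ else 1, ?_, ?_, ?_⟩
  · intro s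
    by_cases hsA : s ∈ A
    · simp only [hsA, if_true]
      exact hval s hsA
    · simp only [hsA, if_false, one_pow]
  · obtain ⟨N, h1, h2, h3⟩ := hβ
    obtain ⟨N', h1', h2', h3'⟩ := KumStep_open (k := k) r
    refine ⟨N ⊓ N', inferInstance, ?_, ?_⟩
    · rw [Subgroup.coe_inf]
      exact h2.inter h2'
    · intro s hsA n hn hnA
      simp only [hsA, A.mul_mem hsA hnA, if_true]
      rw [h3 s hsA n hn.1 hnA, mul_smul, h3' n hn.2]
  · intro s hsA t htA
    simp only [hsA, htA, A.mul_mem hsA htA, if_true]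
    rw [hs s hsA t htA, smul_mul', smul_inv', smul_mul', smul_inv', mul_smul]
    set u := s • t • r
    set v := s • r
    set w := β s
    set w' := s • β t
    set w'' := β (s * t)
    have key : ∀ (X : Type) [AddCommGroup X] (w w' w'' u v r : X),
        w + w' + -w'' = w + -(v + -r) + (w' + -(u + -v)) + -(w'' + -(u + -r)) := by
      intro X _ w w' w'' u v r
      abel
    exact key (Additive Ωˣ) w w' w'' u v r

end Pool.Agent.SmithC
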