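import Mathlib

set_option autoImplicit false

/-!
SMITH, block C, module GL (group lemma). `π : E → Γ`, a section `s1` over a normal subgroup `Γ1`,
an element `σ` of `E` normalising the section, `Γ = ⋃ π(σ)^i Γ1`, `n` the order of `π σ` modulo
`Γ1` and `σ^n = s1 (π σ^n)`: then `s1` extends to a homomorphic section over `Γ`.
-/

namespace Pool.Agent.SmithC

/-- extension of a section over a normal subgroup with cyclic quotient -/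
theorem ext_section {E Γ : Type*} [Group E] [Group Γ] (π : E →* Γ) (Γ1 : Subgroup Γ)
    (s1 : Γ → E) (hmul : ∀ g ∈ Γ1, ∀ h ∈ Γ1, s1 (g * h) = s1 g * s1 h)
    (hs1 : ∀ g ∈ Γ1, π (s1 g) = g) (σ : E)
    (hσ1 : ∀ g ∈ Γ1, π σ * g * (π σ)⁻¹ ∈ Γ1)
    (hσ1' : ∀ g ∈ Γ1, (π σ)⁻¹ * g * π σ ∈ Γ1)
    (hσ : ∀ g ∈ Γ1, σ * s1 g * σ⁻¹ = s1 (π σ * g * (π σ)⁻¹))
    (n : ℕ) (hn1 : (π σ) ^ n ∈ Γ1) (hpow : σ ^ n = s1 ((π σ) ^ n))
    (hgen : ∀ γ : Γ, ∃ i : ℤ, ((π σ) ^ i)⁻¹ * γ ∈ Γ1)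
    (hmin : ∀ i : ℤ, (π σ) ^ i ∈ Γ1 → (n : ℤ) ∣ i) :
    ∃ s : Γ →* E, (∀ γ, π (s γ) = γ) ∧ (∀ g ∈ Γ1, s g = s1 g) ∧ s (π σ) = σ := by
  classical
  have h1 : s1 1 = 1 := by
    have := hmul 1 Γ1.one_mem 1 Γ1.one_mem
    rw [mul_one] at this
    exact (mul_eq_left.mp this.symm)
  have hinv : ∀ g ∈ Γ1, s1 g⁻¹ = (s1 g)⁻¹ := by
    intro g hg
    have := hmul g hg g⁻¹ (Γ1.inv_mem hg)
    rw [mul_inv_cancel, h1] at this
    exact (inv_eq_of_mul_eq_one_right this.symm).symm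
  have hpowz : ∀ g ∈ Γ1, ∀ j : ℤ, s1 (g ^ j) = (s1 g) ^ j := by
    intro g hg j
    induction j using Int.induction_on with
    | zero => simp [h1]
    | succ i ih =>
      rw [zpow_add_one, hmul _ (Γ1.zpow_mem hg _) _ hg, ih, zpow_add_one]
    | pred i ih =>
      rw [zpow_sub_one, hmul _ (Γ1.zpow_mem hg _) _ (Γ1.inv_mem hg), ih, hinv g hg, zpow_sub_one]
  -- conjugation by all powers
  have hσ' : ∀ g ∈ Γ1, σ⁻¹ * s1 g * σ = s1 ((π σ)⁻¹ * g * π σ) := by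
    intro g hg
    have h2 := hσ _ (hσ1' g hg)
    have h3 : π σ * ((π σ)⁻¹ * g * π σ) * (π σ)⁻¹ = g := by group
    rw [h3] at h2
    rw [← h2]; group
  have hmemz : ∀ i : ℤ, ∀ g ∈ Γ1, ((π σ) ^ i)⁻¹ * g * (π σ) ^ i ∈ Γ1 := by
    intro i
    induction i using Int.induction_on with
    | zero => intro g hg; simpa using hg
    | succ i ih =>
      intro g hg
      have h4 : ((π σ) ^ ((i : ℤ) + 1))⁻¹ * g * (π σ) ^ ((i : ℤ) + 1)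
          = (π σ)⁻¹ * (((π σ) ^ (i : ℤ))⁻¹ * g * (π σ) ^ (i : ℤ)) * π σ := by
        rw [zpow_add_one]; group
      rw [h4]; exact hσ1' _ (ih g hg)
    | pred i ih =>
      intro g hg
      have h4 : ((π σ) ^ (-(i : ℤ) - 1))⁻¹ * g * (π σ) ^ (-(i : ℤ) - 1)
          = π σ * (((π σ) ^ (-(i : ℤ)))⁻¹ * g * (π σ) ^ (-(i : ℤ))) * (π σ)⁻¹ := by
        rw [zpow_sub_one]; group
      rw [h4]; exact hσ1 _ (ih g hg)
  have hconj : ∀ i : ℤ, ∀ g ∈ Γ1, (σ ^ i)⁻¹ * s1 g * σ ^ i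
      = s1 (((π σ) ^ i)⁻¹ * g * (π σ) ^ i) := by
    intro i
    induction i using Int.induction_on with
    | zero => intro g hg; simp
    | succ i ih =>
      intro g hg
      have h4 : ((π σ) ^ ((i : ℤ) + 1))⁻¹ * g * (π σ) ^ ((i : ℤ) + 1)
          = (π σ)⁻¹ * (((π σ) ^ (i : ℤ))⁻¹ * g * (π σ) ^ (i : ℤ)) * π σ := by
        rw [zpow_add_one]; group
      have h5 : (σ ^ ((i : ℤ) + 1))⁻¹ * s1 g * σ ^ ((i : ℤ) + 1)
          = σ⁻¹ * ((σ ^ (i : ℤ))⁻¹ * s1 g * σ ^ (i : ℤ)) * σ := by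
        rw [zpow_add_one]; group
      rw [h4, h5, ih g hg, hσ' _ (hmemz _ g hg)]
    | pred i ih =>
      intro g hg
      have h4 : ((π σ) ^ (-(i : ℤ) - 1))⁻¹ * g * (π σ) ^ (-(i : ℤ) - 1)
          = π σ * (((π σ) ^ (-(i : ℤ)))⁻¹ * g * (π σ) ^ (-(i : ℤ))) * (π σ)⁻¹ := by
        rw [zpow_sub_one]; group
      have h5 : (σ ^ (-(i : ℤ) - 1))⁻¹ * s1 g * σ ^ (-(i : ℤ) - 1)
          = σ * ((σ ^ (-(i : ℤ)))⁻¹ * s1 g * σ ^ (-(i : ℤ))) * σ⁻¹ := by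
        rw [zpow_sub_one]; group
      rw [h4, h5, ih g hg, hσ _ (hmemz _ g hg)]
  -- powers of σ in Γ1
  have hpz : ∀ i : ℤ, (π σ) ^ i ∈ Γ1 → σ ^ i = s1 ((π σ) ^ i) := by
    intro i hi
    obtain ⟨j, rfl⟩ := hmin i hi
    rw [zpow_mul, zpow_mul, zpow_natCast, zpow_natCast, hpow, hpowz _ hn1]
  -- well defined map
  choose e he using hgen
  set s : Γ → E := fun γ => σ ^ (e γ) * s1 (((π σ) ^ (e γ))⁻¹ * γ) with hs
  have key : ∀ (i : ℤ) (γ : Γ), ((π σ) ^ i)⁻¹ * γ ∈ Γ1 →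
      s γ = σ ^ i * s1 (((π σ) ^ i)⁻¹ * γ) := by
    intro i γ hi
    have h6 : (π σ) ^ (e γ - i) ∈ Γ1 := by
      have : (π σ) ^ (e γ - i) = (((π σ) ^ i)⁻¹ * γ) * (((π σ) ^ (e γ))⁻¹ * γ)⁻¹ := by
        have hc : (π σ) ^ (e γ - i) = ((π σ) ^ i)⁻¹ * (π σ) ^ (e γ) := by
          rw [← zpow_neg, ← zpow_add]; congr 1; ring
        rw [hc]; group
      rw [this]
      exact Γ1.mul_mem hi (Γ1.inv_mem (he γ))
    have h7 := hpz _ h6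
    have h8 : ((π σ) ^ i)⁻¹ * γ = (π σ) ^ (e γ - i) * (((π σ) ^ (e γ))⁻¹ * γ) := by
      have hc : (π σ) ^ (e γ - i) = ((π σ) ^ i)⁻¹ * (π σ) ^ (e γ) := by
        rw [← zpow_neg, ← zpow_add]; congr 1; ring
      rw [hc]; group
    rw [h8, hmul _ h6 _ (he γ), ← h7]
    have hc : σ ^ i * σ ^ (e γ - i) = σ ^ (e γ) := by
      rw [← zpow_add]; congr 1; ring
    rw [← mul_assoc, hc]
  have smul : ∀ γ δ : Γ, s (γ * δ) = s γ * s δ := by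
    intro γ δ
    have h9 : ((π σ) ^ (e γ + e δ))⁻¹ * (γ * δ)
        = (((π σ) ^ (e δ))⁻¹ * (((π σ) ^ (e γ))⁻¹ * γ) * (π σ) ^ (e δ))
          * (((π σ) ^ (e δ))⁻¹ * δ) := by
      rw [zpow_add]; group
    have h10 := hmemz (e δ) _ (he γ)
    rw [key (e γ + e δ) (γ * δ) (by rw [h9]; exact Γ1.mul_mem h10 (he δ)), h9,
      hmul _ h10 _ (he δ), ← hconj _ _ (he γ), hs, zpow_add]
    group
  refine ⟨⟨⟨s, ?_⟩, smul⟩, ?_, ?_, ?_⟩
  · have := key 0 1 (by simpa using Γ1.one_mem)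
    rw [this]; simp [h1]
  · intro γ
    change π (s γ) = γ
    rw [hs]
    simp only [map_mul, map_zpow]
    rw [hs1 _ (he γ)]; group
  · intro g hg
    change s g = s1 g
    have := key 0 g (by simpa using hg)
    rw [this]; simp
  · change s (π σ) = σ
    have := key 1 (π σ) (by simpa using Γ1.one_mem)
    rw [this]; simp [h1]

end Pool.Agent.SmithC
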