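import Pool.Agent.Lib.SM.C.KumU
import Pool.Agent.Lib.SmD.Main

/-!
# SMITH, block C, module HomU: homomorphisms from the inertia group to `μ_M`, `M = 2^e`

A locally constant homomorphism `ψ` from the inertia group `I` of a place `w` of `Ω` to `μ_M` is
trivial if it is trivial at an element `τ` whose Kummer symbol at an `I`-fixed element `p` is a
primitive `M`-th root of unity. Proof: `ψ s = s y / y` (Hilbert 90), `y ^ M` is fixed by `I`, so its
value is an integral power of the value of a uniformizer `π` of `K`, as is the value of `p`;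
`y ^ n / r ^ m` (`r ^ M = p`) is a unit whose `M`-th power is fixed by `I`, so it is fixed by `I`.
-/

set_option autoImplicit false

namespace Pool.Agent.SmithC

open Pool.Agent.Lib.SmD

variable {k Ω : Type} [Field k] [Field Ω] [Algebra (RatFunc k) Ω]

/-- `2^e`-th roots of inertia fixed units are fixed by inertia -/
theorem root_fix_iner {w : ValuationSubring Ω} (h2 : w.valuation 2 = 1) {σ : GG k Ω}
    (hσ : σ ∈ iner (RatFunc k) w) (e : ℕ) :
    ∀ z : Ω, w.valuation z = 1 → σ (z ^ (2 ^ e)) = z ^ (2 ^ e) → σ z = z := by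
  induction e with
  | zero =>
    intro z _ h
    simpa using h
  | succ e ih =>
    intro z hz h
    have h1 : z ^ (2 ^ (e + 1)) = (z ^ 2) ^ (2 ^ e) := by rw [← pow_mul, pow_succ, mul_comm]
    rw [h1] at h
    have h3 : w.valuation (z ^ 2) = 1 := by rw [map_pow, hz, one_pow]
    exact sqrt_fix_iner h2 hσ h3 (ih (z ^ 2) h3 h) rfl

theorem val_one_of_pow {w : ValuationSubring Ω} {z : Ω} (e : ℕ)
    (h : w.valuation (z ^ (2 ^ e)) = 1) : w.valuation z = 1 := by
  rw [map_pow] at h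
  exact (pow_eq_one_iff.1 h).resolve_right (by positivity)

/-- roots of unity of order a power of `2` are fixed by inertia -/
theorem mu_fix_iner {w : ValuationSubring Ω} (h2 : w.valuation 2 = 1) {σ : GG k Ω}
    (hσ : σ ∈ iner (RatFunc k) w) (e : ℕ) {u : Ωˣ} (hu : u ^ (2 ^ e) = 1) : σ • u = u := by
  have h1 : (u : Ω) ^ (2 ^ e) = 1 := by
    rw [← Units.val_pow_eq_pow_val, hu, Units.val_one]
  apply Units.ext
  change σ (u : Ω) = u
  refine root_fix_iner h2 hσ e _ (val_one_of_pow e ?_) ?_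
  · rw [h1, map_one]
  · rw [h1, map_one]

theorem homU (h2 : (2 : k) ≠ 0) [IsSepClosure (RatFunc k) Ω] (e : ℕ) {w : ValuationSubring Ω}
    {π : RatFunc k} (hL : LocHyp (RatFunc k) w π) {p : Ω} (hp0 : p ≠ 0)
    (hp : ∀ s ∈ iner (RatFunc k) w, s p = p) {τ : GG k Ω} (hτ : τ ∈ iner (RatFunc k) w)
    (hprim : IsPrimitiveRoot (kumU (2 ^ e) p τ) (2 ^ e)) (ψ : GG k Ω → Ωˣ)
    (hM : ∀ s, ψ s ^ (2 ^ e) = 1) (hlc : LCOn (iner (RatFunc k) w) ψ)
    (hhom : ∀ s ∈ iner (RatFunc k) w, ∀ t ∈ iner (RatFunc k) w, ψ (s * t) = ψ s * ψ t)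
    (hψτ : ψ τ = 1) : ∀ s ∈ iner (RatFunc k) w, ψ s = 1 := by
  have hgal : IsGalois (RatFunc k) Ω := inferInstance
  have hsc : IsSepClosed Ω := IsSepClosure.sep_closed (RatFunc k)
  have hw2 : w.valuation 2 = 1 := hL.two
  obtain ⟨y, hy⟩ := h90U (iner (RatFunc k) w) ψ hlc (fun s hs t ht => by
    rw [hhom s hs t ht, mu_fix_iner hw2 hs e (hM t)])
  have hsy : ∀ s ∈ iner (RatFunc k) w, s • y = ψ s * y := fun s hs => by
    rw [hy s hs, inv_mul_cancel_right]
  -- `r`
  set r : Ωˣ := rtU (2 ^ e) p with hr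
  have hrp : (r : Ω) ^ (2 ^ e) = p := rtU_spec h2 e hp0
  have hsr : ∀ s : GG k Ω, s • r = kumU (2 ^ e) p s * r := fun s => by
    unfold kumU
    rw [inv_mul_cancel_right]
  have hku : ∀ s ∈ iner (RatFunc k) w, kumU (2 ^ e) p s ^ (2 ^ e) = 1 := fun s hs =>
    kumU_pow h2 e hp0 (hp s hs)
  -- the values
  have hya : ∀ s ∈ iner (RatFunc k) w, s ((y : Ω) ^ (2 ^ e)) = (y : Ω) ^ (2 ^ e) := by
    intro s hs
    have h1 : s • (y ^ (2 ^ e)) = y ^ (2 ^ e) := by
      rw [smul_pow', hsy s hs, mul_pow, hM, one_mul]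
    have h3 := congrArg (fun u : Ωˣ => (u : Ω)) h1
    simpa using h3
  obtain ⟨m, hm⟩ := value_iner hL (pow_ne_zero (2 ^ e) y.ne_zero) hya
  obtain ⟨n, hn⟩ := value_iner hL hp0 hp
  -- the element `Z`
  set Z : Ωˣ := y ^ n * (r ^ m)⁻¹ with hZ
  have hZM : ((Z ^ (2 ^ e) : Ωˣ) : Ω) = ((y : Ω) ^ (2 ^ e)) ^ n * (p ^ m)⁻¹ := by
    have h1 : Z ^ (2 ^ e) = (y ^ (2 ^ e)) ^ n * ((r ^ (2 ^ e)) ^ m)⁻¹ := by
      rw [hZ, mul_pow, inv_pow]
      congr 1
      · rw [← zpow_natCast, ← zpow_mul, mul_comm n, zpow_mul, zpow_natCast]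
      · rw [← zpow_natCast, ← zpow_mul, mul_comm m, zpow_mul, zpow_natCast]
    rw [h1, Units.val_mul, Units.val_inv_eq_inv_val, Units.val_zpow_eq_zpow_val,
      Units.val_zpow_eq_zpow_val, Units.val_pow_eq_pow_val, Units.val_pow_eq_pow_val, hrp]
  have hπ0 : w.valuation (algebraMap (RatFunc k) Ω π) ≠ 0 := by
    rw [Valuation.ne_zero_iff, map_ne_zero]
    exact hL.pi_ne
  have hZval : w.valuation (Z : Ω) = 1 := by
    apply val_one_of_pow e
    rw [← Units.val_pow_eq_pow_val, hZM, map_mul, map_inv₀, map_zpow₀, map_zpow₀, hm, hn,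
      ← zpow_mul, ← zpow_mul, mul_comm m n, mul_inv_cancel₀ (zpow_ne_zero _ hπ0)]
  have hZfix : ∀ s ∈ iner (RatFunc k) w, s • Z = Z := by
    intro s hs
    apply Units.ext
    change s (Z : Ω) = Z
    refine root_fix_iner hw2 hs e _ hZval ?_
    rw [← Units.val_pow_eq_pow_val, hZM, map_mul, map_inv₀, map_zpow₀, map_zpow₀, hya s hs,
      hp s hs]
  have hrel : ∀ s ∈ iner (RatFunc k) w, ψ s ^ n = kumU (2 ^ e) p s ^ m := by
    intro s hs
    have h1 := hZfix s hs
    have h3 : s • Z = ψ s ^ n * y ^ n * (kumU (2 ^ e) p s ^ m * r ^ m)⁻¹ := by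
      have h4 : ∀ (u : Ωˣ) (j : ℤ), s • (u ^ j) = (s • u) ^ j := fun u j =>
        map_zpow (MulDistribMulAction.toMonoidHom Ωˣ s) u j
      rw [hZ, smul_mul', smul_inv', h4, h4, hsy s hs, hsr s, mul_zpow, mul_zpow]
    rw [h3, hZ] at h1
    have h5 : ∀ a b c d : Ωˣ, a * b * (c * d)⁻¹ = b * d⁻¹ → a = c := by
      intro a b c d h
      rw [mul_inv_rev, mul_comm a b, mul_assoc] at h
      have h6 := mul_left_cancel h
      rw [mul_comm d⁻¹ c⁻¹, ← mul_assoc] at h6
      have h7 : a * c⁻¹ = 1 := by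
        have h8 : a * c⁻¹ * d⁻¹ = 1 * d⁻¹ := by rw [h6, one_mul]
        exact mul_right_cancel h8
      exact mul_inv_eq_one.1 h7
    exact h5 _ _ _ _ h1
  have hdvd : ((2 ^ e : ℕ) : ℤ) ∣ m := by
    have h1 := hrel τ hτ
    rw [hψτ, one_zpow] at h1
    exact (hprim.zpow_eq_one_iff_dvd m).1 h1.symm
  have hpow : ∀ s ∈ iner (RatFunc k) w, ψ s ^ n = 1 := by
    intro s hs
    obtain ⟨l, hl⟩ := hdvd
    rw [hrel s hs, hl, zpow_mul, zpow_natCast, hku s hs, one_zpow]
  intro s hs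
  rcases Int.even_or_odd n with hev | hodd
  · -- impossible unless `e = 0`
    cases e with
    | zero => simpa using hM s
    | succ e =>
      exfalso
      obtain ⟨n', hn'⟩ := hev
      set P : Ω := algebraMap (RatFunc k) Ω π with hP
      have hP0 : P ≠ 0 := by
        rw [hP, map_ne_zero]
        exact hL.pi_ne
      have hPfix : τ (P ^ n') = P ^ n' := by
        rw [map_zpow₀, hP, AlgEquiv.commutes]
      set v : Ω := (r : Ω) ^ (2 ^ e) * (P ^ n')⁻¹ with hv
      have hv2 : v ^ 2 = p * (P ^ n)⁻¹ := by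
        rw [hv, mul_pow, ← pow_mul, ← pow_succ, hrp, inv_pow, ← zpow_natCast (P ^ n') 2,
          ← zpow_mul, hn']
        congr 3
        push_cast
        ring
      have hval : w.valuation (v ^ 2) = 1 := by
        rw [hv2, map_mul, map_inv₀, map_zpow₀, hn, mul_inv_cancel₀ (zpow_ne_zero _ hπ0)]
      have hfix : τ (v ^ 2) = v ^ 2 := by
        rw [hv2, map_mul, map_inv₀, map_zpow₀, hp τ hτ, hP, AlgEquiv.commutes]
      have hvfix : τ v = v := sqrt_fix_iner hw2 hτ hval hfix rfl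
      have hrfix : τ ((r : Ω) ^ (2 ^ e)) = (r : Ω) ^ (2 ^ e) := by
        have h1 : (r : Ω) ^ (2 ^ e) = v * P ^ n' := by
          rw [hv, inv_mul_cancel_right₀ (zpow_ne_zero _ hP0)]
        rw [h1, map_mul, hvfix, hPfix]
      have h1 : kumU (2 ^ (e + 1)) p τ ^ (2 ^ e) = 1 := by
        have h3 : τ • (r ^ (2 ^ e)) = r ^ (2 ^ e) := by
          apply Units.ext
          change τ ((r ^ (2 ^ e) : Ωˣ) : Ω) = _
          rw [Units.val_pow_eq_pow_val]
          exact hrfix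
        unfold kumU
        rw [← hr, mul_pow, inv_pow, ← smul_pow', h3, mul_inv_cancel]
      have h3 := (hprim.pow_eq_one_iff_dvd (2 ^ e)).1 h1
      have h4 := Nat.le_of_dvd (by positivity) h3
      have h5 : 2 ^ e < 2 ^ (e + 1) := Nat.pow_lt_pow_right (by norm_num) (Nat.lt_succ_self e)
      omega
  · obtain ⟨a, b, hab⟩ : IsCoprime n ((2 ^ e : ℕ) : ℤ) := by
      have h1 : IsCoprime n 2 := by
        obtain ⟨l, hl⟩ := hodd
        exact ⟨1, -l, by rw [hl]; ring⟩
      push_cast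
      exact h1.pow_right
    have h1 : ψ s ^ (a * n + b * ((2 ^ e : ℕ) : ℤ)) = 1 := by
      rw [zpow_add, mul_comm a, zpow_mul, hpow s hs, one_zpow, one_mul, mul_comm b, zpow_mul,
        zpow_natCast, hM, one_zpow]
    rwa [hab, zpow_one] at h1

end Pool.Agent.SmithC
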