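import Mathlib

set_option autoImplicit false

/-!
SMITH, block C: cocycle identities. `c` is a two-cocycle of a group `G` with values in `ZMod 2`,
`b` splits `c` on a normal subgroup `H`; `chiG c b g` is the defect of `b` under conjugation by `g`.
-/

namespace Pool.Agent.SmithC

variable {G : Type*} [Group G]

/-- two-cocycle condition -/
def Coc2 (c : G → G → ZMod 2) : Prop := ∀ s t w, c s t + c (s * t) w = c t w + c s (t * w)

/-- `c = db` on the subgroup `A` -/
def Spl (A : Subgroup G) (c : G → G → ZMod 2) (b : G → ZMod 2) : Prop :=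
  ∀ s ∈ A, ∀ t ∈ A, c s t = b s + b t + b (s * t)

/-- defect of `b` under conjugation by `g` -/
def chiG (c : G → G → ZMod 2) (b : G → ZMod 2) (g h : G) : ZMod 2 :=
  b (g⁻¹ * h * g) + c g (g⁻¹ * h * g) + b h + c h g

theorem Coc2.one_right {c : G → G → ZMod 2} (hc : Coc2 c) (g : G) : c g 1 = c 1 1 := by
  have := hc g 1 1
  rw [mul_one, mul_one] at this
  exact add_right_cancel this

theorem Coc2.one_left {c : G → G → ZMod 2} (hc : Coc2 c) (g : G) : c 1 g = c 1 1 := by
  have := hc 1 1 g
  rw [one_mul, one_mul] at this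
  exact (add_right_cancel (this.trans (add_comm _ _))).symm

theorem Spl.one {A : Subgroup G} {c : G → G → ZMod 2} {b : G → ZMod 2} (h : Spl A c b) :
    c 1 1 = b 1 := by
  have := h 1 A.one_mem 1 A.one_mem
  rw [mul_one] at this
  rw [this, CharTwo.add_self_eq_zero, zero_add]

theorem Spl.mono {A B : Subgroup G} {c : G → G → ZMod 2} {b : G → ZMod 2} (h : Spl A c b)
    (hBA : B ≤ A) : Spl B c b := fun s hs t ht => h s (hBA hs) t (hBA ht)

section

variable {c : G → G → ZMod 2} (hc : Coc2 c) {H : Subgroup G} [hH : H.Normal] {b : G → ZMod 2}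
  (hb : Spl H c b)

include hc hb

theorem chiG_hom (g : G) {h h' : G} (hh : h ∈ H) (hh' : h' ∈ H) :
    chiG c b g (h * h') = chiG c b g h + chiG c b g h' := by
  have ha : g⁻¹ * h * g ∈ H := by
    have := hH.conj_mem h hh g⁻¹
    rwa [inv_inv] at this
  have ha' : g⁻¹ * h' * g ∈ H := by
    have := hH.conj_mem h' hh' g⁻¹
    rwa [inv_inv] at this
  have e0 : g⁻¹ * (h * h') * g = (g⁻¹ * h * g) * (g⁻¹ * h' * g) := by group
  unfold chiG
  rw [e0]
  have e1 := hc g (g⁻¹ * h * g) (g⁻¹ * h' * g)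
  have e2 := hc h g (g⁻¹ * h' * g)
  have e3 := hc h h' g
  have s1 := hb _ ha _ ha'
  have s2 := hb _ hh _ hh'
  have f1 : g * (g⁻¹ * h * g) = h * g := by group
  have f2 : g * (g⁻¹ * h' * g) = h' * g := by group
  rw [f1] at e1
  rw [f2] at e2
  linear_combination (norm := (ring_nf; reduce_mod_char)) e1 + e2 + e3 + s1 + s2

theorem chiG_mul (g g' : G) (h : G) :
    chiG c b (g * g') h = chiG c b g h + chiG c b g' (g⁻¹ * h * g) := by
  unfold chiG
  have e0 : (g * g')⁻¹ * h * (g * g') = g'⁻¹ * (g⁻¹ * h * g) * g' := by group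
  rw [e0]
  have e1 := hc g g' (g'⁻¹ * (g⁻¹ * h * g) * g')
  have e2 := hc g (g⁻¹ * h * g) g'
  have e3 := hc h g g'
  have f1 : g' * (g'⁻¹ * (g⁻¹ * h * g) * g') = (g⁻¹ * h * g) * g' := by group
  have f2 : g * (g⁻¹ * h * g) = h * g := by group
  rw [f1] at e1
  rw [f2] at e2
  linear_combination (norm := (ring_nf; reduce_mod_char)) e1 + e2 + e3

theorem chiG_self {g h : G} (hg : g ∈ H) (hh : h ∈ H) : chiG c b g h = 0 := by
  have ha : g⁻¹ * h * g ∈ H := H.mul_mem (H.mul_mem (H.inv_mem hg) hh) hg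
  have s1 := hb g hg _ ha
  have s2 := hb h hh g hg
  have f1 : g * (g⁻¹ * h * g) = h * g := by group
  rw [f1] at s1
  unfold chiG
  linear_combination (norm := (ring_nf; reduce_mod_char)) s1 + s2

theorem chiG_one (h : G) (hh : h ∈ H) : chiG c b 1 h = 0 := chiG_self hc hb H.one_mem hh

theorem chiG_mul_right {g g' h : G} (hg : g' ∈ H) (hh : h ∈ H) :
    chiG c b (g * g') h = chiG c b g h := by
  have ha : g⁻¹ * h * g ∈ H := by
    have := hH.conj_mem h hh g⁻¹
    rwa [inv_inv] at this
  rw [chiG_mul hc hb, chiG_self hc hb hg ha, add_zero]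

/-- powers -/
theorem chiG_pow (g : G) (n : ℕ) {h : G} (hh : h ∈ H) :
    chiG c b (g ^ n) h = ∑ i ∈ Finset.range n, chiG c b g ((g ^ i)⁻¹ * h * g ^ i) := by
  induction n with
  | zero => rw [pow_zero, Finset.sum_range_zero, chiG_one hc hb h hh]
  | succ n ih => rw [pow_succ, chiG_mul hc hb, ih, Finset.sum_range_succ]

/-- on a subgroup on which `c` splits by another cochain `d`, the defect of `b` under an element
of that subgroup is the difference of the values of the homomorphism `b + d` -/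
theorem chiG_local {D : Subgroup G} {d : G → ZMod 2} (hd : Spl D c d) {F h : G} (hF : F ∈ D)
    (hh : h ∈ D) : chiG c b F h = (b (F⁻¹ * h * F) + d (F⁻¹ * h * F)) + (b h + d h) := by
  have ha : F⁻¹ * h * F ∈ D := D.mul_mem (D.mul_mem (D.inv_mem hF) hh) hF
  have s1 := hd F hF _ ha
  have s2 := hd h hh F hF
  have f1 : F * (F⁻¹ * h * F) = h * F := by group
  rw [f1] at s1
  unfold chiG
  linear_combination (norm := (ring_nf; reduce_mod_char)) s1 + s2

end

/-- two cochains splitting the same cocycle differ by a homomorphism -/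
theorem spl_diff {c : G → G → ZMod 2} {A : Subgroup G} {b d : G → ZMod 2} (hb : Spl A c b)
    (hd : Spl A c d) : ∀ s ∈ A, ∀ t ∈ A, (b (s * t) + d (s * t)) = (b s + d s) + (b t + d t) := by
  intro s hs t ht
  have e1 := hb s hs t ht
  have e2 := hd s hs t ht
  linear_combination (norm := (ring_nf; reduce_mod_char)) e1 + e2

/-- adding a homomorphism to `b` -/
theorem spl_add {c : G → G → ZMod 2} {A : Subgroup G} {b ψ : G → ZMod 2} (hb : Spl A c b)
    (hψ : ∀ s ∈ A, ∀ t ∈ A, ψ (s * t) = ψ s + ψ t) : Spl A c (fun s => b s + ψ s) := by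
  intro s hs t ht
  have e1 := hb s hs t ht
  have e2 := hψ s hs t ht
  change c s t = b s + ψ s + (b t + ψ t) + (b (s * t) + ψ (s * t))
  linear_combination (norm := (ring_nf; reduce_mod_char)) e1 + e2

/-- the defect after adding a function to `b` -/
theorem chiG_add (c : G → G → ZMod 2) (b ψ : G → ZMod 2) (g h : G) :
    chiG c (fun s => b s + ψ s) g h = chiG c b g h + (ψ (g⁻¹ * h * g) + ψ h) := by
  unfold chiG
  ring

end Pool.Agent.SmithC
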