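import Pool.Agent.Lib.SM.C.Defs
import Pool.Agent.Lib.SM.C.Coc

set_option autoImplicit false

/-!
SMITH, block C: the Kummer symbol `kap` and locally constant functions.
-/

namespace Pool.Agent.SmithC

open Pool.Agent.SmF

variable {k Ω : Type} [Field k] [Field Ω] [Algebra (RatFunc k) Ω]

theorem IsCst.map {x : Ω} (hx : IsCst k x) (g : GG k Ω) : IsCst k (g x) := by
  obtain ⟨n, hn, h⟩ := hx
  exact ⟨n, hn, by rw [← map_pow, h]⟩

instance HH_normal : (HH k Ω).Normal := by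
  refine ⟨fun h hh g => ?_⟩
  intro x hx
  change g (h (g⁻¹ x)) = x
  rw [hh _ (hx.map g⁻¹)]
  exact g.apply_symm_apply x

theorem kap_conj (f : Ω) (g h : GG k Ω) : kap f (g⁻¹ * h * g) = kap (g f) h := by
  unfold kap
  congr 1
  apply propext
  constructor
  · intro H r hr
    have h1 : (g⁻¹ r) ^ 2 = f := by
      rw [← map_pow, hr]
      exact g.symm_apply_apply f
    have h2 := H _ h1
    have h3 : (g⁻¹ * h * g) (g⁻¹ r) = g⁻¹ (h r) := by
      change g⁻¹ (h (g (g⁻¹ r))) = g⁻¹ (h r)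
      congr 2
      exact g.apply_symm_apply r
    rw [h3] at h2
    exact g⁻¹.injective h2
  · intro H r hr
    have h1 : (g r) ^ 2 = g f := by rw [← map_pow, hr]
    have h2 := H _ h1
    change g⁻¹ (h (g r)) = r
    rw [h2]
    exact g.symm_apply_apply r

theorem kap_eq_zero_iff {f r : Ω} (hr : r ^ 2 = f) (s : GG k Ω) : kap f s = 0 ↔ s r = r := by
  unfold kap
  constructor
  · intro h
    by_contra h1
    rw [if_neg (fun h3 => h1 (h3 r hr))] at h
    exact one_ne_zero h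
  · intro h
    rw [if_pos]
    intro r' hr'
    have h1 : r' = r ∨ r' = -r := by rw [← sq_eq_sq_iff_eq_or_eq_neg, hr, hr']
    rcases h1 with rfl | rfl
    · exact h
    · rw [map_neg, h]

theorem kap_spec {f r : Ω} (hr : r ^ 2 = f) (s : GG k Ω) (hs : s f = f) :
    s r = (-1) ^ (kap f s).val * r := by
  have h3 : s r = r ∨ s r = -r := by
    rw [← sq_eq_sq_iff_eq_or_eq_neg, ← map_pow, hr, hs]
  by_cases h : kap f s = 0
  · rw [h, (kap_eq_zero_iff hr s).1 h]
    simp
  · have h4 : kap f s = 1 := by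
      have : ∀ a : ZMod 2, a ≠ 0 → a = 1 := by decide
      exact this _ h
    rcases h3 with h3 | h3
    · exact absurd ((kap_eq_zero_iff hr s).2 h3) h
    · rw [h4, h3, ZMod.val_one]
      simp

theorem neg_one_pow_val_inj (h2 : (2 : Ω) ≠ 0) {a b : ZMod 2}
    (hab : (-1 : Ω) ^ a.val = (-1) ^ b.val) : a = b := by
  fin_cases a <;> fin_cases b
  · rfl
  · exfalso
    apply h2
    change ((-1 : Ω) ^ 0 = (-1) ^ 1) at hab
    linear_combination hab
  · exfalso
    apply h2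
    change ((-1 : Ω) ^ 1 = (-1) ^ 0) at hab
    linear_combination -hab
  · rfl

theorem kap_eq_of (h2 : (2 : Ω) ≠ 0) {f r : Ω} (hf : f ≠ 0) (hr : r ^ 2 = f) (s : GG k Ω)
    (hs : s f = f) (a : ZMod 2) (ha : s r = (-1) ^ a.val * r) : kap f s = a := by
  have h1 := kap_spec hr s hs
  have hr0 : r ≠ 0 := by
    rintro rfl
    apply hf
    rw [← hr]
    simp
  rw [h1] at ha
  exact neg_one_pow_val_inj h2 (mul_right_cancel₀ hr0 ha)

theorem two_ne (h2 : (2 : k) ≠ 0) : (2 : Ω) ≠ 0 := by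
  apply two_ne_zero' (K := RatFunc k) (Ω := Ω)
  intro h
  apply h2
  apply (algebraMap k (RatFunc k)).injective
  rw [map_ofNat, h, map_zero]

theorem exists_root [IsSepClosure (RatFunc k) Ω] (h2 : (2 : k) ≠ 0) (f : Ω) :
    ∃ r : Ω, r ^ 2 = f := by
  have hsc : IsSepClosed Ω := IsSepClosure.sep_closed (RatFunc k)
  have : NeZero (2 : Ω) := ⟨two_ne h2⟩
  obtain ⟨z, hz⟩ := IsSepClosed.exists_eq_mul_self f
  exact ⟨z, by rw [hz, sq]⟩

theorem kap_hom [IsSepClosure (RatFunc k) Ω] (h2 : (2 : k) ≠ 0) {f : Ω} {s t : GG k Ω}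
    (hs : s f = f) (ht : t f = f) : kap f (s * t) = kap f s + kap f t := by
  obtain ⟨r, hr⟩ := exists_root (k := k) h2 f
  by_cases hf : f = 0
  · have hr0 : r = 0 := by
      rw [hf] at hr
      exact pow_eq_zero_iff (two_ne_zero) |>.1 hr
    have h1 : ∀ s : GG k Ω, kap f s = 0 := fun s => (kap_eq_zero_iff hr s).2 (by rw [hr0, map_zero])
    rw [h1, h1, h1, add_zero]
  · apply kap_eq_of (two_ne h2) hf hr
    · change s (t f) = f
      rw [ht, hs]
    · rw [AlgEquiv.mul_apply, kap_spec hr t ht, map_mul, kap_spec hr s hs, map_pow, map_neg,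
        map_one, ← mul_assoc, ← pow_add, ZMod.val_add, ← neg_one_pow_eq_pow_mod_two, add_comm]

theorem tt_fixed (g : GG k Ω) : g (tt k Ω) = tt k Ω := g.commutes _

theorem tt_sub_map (g : GG k Ω) (α : Ω) : g (tt k Ω - α) = tt k Ω - g α := by
  rw [map_sub, tt_fixed]

theorem tt_sub_fixed {h : GG k Ω} (hh : h ∈ HH k Ω) {α : Ω} (hα : IsCst k α) :
    h (tt k Ω - α) = tt k Ω - α := by
  rw [tt_sub_map, hh α hα]

theorem exists_open_fix [IsSepClosure (RatFunc k) Ω] (r : Ω) :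
    ∃ N : Subgroup (GG k Ω), N.Normal ∧ IsOpen (N : Set (GG k Ω)) ∧ ∀ n ∈ N, n r = r := by
  have hgal : IsGalois (RatFunc k) Ω := IsSepClosure.isGalois
  let L := FiniteGaloisIntermediateField.adjoin (RatFunc k) ({r} : Set Ω)
  refine ⟨L.toIntermediateField.fixingSubgroup, ?_, ?_, ?_⟩
  · rw [InfiniteGalois.normal_iff_isGalois]
    infer_instance
  · exact IntermediateField.fixingSubgroup_isOpen _
  · intro n hn
    exact hn ⟨r, FiniteGaloisIntermediateField.subset_adjoin (RatFunc k) ({r} : Set Ω) rfl⟩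

theorem LCOn.comp {α β : Type} {A : Subgroup (GG k Ω)} {f : GG k Ω → α} (h : LCOn A f)
    (g : α → β) : LCOn A (fun s => g (f s)) := by
  obtain ⟨N, h1, h2, h3⟩ := h
  exact ⟨N, h1, h2, fun s hs n hn hnA => congrArg g (h3 s hs n hn hnA)⟩

theorem LCOn.prod {α β : Type} {A : Subgroup (GG k Ω)} {f : GG k Ω → α} {g : GG k Ω → β}
    (h : LCOn A f) (h' : LCOn A g) : LCOn A (fun s => (f s, g s)) := by
  obtain ⟨N, h1, h2, h3⟩ := h
  obtain ⟨N', h1', h2', h3'⟩ := h'
  refine ⟨N ⊓ N', inferInstance, ?_, fun s hs n hn hnA =>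
    Prod.ext (h3 s hs n hn.1 hnA) (h3' s hs n hn.2 hnA)⟩
  rw [Subgroup.coe_inf]
  exact h2.inter h2'

theorem LCOn.mono {α : Type} {A B : Subgroup (GG k Ω)} {f : GG k Ω → α} (h : LCOn A f)
    (hBA : B ≤ A) : LCOn B f := by
  obtain ⟨N, h1, h2, h3⟩ := h
  exact ⟨N, h1, h2, fun s hs n hn hnA => h3 s (hBA hs) n hn (hBA hnA)⟩

theorem LCOn.add {A : Subgroup (GG k Ω)} {f g : GG k Ω → ZMod 2} (h : LCOn A f) (h' : LCOn A g) :
    LCOn A (fun s => f s + g s) := (h.prod h').comp fun x => x.1 + x.2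

theorem lcOn_const {α : Type} (A : Subgroup (GG k Ω)) (a : α) : LCOn A (fun _ => a) :=
  ⟨⊤, inferInstance, by simp, fun _ _ _ _ _ => rfl⟩

theorem lcOn_sum {ι : Type} (S : Finset ι) {A : Subgroup (GG k Ω)} (f : ι → GG k Ω → ZMod 2)
    (h : ∀ i ∈ S, LCOn A (f i)) : LCOn A (fun s => ∑ i ∈ S, f i s) := by
  classical
  induction S using Finset.induction_on with
  | empty => simpa using lcOn_const A (0 : ZMod 2)
  | insert a S ha ih =>
    have h1 := (h a (Finset.mem_insert_self a S)).add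
      (ih fun i hi => h i (Finset.mem_insert_of_mem hi))
    have h2 : (fun s => ∑ i ∈ insert a S, f i s) = fun s => f a s + ∑ i ∈ S, f i s := by
      funext s
      rw [Finset.sum_insert ha]
    rw [h2]
    exact h1

theorem lcOn_kap [IsSepClosure (RatFunc k) Ω] (h2 : (2 : k) ≠ 0) (A : Subgroup (GG k Ω)) (f : Ω) :
    LCOn A (fun s => kap f s) := by
  obtain ⟨r, hr⟩ := exists_root (k := k) h2 f
  obtain ⟨N, h1, h2', h3⟩ := exists_open_fix (k := k) r
  refine ⟨N, h1, h2', fun s _ n hn _ => ?_⟩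
  have e : (s * n) r = s r := by
    change s (n r) = s r
    rw [h3 n hn]
  have key : kap f (s * n) = 0 ↔ kap f s = 0 := by
    rw [kap_eq_zero_iff hr, kap_eq_zero_iff hr, e]
  have : ∀ a b : ZMod 2, (a = 0 ↔ b = 0) → a = b := by decide
  exact this _ _ key

/-- the homomorphism on `H` attached to `m` -/
noncomputable def psi (k : Type) {Ω : Type} [Field k] [Field Ω] [Algebra (RatFunc k) Ω]
    (m : Ω →₀ ZMod 2) (h : GG k Ω) : ZMod 2 :=
  m.sum fun α a => a * kap (tt k Ω - α) h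

theorem psi_add (m m' : Ω →₀ ZMod 2) (h : GG k Ω) :
    psi k (m + m') h = psi k m h + psi k m' h := by
  unfold psi
  rw [Finsupp.sum_add_index']
  · intro α; rw [zero_mul]
  · intro α a b; rw [add_mul]

theorem psi_hom [IsSepClosure (RatFunc k) Ω] (h2 : (2 : k) ≠ 0) {m : Ω →₀ ZMod 2}
    (hm : ∀ α ∈ m.support, IsCst k α) {s t : GG k Ω} (hs : s ∈ HH k Ω) (ht : t ∈ HH k Ω) :
    psi k m (s * t) = psi k m s + psi k m t := by
  unfold psi Finsupp.sum
  rw [← Finset.sum_add_distrib]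
  refine Finset.sum_congr rfl fun α hα => ?_
  change m α * kap (tt k Ω - α) (s * t) = m α * kap (tt k Ω - α) s + m α * kap (tt k Ω - α) t
  rw [kap_hom h2 (tt_sub_fixed hs (hm α hα)) (tt_sub_fixed ht (hm α hα)), mul_add]

theorem psi_lc [IsSepClosure (RatFunc k) Ω] (h2 : (2 : k) ≠ 0) (A : Subgroup (GG k Ω))
    (m : Ω →₀ ZMod 2) : LCOn A (psi k m) := by
  have h1 := lcOn_sum m.support (A := A) (fun α s => m α * kap (tt k Ω - α) s)
    (fun α _ => (lcOn_kap h2 A (tt k Ω - α)).comp fun x => m α * x)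
  exact h1

theorem psi_conj (m : Ω →₀ ZMod 2) (g h : GG k Ω) :
    psi k m (g⁻¹ * h * g) = psi k (m.mapDomain g) h := by
  unfold psi
  rw [Finsupp.sum_mapDomain_index]
  · refine Finsupp.sum_congr fun α _ => ?_
    rw [kap_conj, tt_sub_map]
  · intro α; rw [zero_mul]
  · intro α a b; rw [add_mul]

end Pool.Agent.SmithC
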