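import Pool.Agent.Lib.SM.C.DefsU

/-!
# SMITH, block C: the local data used in the descent
-/

set_option autoImplicit false

namespace Pool.Agent.SmithC

variable {k Ω : Type} [Field k] [Field Ω] [Algebra (RatFunc k) Ω]

/-- Data at the constant `α`: `D` = decomposition group at a place of `Ω` where `t - α` is small,
`F` = Frobenius, `τ` = tame generator, `f` = degree of the place. -/
structure LocDataU (e : ℕ) (α : Ω) (f : ℕ) (D : Subgroup (GG k Ω)) (F τ : GG k Ω) : Prop where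
  fpos : 0 < f
  cst : IsCst k α
  per : α ^ (Nat.card k ^ f) = α
  mini : ∀ i, 0 < i → i < f → α ^ (Nat.card k ^ i) ≠ α
  F_mem : F ∈ D
  F_act : ∀ x : Ω, IsCst k x → F x = x ^ (Nat.card k ^ f)
  τ_mem : τ ∈ D
  τ_H : τ ∈ HH k Ω
  τ_ne : ∀ β : Ω, IsCst k β → β ≠ α → kumU (2 ^ e) (tt k Ω - β) τ = 1
  τ_prim : IsPrimitiveRoot (kumU (2 ^ e) (tt k Ω - α) τ) (2 ^ e)
  hom : ∀ ψ : GG k Ω → Ωˣ, (∀ s, ψ s ^ (2 ^ e) = 1) → LCOn (D ⊓ HH k Ω) ψ →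
    (∀ s ∈ D ⊓ HH k Ω, ∀ t ∈ D ⊓ HH k Ω, ψ (s * t) = ψ s * ψ t) → ψ τ = 1 →
    ∀ s ∈ D ⊓ HH k Ω, ψ s = 1

end Pool.Agent.SmithC
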