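import Pool.Agent.Lib.SM.C.LocRoot
import Pool.Agent.Lib.SM.C.HomU
import Pool.Agent.Lib.SM.C.LocDef
import Pool.Agent.Lib.SM.C.Kap
import Pool.Agent.Lib.SmF.Vals

/-!
# SMITH, block C, module LocAd: the local data at a constant

For a constant `α ∈ Ω` there are a finite place `v` of `k(t)` and a Frobenius conjugate
`α ^ (q ^ j)` such that the chosen decomposition group, Frobenius and tame generator at `v` satisfy
`LocDataU` at `α ^ (q ^ j)`.
-/

set_option autoImplicit false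

namespace Pool.Agent.SmithC

open Polynomial Pool.Agent.Lib.SmD Pool.Agent.BSDFF

variable {k Ω : Type} [Field k] [Field Ω] [Algebra (RatFunc k) Ω]

/-- `D ⊓ H` is the inertia group -/
theorem locAd_iner [Finite k] [IsSepClosure (RatFunc k) Ω] {w : ValuationSubring Ω}
    [Finite (IsLocalRing.ResidueField (below (RatFunc k) w))] :
    dec (RatFunc k) w ⊓ HH k Ω = iner (RatFunc k) w := by
  obtain ⟨p, s, hp, -, hO, hs, hq⟩ := locRoot_char k Ω
  have : Fact p.Prime := ⟨hp⟩
  have hgal : IsGalois (RatFunc k) Ω := IsSepClosure.isGalois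
  have hsc : IsSepClosed Ω := IsSepClosure.sep_closed (RatFunc k)
  ext g
  constructor
  · rintro ⟨h1, h2⟩
    rw [mem_iner_iff_cst (p := p) h1]
    rintro c ⟨e, he, hc⟩
    refine h2 c ⟨e, he, ?_⟩
    rw [hq, ← pow_mul, mul_comm]
    exact cst_pow_mul hc s
  · intro h
    exact ⟨h.1, fun x hx => iner_cst h (hx.conv hs hq)⟩

/-- `t` is not a constant -/
theorem locAd_tt [Finite k] (h2 : (2 : k) ≠ 0) [IsSepClosure (RatFunc k) Ω] {α : Ω}
    (hα : IsCst k α) : tt k Ω - α ≠ 0 := by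
  obtain ⟨κ, h1, -, h3, -⟩ := exists_cstField (k := k) (Ω := Ω) h2
  intro h
  rw [sub_eq_zero] at h
  rw [h] at h3
  exact h3 (isAlgebraic_algebraMap (⟨α, (h1 α).2 hα⟩ : κ))

/-- `t - β` is a unit where `t - α` is small -/
theorem locAd_unit [Finite k] {w : ValuationSubring Ω} {α β : Ω} (hα : IsCst k α)
    (hβ : IsCst k β) (hne : β ≠ α) (hlt : w.valuation (tt k Ω - α) < 1) :
    w.valuation (tt k Ω - β) = 1 := by
  obtain ⟨p, s, hp, -, hO, hs, hq⟩ := locRoot_char k Ω
  have : Fact p.Prime := ⟨hp⟩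
  have h1 : w.valuation (α - β) = 1 :=
    ((hα.conv hs hq).sub (hβ.conv hs hq)).val hp.one_lt (sub_ne_zero.2 hne.symm) w
  have h3 : tt k Ω - β = (tt k Ω - α) + (α - β) := by ring
  rw [h3, Valuation.map_add_eq_of_lt_right _ (by rw [h1]; exact hlt), h1]

/-- Kummer symbols of units are trivial on inertia -/
theorem locAd_kum (h2 : (2 : k) ≠ 0) [IsSepClosure (RatFunc k) Ω] (e : ℕ) {w : ValuationSubring Ω}
    (hw2 : w.valuation 2 = 1) {τ : GG k Ω} (hτ : τ ∈ iner (RatFunc k) w) {z : Ω}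
    (hz : w.valuation z = 1) (hf : τ z = z) : kumU (2 ^ e) z τ = 1 := by
  have hz0 : z ≠ 0 := by
    rintro rfl
    rw [map_zero] at hz
    exact zero_ne_one hz
  have hr := rtU_spec (k := k) h2 e hz0
  have h1 : w.valuation ((rtU (2 ^ e) z : Ωˣ) : Ω) = 1 := val_one_of_pow e (by rw [hr, hz])
  have h3 := root_fix_iner hw2 hτ e _ h1 (by rw [hr, hf])
  unfold kumU
  rw [mul_inv_eq_one]
  exact Units.ext h3

/-- the Kummer symbol at `t - α` of the tame generator is a primitive root of unity -/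
theorem locAd_prim [Finite k] (h2 : (2 : k) ≠ 0) [IsSepClosure (RatFunc k) Ω] (e : ℕ)
    {w : ValuationSubring Ω} (hw2 : w.valuation 2 = 1) {τ : GG k Ω}
    (hτ : τ ∈ iner (RatFunc k) w) {P : k[X]} {f : ℕ} {g : ℕ → Ω} (hg : ∀ i, IsCst k (g i))
    {j : ℕ} (hinj : ∀ i < f, i ≠ j → g i ≠ g j)
    (hP : P.map (kOm k Ω) = ∏ i ∈ Finset.range f, (X - C (g i))) (hj : j < f)
    (hlt : w.valuation (tt k Ω - g j) < 1) (hτH : τ ∈ HH k Ω)
    (hchi : chi (RatFunc k) (algebraMap k[X] (RatFunc k) P) τ = 1) :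
    IsPrimitiveRoot (kumU (2 ^ e) (tt k Ω - g j) τ) (2 ^ e) := by
  have hsc : IsSepClosed Ω := IsSepClosure.sep_closed (RatFunc k)
  have hp0 : tt k Ω - g j ≠ 0 := locAd_tt h2 (hg j)
  have hfix : ∀ i, τ (tt k Ω - g i) = tt k Ω - g i := fun i => tt_sub_fixed hτH (hg i)
  have hpow := kumU_pow (k := k) h2 e hp0 (hfix j)
  cases e with
  | zero =>
    rw [pow_zero, pow_one] at hpow
    rw [pow_zero, IsPrimitiveRoot.one_right_iff]
    exact hpow
  | succ n =>
    rw [IsPrimitiveRoot.iff_orderOf]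
    refine orderOf_eq_prime_pow ?_ hpow
    intro hcon
    set r : Ωˣ := rtU (2 ^ (n + 1)) (tt k Ω - g j) with hr
    have hrs : (r : Ω) ^ (2 ^ (n + 1)) = tt k Ω - g j := rtU_spec (k := k) h2 (n + 1) hp0
    have hy2 : ((r : Ω) ^ (2 ^ n)) ^ 2 = tt k Ω - g j := by
      rw [← pow_mul, ← pow_succ, hrs]
    have hyf : τ ((r : Ω) ^ (2 ^ n)) = (r : Ω) ^ (2 ^ n) := by
      have h1 : (τ • r) ^ (2 ^ n) = r ^ (2 ^ n) := by
        have h3 : τ • r = kumU (2 ^ (n + 1)) (tt k Ω - g j) τ * r := by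
          unfold kumU
          rw [inv_mul_cancel_right]
        rw [h3, mul_pow, hcon, one_mul]
      have h4 := congrArg (fun u : Ωˣ => (u : Ω)) h1
      simp only [Units.val_pow_eq_pow_val] at h4
      rw [map_pow]
      exact h4
    -- the square roots
    have hex : ∀ i, ∃ y : Ω, y ^ 2 = tt k Ω - g i ∧ (i < f → τ y = y) := by
      intro i
      by_cases hij : i = j
      · subst hij
        exact ⟨_, hy2, fun _ => hyf⟩
      · obtain ⟨y, hy⟩ := exists_root (k := k) h2 (tt k Ω - g i)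
        refine ⟨y, hy, fun hi => ?_⟩
        exact sqrt_fix_iner hw2 hτ (locAd_unit (hg j) (hg i) (hinj i hi hij) hlt) (hfix i) hy
    choose y hy hyτ using hex
    have hY : (∏ i ∈ Finset.range f, y i) ^ 2 =
        algebraMap (RatFunc k) Ω (algebraMap k[X] (RatFunc k) P) := by
      rw [← eval_tOm, ← eval_map, hP, eval_prod, ← Finset.prod_pow]
      refine Finset.prod_congr rfl fun i _ => ?_
      rw [hy, eval_sub, eval_X, eval_C]
      rfl
    have hYτ : τ (∏ i ∈ Finset.range f, y i) = ∏ i ∈ Finset.range f, y i := by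
      rw [map_prod]
      exact Finset.prod_congr rfl fun i hi => hyτ i (Finset.mem_range.1 hi)
    have h5 := (chi_eq_zero_iff _ τ hY).2 hYτ
    rw [hchi] at h5
    exact one_ne_zero h5

theorem locData [Finite k] (h2 : (2 : k) ≠ 0) [IsSepClosure (RatFunc k) Ω] (e : ℕ) (α : Ω)
    (hα : IsCst k α) :
    ∃ (v : Place k (RatFunc k)) (j f : ℕ), v ≠ placeInfty k ∧
      LocDataU e (α ^ (Nat.card k ^ j)) f (dv Ω v) (ph Ω v) (sg Ω v) := by
  have hgal : IsGalois (RatFunc k) Ω := IsSepClosure.isGalois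
  have hsc : IsSepClosed Ω := IsSepClosure.sep_closed (RatFunc k)
  obtain ⟨p, s, hp, -, hO, hs, hq⟩ := locRoot_char k Ω
  have hpF : Fact p.Prime := ⟨hp⟩
  obtain ⟨f, P, hf0, hper, hmin, hP, hPd, hPm⟩ := locRoot_exists hα
  obtain ⟨β, hβ, hlt⟩ := exists_root_near (Om := Ω) hP
  set v : Place k (RatFunc k) := placeOf P hP with hv
  set g : ℕ → Ω := fun i => α ^ (Nat.card k ^ i) with hg
  have hgc : ∀ i, IsCst k (g i) := fun i => hα.powc _
  -- `β` is a conjugate of `α`
  have hβ' : ∃ j < f, β = g j := by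
    rw [← eval_map, hPm, eval_prod, Finset.prod_eq_zero_iff] at hβ
    obtain ⟨j, hj, hj'⟩ := hβ
    refine ⟨j, Finset.mem_range.1 hj, ?_⟩
    rw [eval_sub, eval_X, eval_C, sub_eq_zero] at hj'
    exact hj'
  obtain ⟨j, hj, hβj⟩ := hβ'
  have hltj : (ab Ω v).valuation (tt k Ω - g j) < 1 := by
    rw [← hβj]
    exact hlt
  have hcyc : ∀ a b : ℕ, a < b → b < f → g a ≠ g b := by
    intro a b hab hb h
    have h1 : g b = (g (b - a)) ^ (Nat.card k ^ a) := by
      change α ^ (Nat.card k ^ b) = (α ^ (Nat.card k ^ (b - a))) ^ (Nat.card k ^ a)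
      rw [← pow_mul, ← pow_add, Nat.sub_add_cancel hab.le]
    rw [h1] at h
    exact hmin (b - a) (by omega) (by omega) (locRoot_inj a h).symm
  have hinj : ∀ i < f, i ≠ j → g i ≠ g j := by
    intro i hi hij
    rcases lt_or_gt_of_ne hij with h | h
    · exact hcyc i j h hj
    · exact (hcyc j i h hi).symm
  have hw2 : (ab Ω v).valuation 2 = 1 := val_two h2 v
  have hfin : Finite (IsLocalRing.ResidueField (below (RatFunc k) (ab Ω v))) :=
    finite_residue_below v
  have hDH : dv Ω v ⊓ HH k Ω = iner (RatFunc k) (ab Ω v) := locAd_iner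
  have hτI : sg Ω v ∈ iner (RatFunc k) (ab Ω v) := sg_iner h2 v
  have hτH : sg Ω v ∈ HH k Ω := fun x hx => iner_cst hτI (hx.conv hs hq)
  have hπ := Pool.Agent.SmF.unif_placeOf hP
  have hchi : chi (RatFunc k) (algebraMap k[X] (RatFunc k) P) (sg Ω v) = 1 := chi_sg_irr h2 v hπ
  have hprim : IsPrimitiveRoot (kumU (2 ^ e) (tt k Ω - g j) (sg Ω v)) (2 ^ e) :=
    locAd_prim h2 e hw2 hτI hgc hinj hPm hj hltj hτH hchi
  refine ⟨v, j, f, ?_, ?_⟩
  · intro h
    apply X_not_mem_placeInfty k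
    rw [← h, hv]
    exact X_mem_placeOf P hP
  · refine
      { fpos := hf0
        cst := hgc j
        per := ?_
        mini := ?_
        F_mem := ph_mem v
        F_act := ?_
        τ_mem := sg_mem h2 v
        τ_H := hτH
        τ_ne := ?_
        τ_prim := hprim
        hom := ?_ }
    · rw [← pow_mul, mul_comm, pow_mul, hper]
    · intro i hi hif h
      refine hmin i hi hif (locRoot_inj (k := k) j ?_)
      rw [← pow_mul, mul_comm, pow_mul]
      exact h
    · intro x hx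
      have h7 : x ^ resCard (below (RatFunc k) (ab Ω v)) = x ^ (Nat.card k ^ f) := by
        rw [hv, locRoot_resCard hP, hPd]
      rw [← h7]
      exact (ph_frob (Om := Ω) v).cst (hx.conv hs hq)
    · intro b hb hne
      exact locAd_kum h2 e hw2 hτI (locAd_unit (hgc j) hb hne hltj) (tt_sub_fixed hτH hb)
    · intro ψ h1 h3 h4 h5
      rw [hDH] at h3 h4 ⊢
      exact homU h2 e (locHyp_ab h2 v hπ) (locAd_tt h2 (hgc j))
        (fun t ht => tt_sub_fixed (by
          rw [← hDH] at ht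
          exact ht.2) (hgc j)) hτI hprim ψ h1 h3 h4 h5

end Pool.Agent.SmithC
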