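import Pool.Agent.Lib.SM.C.HasseU
import Pool.Agent.Lib.SM.C.LocAd

set_option autoImplicit false

/-!
SMITH, block C: the Hasse principle over `k(t)` in final form. Local conditions are only imposed at
the finite places.
-/

namespace Pool.Agent.SmithC

open Pool.Agent.SmD Pool.Agent.Lib.SmD Pool.Agent.BSDFF

variable {k Ω : Type} [Field k] [Field Ω] [Algebra (RatFunc k) Ω]

/-- The Hasse principle for two-cocycles with values in `μ_M`, `M = 2^e`, without condition at the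
infinite place; local splittings with values in `Ω^*`. -/
theorem hasse_mu [Finite k] (h2 : (2 : k) ≠ 0) [IsSepClosure (RatFunc k) Ω] (e : ℕ)
    (c : GG k Ω → GG k Ω → Ωˣ) (hM : ∀ s t, c s t ^ (2 ^ e) = 1) (hc : TF2U c) (hcoc : CocU c)
    (loc : ∀ v : Place k (RatFunc k), v ≠ placeInfty k →
      ∃ β : GG k Ω → Ωˣ, LCOn (dv Ω v) β ∧ SplU (dv Ω v) c β) :
    ∃ b : GG k Ω → Ωˣ, (∀ s, b s ^ (2 ^ e) = 1) ∧
      (∃ N ∈ NN (RatFunc k) Ω, ∀ s, ∀ n ∈ N, b (s * n) = b s) ∧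
      ∀ s t, c s t = b s * s • b t * (b (s * t))⁻¹ := by
  apply hasseU h2 e c hM hc hcoc
  intro α hα
  obtain ⟨v, j, f, hv, L⟩ := locData h2 e α hα
  obtain ⟨β, h1, h3⟩ := loc v hv
  exact ⟨j, f, dv Ω v, ph Ω v, sg Ω v, β, L, h1, h3⟩

/-- `(-1)^a` as a unit of `Ω` -/
def sgnU (Ω : Type) [Field Ω] (a : ZMod 2) : Ωˣ := (-1) ^ a.val

theorem sgnU_add (a b : ZMod 2) : sgnU Ω (a + b) = sgnU Ω a * sgnU Ω b := by
  apply Units.ext
  unfold sgnU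
  rw [Units.val_mul, Units.val_pow_eq_pow_val, Units.val_pow_eq_pow_val, Units.val_pow_eq_pow_val,
    Units.val_neg, Units.val_one, ← pow_add, ZMod.val_add, ← neg_one_pow_eq_pow_mod_two]

theorem sgnU_sq (a : ZMod 2) : sgnU Ω a ^ 2 = 1 := by
  rw [pow_two, ← sgnU_add, CharTwo.add_self_eq_zero]
  unfold sgnU
  rw [ZMod.val_zero, pow_zero]

theorem sgnU_inv (a : ZMod 2) : (sgnU Ω a)⁻¹ = sgnU Ω a := by
  rw [inv_eq_iff_mul_eq_one, ← pow_two, sgnU_sq]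

theorem smul_sgnU (s : GG k Ω) (a : ZMod 2) : s • sgnU Ω a = sgnU Ω a := by
  apply Units.ext
  change s ((sgnU Ω a : Ωˣ) : Ω) = _
  unfold sgnU
  rw [Units.val_pow_eq_pow_val, Units.val_neg, Units.val_one, map_pow, map_neg, map_one]

theorem sgnU_inj (h2 : (2 : k) ≠ 0) {a b : ZMod 2} (h : sgnU Ω a = sgnU Ω b) : a = b := by
  have h1 := congrArg (fun u : Ωˣ => (u : Ω)) h
  unfold sgnU at h1
  simp only [Units.val_pow_eq_pow_val, Units.val_neg, Units.val_one] at h1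
  exact neg_one_pow_val_inj (two_ne h2) h1

theorem exists_sgnU (u : Ωˣ) (hu : u ^ 2 = 1) : ∃ a : ZMod 2, sgnU Ω a = u := by
  have h1 : (u : Ω) ^ 2 = 1 := by rw [← Units.val_pow_eq_pow_val, hu, Units.val_one]
  have h3 : (u : Ω) ^ 2 = 1 ^ 2 := by rw [h1, one_pow]
  rcases sq_eq_sq_iff_eq_or_eq_neg.1 h3 with h | h
  · exact ⟨0, Units.ext (by rw [h]; simp [sgnU])⟩
  · exact ⟨1, Units.ext (by rw [h]; simp [sgnU, ZMod.val_one])⟩

/-- The Hasse principle for two-cocycles with values in `ZMod 2`, without condition at the infinite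
place. -/
theorem hasse_fin [Finite k] (h2 : (2 : k) ≠ 0) [IsSepClosure (RatFunc k) Ω]
    (c : GG k Ω → GG k Ω → ZMod 2) (hc : TF2 c) (hcoc : IsCoc c)
    (loc : ∀ v : Place k (RatFunc k), v ≠ placeInfty k →
      ∃ b : GG k Ω → ZMod 2, LCOn (dv Ω v) b ∧ SplitOn (dv Ω v) c b) :
    ∃ b : GG k Ω → ZMod 2, (∃ N ∈ NN (RatFunc k) Ω, ∀ s, ∀ n ∈ N, b (s * n) = b s) ∧
      ∀ s t, c s t = b s + b t + b (s * t) := by
  classical
  obtain ⟨b, hbM, ⟨N, hN, hbN⟩, hb⟩ := hasse_mu h2 1 (fun s t => sgnU Ω (c s t))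
    (fun s t => by rw [pow_one]; exact sgnU_sq _)
    (by
      obtain ⟨N, hN, h⟩ := hc
      exact ⟨N, hN, fun s t n hn m hm => by
        change sgnU Ω (c (s * n) (t * m)) = sgnU Ω (c s t)
        rw [h s t n hn m hm]⟩)
    (by
      intro s t w
      change sgnU Ω (c s t) * sgnU Ω (c (s * t) w) = s • sgnU Ω (c t w) * sgnU Ω (c s (t * w))
      rw [smul_sgnU, ← sgnU_add, ← sgnU_add, hcoc s t w])
    (by
      intro v hv
      obtain ⟨b, hlc, hs⟩ := loc v hv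
      refine ⟨fun s => sgnU Ω (b s), hlc.comp (sgnU Ω), fun s hs1 t ht1 => ?_⟩
      change sgnU Ω (c s t) = sgnU Ω (b s) * s • sgnU Ω (b t) * (sgnU Ω (b (s * t)))⁻¹
      rw [smul_sgnU, sgnU_inv, ← sgnU_add, ← sgnU_add, hs s hs1 t ht1])
  have hex : ∀ s, ∃ a : ZMod 2, sgnU Ω a = b s := fun s => exists_sgnU (b s) (by
    have := hbM s
    rwa [pow_one] at this)
  choose a ha using hex
  refine ⟨a, ⟨N, hN, fun s n hn => ?_⟩, fun s t => ?_⟩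
  · apply sgnU_inj (Ω := Ω) h2
    rw [ha, ha, hbN s n hn]
  · apply sgnU_inj (Ω := Ω) h2
    rw [sgnU_add, sgnU_add, ha, ha, ha]
    have h1 := hb s t
    rw [← ha t, smul_sgnU, ha t, ← ha (s * t), sgnU_inv, ha (s * t)] at h1
    exact h1

/-- The field `hasse` of `Sys.Ok`, word for word. -/
theorem hasse [Finite k] (h2 : (2 : k) ≠ 0) [IsSepClosure (RatFunc k) Ω] :
    ∀ c : (Ω ≃ₐ[RatFunc k] Ω) → (Ω ≃ₐ[RatFunc k] Ω) → ZMod 2,
      (∃ N ∈ NN (RatFunc k) Ω, ∀ s t, ∀ n ∈ N, ∀ m ∈ N, c (s * n) (t * m) = c s t) →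
      (∀ s t w, c s t + c (s * t) w = c t w + c s (t * w)) →
      (∀ v : Place k (RatFunc k), ∃ b : (Ω ≃ₐ[RatFunc k] Ω) → ZMod 2,
        (∃ N ∈ NN (RatFunc k) Ω, ∀ s ∈ dv Ω v, ∀ n ∈ N, n ∈ dv Ω v → b (s * n) = b s) ∧
        ∀ s ∈ dv Ω v, ∀ t ∈ dv Ω v, c s t = b s + b t + b (s * t)) →
      ∃ b : (Ω ≃ₐ[RatFunc k] Ω) → ZMod 2,
        (∃ N ∈ NN (RatFunc k) Ω, ∀ s, ∀ n ∈ N, b (s * n) = b s) ∧
        ∀ s t, c s t = b s + b t + b (s * t) := by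
  intro c hc hcoc loc
  apply hasse_fin h2 c hc hcoc
  intro v _
  obtain ⟨b, ⟨N, hN, h⟩, hs⟩ := loc v
  exact ⟨b, ⟨N, NN.normal hN, NN.isOpen hN, h⟩, hs⟩

end Pool.Agent.SmithC
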