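import Pool.Agent.Lib.SM.C.Step2

/-!
# SMITH, block C, module TwoGroup

A finite 2-group `Γ` acting faithfully on a field `L` (`2 ≠ 0`) such that all conics over the fixed
fields of the subgroups have points: every two-cocycle of `Γ` in `L^*` splits.
-/

set_option autoImplicit false

namespace Pool.Agent.SmithC

open Finset

/-- the action on the units of a field -/
noncomputable def actU {Γ L : Type*} [Group Γ] [Field L] (ρ : Γ →* RingAut L) : Γ →* MulAut Lˣ where
  toFun g := Units.mapEquiv (ρ g).toMulEquiv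
  map_one' := by
    rw [map_one]
    ext x
    rfl
  map_mul' g h := by
    rw [map_mul]
    ext x
    rfl

theorem actU_val {Γ L : Type*} [Group Γ] [Field L] (ρ : Γ →* RingAut L) (g : Γ) (x : Lˣ) :
    ((actU ρ g x : Lˣ) : L) = ρ g (x : L) := rfl

theorem rho_mul {Γ L : Type*} [Group Γ] [Field L] (ρ : Γ →* RingAut L) (g h : Γ) (x : L) :
    ρ (g * h) x = ρ g (ρ h x) := by
  rw [map_mul]
  rfl

/-- all conics over the fixed fields have points -/
def ConicProp {Γ L : Type*} [Group Γ] [Field L] (ρ : Γ →* RingAut L) : Prop :=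
  ∀ (U : Subgroup Γ) (a b : L), (∀ g ∈ U, ρ g a = a) → (∀ g ∈ U, ρ g b = b) →
    ∃ x y z : L, ¬ (x = 0 ∧ y = 0 ∧ z = 0) ∧ (∀ g ∈ U, ρ g x = x) ∧ (∀ g ∈ U, ρ g y = y) ∧
      (∀ g ∈ U, ρ g z = z) ∧ x ^ 2 = a * y ^ 2 + b * z ^ 2

theorem exists_sum_ne {Γ L : Type*} [Group Γ] [Field L] (ρ : Γ →* RingAut L)
    (hρ : Function.Injective ρ) (s : Finset Γ) (z : Γ → L) (g0 : Γ) (hg0 : g0 ∈ s)
    (hz : z g0 ≠ 0) : ∃ c : L, ∑ g ∈ s, z g * ρ g c ≠ 0 := by
  by_contra h
  push Not at h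
  have hinj : Function.Injective
      (fun g : Γ => ((ρ g : L ≃+* L) : L →+* L).toMonoidHom) := by
    intro g g' hg
    apply hρ
    ext x
    exact DFunLike.congr_fun hg x
  have li := (linearIndependent_monoidHom L L).comp _ hinj
  rw [linearIndependent_iff'] at li
  refine hz (li s z (funext fun c => ?_) g0 hg0)
  have := h c
  rw [Finset.sum_apply]
  simpa using this

/-- Hilbert 90 -/
theorem h90 {Γ L : Type*} [Group Γ] [Finite Γ] [Field L] (ρ : Γ →* RingAut L)
    (hρ : Function.Injective ρ) (Γ1 : Subgroup Γ) (z : Γ → Lˣ)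
    (hz : ∀ g ∈ Γ1, ∀ h ∈ Γ1, z (g * h) = z g * actU ρ g (z h)) :
    ∃ y : Lˣ, ∀ g ∈ Γ1, z g = actU ρ g y * y⁻¹ := by
  classical
  have : Fintype Γ := Fintype.ofFinite _
  obtain ⟨c, hc⟩ := exists_sum_ne ρ hρ (univ.filter (· ∈ Γ1)) (fun g => (z g : L)) 1
    (by simp [Γ1.one_mem]) (z 1).ne_zero
  set b : L := ∑ g ∈ univ.filter (· ∈ Γ1), (z g : L) * ρ g c with hb
  have key : ∀ h ∈ Γ1, (z h : L) * ρ h b = b := by
    intro h hh
    rw [hb, map_sum, mul_sum]
    refine sum_nbij' (fun g => h * g) (fun g => h⁻¹ * g) ?_ ?_ ?_ ?_ ?_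
    · intro g hg
      simp only [mem_filter, mem_univ, true_and] at hg ⊢
      exact Γ1.mul_mem hh hg
    · intro g hg
      simp only [mem_filter, mem_univ, true_and] at hg ⊢
      exact Γ1.mul_mem (Γ1.inv_mem hh) hg
    · intro g _; simp
    · intro g _; simp
    · intro g hg
      simp only [mem_filter, mem_univ, true_and] at hg
      rw [hz h hh g hg, map_mul, rho_mul, Units.val_mul, actU_val]
      ring
  refine ⟨(Units.mk0 b hc)⁻¹, fun h hh => ?_⟩
  ext
  rw [inv_inv, Units.val_mul, actU_val, Units.val_inv_eq_inv_val, Units.val_mk0, map_inv₀,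
    ← key h hh]
  have h1 : ρ h b ≠ 0 := by
    intro h0
    exact hc ((map_eq_zero_iff (ρ h) (ρ h).injective).1 h0)
  have h3 : (ρ h) ((z h : L) * (ρ h) b) = ρ h b := by rw [key h hh]
  rw [h3]
  field_simp

/-- an element on which `Γ` acts through the sign of `Γ / Γ1` -/
theorem exists_theta {Γ L : Type*} [Group Γ] [Finite Γ] [Field L] (ρ : Γ →* RingAut L)
    (hρ : Function.Injective ρ) (Γ1 : Subgroup Γ) (hidx : Γ1.index = 2) (σ : Γ) (hσ : σ ∉ Γ1) :
    ∃ θ : L, θ ≠ 0 ∧ (∀ g ∈ Γ1, ρ g θ = θ) ∧ ρ σ θ = -θ := by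
  classical
  have : Fintype Γ := Fintype.ofFinite _
  obtain ⟨c, hc⟩ := exists_sum_ne ρ hρ univ (fun g => if g ∈ Γ1 then (1 : L) else -1) 1
    (mem_univ _) (by simp [Γ1.one_mem])
  refine ⟨_, hc, fun h hh => ?_, ?_⟩
  · rw [map_sum]
    refine sum_nbij' (fun g => h * g) (fun g => h⁻¹ * g) ?_ ?_ ?_ ?_ ?_
    · intro g _; exact mem_univ _
    · intro g _; exact mem_univ _
    · intro g _; simp
    · intro g _; simp
    · intro g _
      rw [map_mul, rho_mul]
      congr 1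
      by_cases hg : g ∈ Γ1
      · rw [if_pos hg, if_pos (Γ1.mul_mem hh hg), map_one]
      · rw [if_neg hg, if_neg (fun h1 => hg ((Subgroup.mul_mem_cancel_left Γ1 hh).1 h1)), map_neg,
          map_one]
  · rw [map_sum, ← sum_neg_distrib]
    refine sum_nbij' (fun g => σ * g) (fun g => σ⁻¹ * g) ?_ ?_ ?_ ?_ ?_
    · intro g _; exact mem_univ _
    · intro g _; exact mem_univ _
    · intro g _; simp
    · intro g _; simp
    · intro g _
      rw [map_mul, rho_mul, ← neg_mul]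
      congr 1
      have h1 := Subgroup.mul_mem_iff_of_index_two hidx (a := σ) (b := g)
      by_cases hg : g ∈ Γ1
      · rw [if_pos hg, if_neg (fun h3 => hσ ((h1.1 h3).2 hg)), map_one, neg_neg]
      · rw [if_neg hg, if_pos (h1.2 (iff_of_false hσ hg)), map_neg, map_one]

/-- norms: every element of the fixed field is a norm from a quadratic extension -/
theorem exists_norm {Γ L : Type*} [Group Γ] [Finite Γ] [Field L] (h2 : (2 : L) ≠ 0)
    (ρ : Γ →* RingAut L)
    (hρ : Function.Injective ρ) (hcon : ConicProp ρ) (Γ1 : Subgroup Γ) (hidx : Γ1.index = 2)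
    (σ : Γ) (hσ : σ ∉ Γ1) (a : Lˣ) (ha : ∀ g, actU ρ g a = a) :
    ∃ y : Lˣ, (∀ g ∈ Γ1, actU ρ g y = y) ∧ a = y * actU ρ σ y := by
  obtain ⟨θ, hθ0, hθ1, hθσ⟩ := exists_theta ρ hρ Γ1 hidx σ hσ
  have ha' : ∀ g, ρ g (a : L) = a := fun g => by
    rw [← actU_val, ha g]
  have hcase : ∀ g : Γ, ρ g θ = θ ∨ ρ g θ = -θ := by
    intro g
    by_cases hg : g ∈ Γ1
    · exact Or.inl (hθ1 g hg)
    · right
      have hσi : σ⁻¹ ∉ Γ1 := fun h => hσ (by simpa using Γ1.inv_mem h)
      have h3 : σ⁻¹ * g ∈ Γ1 :=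
        (Subgroup.mul_mem_iff_of_index_two hidx).mpr (iff_of_false hσi hg)
      have h4 : g = σ * (σ⁻¹ * g) := by group
      rw [h4, rho_mul, hθ1 _ h3, hθσ]
  obtain ⟨x, y, z, hne, hx, hy, hz, hxyz⟩ := hcon ⊤ (θ ^ 2) a
    (fun g _ => by
      rw [map_pow]
      rcases hcase g with h | h
      · rw [h]
      · rw [h, neg_sq]) (fun g _ => ha' g)
  have hzne : z ≠ 0 := by
    intro hz0
    have hy0 : y ≠ 0 := by
      intro hy0
      apply hne
      refine ⟨?_, hy0, hz0⟩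
      rw [hz0, hy0] at hxyz
      simpa using hxyz
    have h1 : θ ^ 2 = (x / y) ^ 2 := by
      rw [hz0] at hxyz
      field_simp
      rw [hxyz]
      ring
    have h3 : ρ σ (x / y) = x / y := by
      rw [map_div₀, hx σ trivial, hy σ trivial]
    rcases sq_eq_sq_iff_eq_or_eq_neg.1 h1 with h | h
    · rw [← h, hθσ] at h3
      have h4 : (2 : L) * θ = 0 := by linear_combination -h3
      rcases mul_eq_zero.1 h4 with h | h
      · exact h2 h
      · exact hθ0 h
    · have h5 : ρ σ θ = θ := by rw [h, map_neg, h3]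
      rw [hθσ] at h5
      have h4 : (2 : L) * θ = 0 := by linear_combination -h5
      rcases mul_eq_zero.1 h4 with h | h
      · exact h2 h
      · exact hθ0 h
  set X : L := x / z with hX
  set Y : L := y / z with hY
  have hXf : ∀ g, ρ g X = X := fun g => by rw [hX, map_div₀, hx g trivial, hz g trivial]
  have hYf : ∀ g, ρ g Y = Y := fun g => by rw [hY, map_div₀, hy g trivial, hz g trivial]
  have hprod : (a : L) = (X + θ * Y) * (X - θ * Y) := by
    have h1 : (a : L) * z ^ 2 = x ^ 2 - θ ^ 2 * y ^ 2 := by rw [hxyz]; ring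
    rw [hX, hY]
    field_simp
    linear_combination h1
  have hne1 : X + θ * Y ≠ 0 := by
    intro h0
    rw [h0, zero_mul] at hprod
    exact a.ne_zero hprod
  refine ⟨Units.mk0 _ hne1, fun g hg => ?_, ?_⟩
  · ext
    rw [actU_val, Units.val_mk0, map_add, map_mul, hXf, hYf, hθ1 g hg]
  · ext
    rw [Units.val_mul, actU_val, Units.val_mk0, map_add, map_mul, hXf, hYf, hθσ, hprod]
    ring

theorem twoGroup_aux {L : Type} [Field L] (h2 : (2 : L) ≠ 0) (n : ℕ) :
    ∀ (Γ : Type) [Group Γ] [Finite Γ] (ρ : Γ →* RingAut L), Nat.card Γ = 2 ^ n →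
      Function.Injective ρ → ConicProp ρ → ∀ f : Γ → Γ → Lˣ, IsTwoCoc (actU ρ) f →
      ∃ β : Γ → Lˣ, ∀ g h, f g h = β g * actU ρ g (β h) * (β (g * h))⁻¹ := by
  classical
  induction n with
  | zero =>
    intro Γ _ _ ρ hcard hρ hcon f hf
    rw [pow_zero] at hcard
    have hsub : Subsingleton Γ := (Nat.card_eq_one_iff_unique.1 hcard).1
    refine ⟨fun _ => f 1 1, fun g h => ?_⟩
    have hg : g = 1 := Subsingleton.elim _ _
    have hh : h = 1 := Subsingleton.elim _ _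
    subst hg
    subst hh
    rw [map_one, MulAut.one_apply]
    group
  | succ n ih =>
    intro Γ _ _ ρ hcard hρ hcon f hf
    have : Fact (Nat.Prime 2) := ⟨Nat.prime_two⟩
    obtain ⟨Γ1, hΓ1⟩ := Sylow.exists_subgroup_card_pow_prime (G := Γ) 2 (n := n)
      (by rw [hcard]; exact pow_dvd_pow 2 (Nat.le_succ n))
    have hidx : Γ1.index = 2 := by
      have h1 := Γ1.card_mul_index
      rw [hΓ1, hcard, pow_succ] at h1
      exact Nat.eq_of_mul_eq_mul_left (by positivity) h1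
    obtain ⟨β1, hβ1⟩ := ih Γ1 (ρ.comp Γ1.subtype) hΓ1 (hρ.comp Γ1.subtype_injective)
      (by
        intro U a b ha hb
        obtain ⟨x, y, z, hne, hx, hy, hz, h⟩ := hcon (U.map Γ1.subtype) a b
          (by rintro _ ⟨g, hg, rfl⟩; exact ha g hg) (by rintro _ ⟨g, hg, rfl⟩; exact hb g hg)
        exact ⟨x, y, z, hne, fun g hg => hx _ ⟨g, hg, rfl⟩, fun g hg => hy _ ⟨g, hg, rfl⟩,
          fun g hg => hz _ ⟨g, hg, rfl⟩, h⟩)
      (fun g h => f g h) (fun g h j => hf g h j)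
    obtain ⟨σ, hσ⟩ : ∃ σ, σ ∉ Γ1 := by
      by_contra hcon
      push Not at hcon
      have : Γ1 = ⊤ := by
        ext x
        simp [hcon x]
      rw [this, Subgroup.index_top] at hidx
      omega
    refine step2 (actU ρ) f hf Γ1 hidx (fun g => if hg : g ∈ Γ1 then β1 ⟨g, hg⟩ else 1) ?_
      (h90 ρ hρ Γ1) σ hσ ?_
    · intro g hg h hh
      rw [dif_pos hg, dif_pos hh, dif_pos (Γ1.mul_mem hg hh)]
      exact hβ1 ⟨g, hg⟩ ⟨h, hh⟩
    · intro a ha
      exact exists_norm h2 ρ hρ hcon Γ1 hidx σ hσ a ha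

/-- A finite 2-group acting faithfully on a field with the conic property: two-cocycles split. -/
theorem twoGroup {L Γ : Type} [Field L] (h2 : (2 : L) ≠ 0) [Group Γ] [Finite Γ]
    (ρ : Γ →* RingAut L) (n : ℕ) (hcard : Nat.card Γ = 2 ^ n)
    (hρ : Function.Injective ρ) (hcon : ConicProp ρ) (f : Γ → Γ → Lˣ) (hf : IsTwoCoc (actU ρ) f) :
    ∃ β : Γ → Lˣ, ∀ g h, f g h = β g * actU ρ g (β h) * (β (g * h))⁻¹ :=
  twoGroup_aux h2 n Γ ρ hcard hρ hcon f hf

end Pool.Agent.SmithC
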