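import Pool.Agent.Lib.SM.C.Level
import Pool.Agent.Lib.SM.C.TwoGroup
import Pool.Agent.Lib.SM.C.KumStep

/-!
# SMITH, block C, module TsenU: a 2-finite two-cocycle of `G` with values in `μ_M` (`M = 2^e`)
splits, with values in `μ_M`, over the subgroup `HH` fixing the constants.
-/

set_option autoImplicit false

namespace Pool.Agent.SmithC

open Polynomial Pool.Agent.SmD

variable {k Ω : Type} [Field k] [Field Ω] [Algebra (RatFunc k) Ω]

/-- roots of unity are constants -/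
theorem isCst_of_pow_eq_one [Finite k] (n : ℕ) (hn : 0 < n) (x : Ω) (hx : x ^ n = 1) :
    IsCst k x := by
  rw [isCst_iff]
  letI : Algebra k Ω := algk k Ω
  refine ⟨X ^ n - 1, ?_, ?_⟩
  · have h1 : (X ^ n - 1 : k[X]) = X ^ n - C 1 := by rw [map_one]
    rw [h1]
    exact X_pow_sub_C_ne_zero hn 1
  · simp [hx]

/-- PIECE 1 of block C. -/
theorem tsenU [Finite k] (h2 : (2 : k) ≠ 0) [IsSepClosure (RatFunc k) Ω] (e : ℕ)
    (c : GG k Ω → GG k Ω → Ωˣ) (hM : ∀ s t, c s t ^ (2 ^ e) = 1) (hc : TF2U c) (hcoc : CocU c) :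
    ∃ b : GG k Ω → Ωˣ, (∀ s, b s ^ (2 ^ e) = 1) ∧ LCOn (HH k Ω) b ∧ SplU (HH k Ω) c b := by
  classical
  obtain ⟨N, hN, hcN⟩ := hc
  obtain ⟨κ, hκ, hcl, ht, hk⟩ := exists_cstField (Ω := Ω) h2
  obtain ⟨j, ψ, hjC, -, hj, hψ⟩ := exists_alg κ hκ hk ht
  obtain ⟨L, hL1, hL2, hL3, hL4, hL5⟩ := exists_level κ j ψ hj hψ N hN
  have hnorm : N.Normal := NN.normal hN
  have h2Ω : (2 : Ω) ≠ 0 := kum_two h2
  have h2L : (2 : L) ≠ 0 := fun h => h2Ω (congrArg Subtype.val h)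
  -- the values of `c` are constants
  have hcst : ∀ s t, IsCst k ((c s t : Ωˣ) : Ω) := fun s t =>
    isCst_of_pow_eq_one (2 ^ e) (by positivity) _ (by
      rw [← Units.val_pow_eq_pow_val, hM, Units.val_one])
  have hcL : ∀ s t, ((c s t : Ωˣ) : Ω) ∈ L := by
    intro s t
    have h1 := hL4 (RatFunc.C (⟨((c s t : Ωˣ) : Ω), (hκ _).2 (hcst s t)⟩ : κ))
    rw [hjC] at h1
    exact h1
  have hcne : ∀ s t, (⟨((c s t : Ωˣ) : Ω), hcL s t⟩ : L) ≠ 0 := by
    intro s t h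
    exact (c s t).ne_zero (congrArg Subtype.val h)
  -- the action on `L`
  let Φ : HH k Ω →* RingAut L :=
    { toFun := fun h =>
        { toFun := fun x => ⟨h.1 x, hL1 h h.2 x x.2⟩
          invFun := fun x => ⟨(h⁻¹).1 x, hL1 _ (h⁻¹).2 x x.2⟩
          left_inv := fun x => by
            apply Subtype.ext
            change (h.1)⁻¹ (h.1 x) = x
            rw [← AlgEquiv.mul_apply, inv_mul_cancel, AlgEquiv.one_apply]
          right_inv := fun x => by
            apply Subtype.ext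
            change h.1 ((h.1)⁻¹ x) = x
            rw [← AlgEquiv.mul_apply, mul_inv_cancel, AlgEquiv.one_apply]
          map_mul' := fun x y => Subtype.ext (map_mul h.1 (x : Ω) y)
          map_add' := fun x y => Subtype.ext (map_add h.1 (x : Ω) y) }
      map_one' := by
        ext x
        rfl
      map_mul' := fun g h => by
        ext x
        rfl }
  set N0 : Subgroup (HH k Ω) := N.subgroupOf (HH k Ω) with hN0
  have hN0n : N0.Normal := by rw [hN0]; infer_instance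
  have hN0f : N0.FiniteIndex := by
    have := NN.finiteIndex hN
    rw [hN0]
    infer_instance
  let ρ : (HH k Ω ⧸ N0) →* RingAut L := QuotientGroup.lift N0 Φ (fun n hn => by
    ext x
    exact hL2 n.1 (Subgroup.mem_subgroupOf.1 hn) n.2 x x.2)
  have hρ : ∀ (h : HH k Ω) (x : L), ((ρ (QuotientGroup.mk h) x : L) : Ω) = h.1 x :=
    fun _ _ => rfl
  have hρinj : Function.Injective ρ := by
    rw [injective_iff_map_eq_one]
    intro g hg
    obtain ⟨h, rfl⟩ := QuotientGroup.mk_surjective g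
    rw [QuotientGroup.eq_one_iff]
    apply Subgroup.mem_subgroupOf.2
    apply hL3
    intro x hx
    have h1 := hρ h ⟨x, hx⟩
    rw [hg] at h1
    exact h1.symm
  have : Fact (Nat.Prime 2) := ⟨Nat.prime_two⟩
  obtain ⟨n, hcard⟩ : ∃ n : ℕ, Nat.card (HH k Ω ⧸ N0) = 2 ^ n := by
    apply IsPGroup.iff_card.mp
    intro g
    obtain ⟨h, rfl⟩ := QuotientGroup.mk_surjective g
    obtain ⟨r, hr⟩ := hN.2.2
    refine ⟨r, ?_⟩
    rw [← QuotientGroup.mk_pow, QuotientGroup.eq_one_iff]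
    apply Subgroup.mem_subgroupOf.2
    rw [← hr]
    exact N.pow_index_mem h.1
  have hcon : ConicProp ρ := by
    intro U a b ha hb
    let F : Subfield Ω :=
      { carrier := {x | x ∈ L ∧ ∀ h : HH k Ω, (QuotientGroup.mk h : HH k Ω ⧸ N0) ∈ U → h.1 x = x}
        mul_mem' := by
          rintro x y ⟨hx, hx'⟩ ⟨hy, hy'⟩
          exact ⟨L.mul_mem hx hy, fun h hh => by rw [map_mul, hx' h hh, hy' h hh]⟩
        one_mem' := ⟨L.one_mem, fun h _ => map_one h.1⟩
        add_mem' := by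
          rintro x y ⟨hx, hx'⟩ ⟨hy, hy'⟩
          exact ⟨L.add_mem hx hy, fun h hh => by rw [map_add, hx' h hh, hy' h hh]⟩
        zero_mem' := ⟨L.zero_mem, fun h _ => map_zero h.1⟩
        neg_mem' := by
          rintro x ⟨hx, hx'⟩
          exact ⟨L.neg_mem hx, fun h hh => by rw [map_neg, hx' h hh]⟩
        inv_mem' := by
          rintro x ⟨hx, hx'⟩
          exact ⟨L.inv_mem hx, fun h hh => by rw [map_inv₀, hx' h hh]⟩ }
    have hfix : ∀ x : L, (∀ g ∈ U, ρ g x = x) → (x : Ω) ∈ F := by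
      intro x hx
      refine ⟨x.2, fun h hh => ?_⟩
      rw [← hρ h x, hx _ hh]
    have hfix' : ∀ (x : Ω) (hx : x ∈ F) (g : HH k Ω ⧸ N0), g ∈ U →
        ρ g (⟨x, hx.1⟩ : L) = ⟨x, hx.1⟩ := by
      intro x hx g hg
      obtain ⟨h, rfl⟩ := QuotientGroup.mk_surjective g
      apply Subtype.ext
      rw [hρ]
      exact hx.2 h hg
    obtain ⟨x, hx, y, hy, z, hz, hne, hxyz⟩ := hL5 F (fun x hx => hx.1)
      (fun x => ⟨hL4 x, fun h _ => hj h.1 h.2 x⟩) a (hfix a ha) b (hfix b hb)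
    refine ⟨⟨x, hx.1⟩, ⟨y, hy.1⟩, ⟨z, hz.1⟩, ?_, hfix' x hx, hfix' y hy, hfix' z hz, ?_⟩
    · rintro ⟨h1, h3, h4⟩
      exact hne ⟨congrArg Subtype.val h1, congrArg Subtype.val h3, congrArg Subtype.val h4⟩
    · exact Subtype.ext hxyz
  -- the cocycle on the quotient
  let cL : GG k Ω → GG k Ω → Lˣ := fun s t => Units.mk0 ⟨((c s t : Ωˣ) : Ω), hcL s t⟩ (hcne s t)
  have hcLv : ∀ s t, ((cL s t : L) : Ω) = ((c s t : Ωˣ) : Ω) := fun _ _ => rfl
  let f : (HH k Ω ⧸ N0) → (HH k Ω ⧸ N0) → Lˣ := fun g h => cL g.out.1 h.out.1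
  have hout : ∀ h : HH k Ω, ∃ m ∈ N, ((QuotientGroup.mk h : HH k Ω ⧸ N0).out).1 = h.1 * m := by
    intro h
    obtain ⟨m, hm⟩ := QuotientGroup.mk_out_eq_mul N0 h
    refine ⟨m.1.1, Subgroup.mem_subgroupOf.1 m.2, ?_⟩
    rw [hm]
    rfl
  have hf : ∀ g h : HH k Ω, f (QuotientGroup.mk g) (QuotientGroup.mk h) = cL g.1 h.1 := by
    intro g h
    obtain ⟨m, hm, hm'⟩ := hout g
    obtain ⟨m', hm1, hm1'⟩ := hout h
    apply Units.ext
    apply Subtype.ext
    simp only [f]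
    rw [hm', hm1', hcLv, hcLv, hcN _ _ m hm m' hm1]
  have hact : ∀ (g : HH k Ω ⧸ N0) (s t : GG k Ω), actU ρ g (cL s t) = cL s t := by
    intro g s t
    obtain ⟨h, rfl⟩ := QuotientGroup.mk_surjective g
    apply Units.ext
    apply Subtype.ext
    rw [actU_val, hρ, hcLv]
    exact mem_HH.1 h.2 _ (hcst s t)
  have hcocf : IsTwoCoc (actU ρ) f := by
    intro g h l
    obtain ⟨g, rfl⟩ := QuotientGroup.mk_surjective g
    obtain ⟨h, rfl⟩ := QuotientGroup.mk_surjective h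
    obtain ⟨l, rfl⟩ := QuotientGroup.mk_surjective l
    rw [← QuotientGroup.mk_mul, ← QuotientGroup.mk_mul, hf, hf, hf, hf, hact]
    apply Units.ext
    apply Subtype.ext
    rw [Units.val_mul, Units.val_mul, Subfield.coe_mul, Subfield.coe_mul, hcLv, hcLv, hcLv, hcLv]
    have h1 := congrArg (fun x : Ωˣ => (x : Ω)) (hcoc g.1 h.1 l.1)
    simp only [Units.val_mul] at h1
    have h6 : ((g.1 • c h.1 l.1 : Ωˣ) : Ω) = ((c h.1 l.1 : Ωˣ) : Ω) :=
      mem_HH.1 g.2 _ (hcst h.1 l.1)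
    rw [h6] at h1
    exact h1
  obtain ⟨β, hβ⟩ := twoGroup h2L ρ n hcard hρinj hcon f hcocf
  -- `β` as a cochain with values in `Ω^*`
  let ι : Lˣ →* Ωˣ := Units.map (L.subtype : L →* Ω)
  have hι : ∀ x : Lˣ, ((ι x : Ωˣ) : Ω) = ((x : L) : Ω) := fun _ => rfl
  let β' : GG k Ω → Ωˣ := fun s => if hs : s ∈ HH k Ω then
    ι (β (QuotientGroup.mk (⟨s, hs⟩ : HH k Ω))) else 1
  have hβ' : ∀ (s : GG k Ω) (hs : s ∈ HH k Ω),
      β' s = ι (β (QuotientGroup.mk (⟨s, hs⟩ : HH k Ω))) := by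
    intro s hs
    simp only [β']
    rw [dif_pos hs]
  refine kumStep h2 e (HH k Ω) c hM β' ⟨N, hnorm, NN.isOpen hN, ?_⟩ ?_
  · intro s hs m hm hmH
    rw [hβ' s hs, hβ' (s * m) ((HH k Ω).mul_mem hs hmH)]
    congr 2
    rw [QuotientGroup.eq]
    apply Subgroup.mem_subgroupOf.2
    change (s * m)⁻¹ * s ∈ N
    have h1 : (s * m)⁻¹ * s = m⁻¹ := by group
    rw [h1]
    exact N.inv_mem hm
  · intro s hs t ht
    rw [hβ' s hs, hβ' t ht, hβ' (s * t) ((HH k Ω).mul_mem hs ht)]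
    have h1 := hβ (QuotientGroup.mk (⟨s, hs⟩ : HH k Ω)) (QuotientGroup.mk (⟨t, ht⟩ : HH k Ω))
    rw [hf] at h1
    have h3 := congrArg ι h1
    rw [map_mul, map_mul, map_inv] at h3
    have h4 : ι (cL s t) = c s t := by
      apply Units.ext
      rfl
    have h5 : ι (actU ρ (QuotientGroup.mk (⟨s, hs⟩ : HH k Ω))
        (β (QuotientGroup.mk (⟨t, ht⟩ : HH k Ω))))
        = s • ι (β (QuotientGroup.mk (⟨t, ht⟩ : HH k Ω))) := by
      apply Units.ext
      rfl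
    rw [h5] at h3
    exact h4.symm.trans h3

end Pool.Agent.SmithC
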