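import Pool.Agent.Lib.RD.Krull

/-!
# SMITH, block C, module Conic (Tsen)

Over a finite extension `F` of `κ(t)`, `κ` algebraically closed, every conic
`x^2 = a y^2 + b z^2` has a point.
-/

set_option autoImplicit false

namespace Pool.Agent.SmithC

open Polynomial

/-- counting argument: quadratic forms in more variables than equations -/
theorem tsen_count {κ A P R : Type} [Field κ] [IsAlgClosed κ] [CommRing A] [Algebra κ A]
    [Fintype P] [Fintype R] (w : P → A) (hw : LinearIndependent κ w) (u : R → A)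
    (hcard : Fintype.card R < 3 * Fintype.card P) (a b : A)
    (h1 : ∀ p q, w p * w q ∈ Submodule.span κ (Set.range u))
    (ha : ∀ p q, a * (w p * w q) ∈ Submodule.span κ (Set.range u))
    (hb : ∀ p q, b * (w p * w q) ∈ Submodule.span κ (Set.range u)) :
    ∃ x y z : A, ¬ (x = 0 ∧ y = 0 ∧ z = 0) ∧ x ^ 2 = a * y ^ 2 + b * z ^ 2 := by
  classical
  simp only [Submodule.mem_span_range_iff_exists_fun] at h1 ha hb
  choose γ1 hγ1 using h1
  choose γa hγa using ha
  choose γb hγb using hb
  -- coefficients of the quadratic forms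
  let Γ : R → Fin 3 × P → Fin 3 × P → κ := fun r i j =>
    if i.1 = 0 ∧ j.1 = 0 then γ1 i.2 j.2 r else
    if i.1 = 1 ∧ j.1 = 1 then - γa i.2 j.2 r else
    if i.1 = 2 ∧ j.1 = 2 then - γb i.2 j.2 r else 0
  set s := Fintype.card R with hs
  obtain ⟨e⟩ : Nonempty (Fin (s + 1) ↪ Fin 3 × P) := by
    rw [Function.Embedding.nonempty_iff_card_le, Fintype.card_fin, Fintype.card_prod,
      Fintype.card_fin]
    omega
  let eR : R ≃ Fin s := Fintype.equivFin R
  let g : Fin s → MvPolynomial (Fin (s + 1)) κ := fun r =>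
    ∑ p : Fin (s + 1), ∑ q : Fin (s + 1),
      MvPolynomial.C (Γ (eR.symm r) (e p) (e q)) * (MvPolynomial.X p * MvPolynomial.X q)
  obtain ⟨v, hv0, hv⟩ := Pool.Agent.RD.exists_common_zero g (fun _ => 2) (fun _ => by norm_num) (by
    intro r
    refine MvPolynomial.IsHomogeneous.sum _ _ _ fun p _ =>
      MvPolynomial.IsHomogeneous.sum _ _ _ fun q _ => ?_
    have h3 := (MvPolynomial.isHomogeneous_C (Fin (s + 1)) (Γ (eR.symm r) (e p) (e q))).mul
      ((MvPolynomial.isHomogeneous_X κ p).mul (MvPolynomial.isHomogeneous_X κ q))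
    simpa using h3)
  -- the vector with zero coordinates outside of `e`
  let ξ : Fin 3 × P → κ := Function.extend e v (fun _ => (0 : κ))
  have hξe : ∀ p, ξ (e p) = v p := fun p => e.injective.extend_apply v _ p
  have hξ0 : ∀ i, i ∉ Set.range e → ξ i = 0 := fun i hi => Function.extend_apply' v _ i hi
  have hsumξ : ∀ f : Fin 3 × P → A, ∑ i, ξ i • f i = ∑ p, v p • f (e p) := by
    intro f
    rw [← Finset.sum_subset (s₁ := Finset.univ.map e) (Finset.subset_univ _)]
    · rw [Finset.sum_map]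
      exact Finset.sum_congr rfl fun p _ => by rw [hξe]
    · intro i _ hi
      rw [hξ0 i (fun ⟨p, hp⟩ => hi (by simp [← hp])), zero_smul]
  let X : Fin 3 → A := fun c => ∑ p : P, ξ (c, p) • w p
  have hzero : ∑ i : Fin 3 × P, ∑ j : Fin 3 × P, (ξ i * ξ j) • (∑ r, Γ r i j • u r) = 0 := by
    have e1 : ∀ i : Fin 3 × P, ∑ j : Fin 3 × P, (ξ i * ξ j) • (∑ r, Γ r i j • u r)
        = ξ i • ∑ q, v q • (∑ r, Γ r i (e q) • u r) := by
      intro i
      rw [← hsumξ (fun j => ∑ r, Γ r i j • u r), Finset.smul_sum]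
      exact Finset.sum_congr rfl fun j _ => by rw [mul_smul]
    rw [Finset.sum_congr rfl fun i _ => e1 i,
      hsumξ (fun i => ∑ q, v q • (∑ r, Γ r i (e q) • u r))]
    have e2 : ∑ p, v p • ∑ q, v q • (∑ r, Γ r (e p) (e q) • u r)
        = ∑ r, (∑ p, ∑ q, Γ r (e p) (e q) * (v p * v q)) • u r := by
      simp only [Finset.smul_sum, Finset.sum_smul, smul_smul]
      rw [Finset.sum_congr rfl fun p _ => Finset.sum_comm, Finset.sum_comm]
      refine Finset.sum_congr rfl fun r _ => Finset.sum_congr rfl fun p _ =>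
        Finset.sum_congr rfl fun q _ => ?_
      congr 1
      ring
    rw [e2]
    refine Finset.sum_eq_zero fun r _ => ?_
    have h4 := hv (eR r)
    simp only [g, map_sum, map_mul, MvPolynomial.eval_C, MvPolynomial.eval_X,
      Equiv.symm_apply_apply] at h4
    rw [h4, zero_smul]
  refine ⟨X 0, X 1, X 2, ?_, ?_⟩
  · rintro ⟨h0, h3, h4⟩
    apply hv0
    have hX : ∀ c, X c = 0 := by
      intro c
      fin_cases c
      · exact h0
      · exact h3
      · exact h4
    funext p
    rw [← hξe p]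
    have h5 := Fintype.linearIndependent_iff.1 hw (fun q => ξ ((e p).1, q)) (hX (e p).1) (e p).2
    exact h5
  · have hQ : ∀ c, X c ^ 2 = ∑ p, ∑ q, (ξ (c, p) * ξ (c, q)) • (w p * w q) := by
      intro c
      rw [sq]
      simp only [X, Finset.sum_mul_sum]
      refine Finset.sum_congr rfl fun p _ => Finset.sum_congr rfl fun q _ => ?_
      rw [smul_mul_smul_comm]
    rw [Fintype.sum_prod_type] at hzero
    simp only [Fin.sum_univ_three] at hzero
    have hG : ∀ (c : Fin 3) (p : P), ∑ j : Fin 3 × P, (ξ (c, p) * ξ j) • (∑ r, Γ r (c, p) j • u r)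
        = ∑ q, (ξ (c, p) * ξ (c, q)) • (∑ r, Γ r (c, p) (c, q) • u r) := by
      intro c p
      rw [Fintype.sum_prod_type]
      refine (Finset.sum_eq_single c ?_ ?_)
      · intro d _ hd
        refine Finset.sum_eq_zero fun q _ => ?_
        have : ∀ r, Γ r (c, p) (d, q) = 0 := by
          intro r
          simp only [Γ]
          rw [if_neg (fun h => hd (h.2.trans h.1.symm)), if_neg (fun h => hd (h.2.trans h.1.symm)),
            if_neg (fun h => hd (h.2.trans h.1.symm))]
        simp [this]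
      · intro h
        exact absurd (Finset.mem_univ c) h
    simp only [hG] at hzero
    have hA : ∀ p q, ∑ r, Γ r (0, p) (0, q) • u r = w p * w q := by
      intro p q
      rw [← hγ1 p q]
      rfl
    have hB : ∀ p q, ∑ r, Γ r (1, p) (1, q) • u r = - (a * (w p * w q)) := by
      intro p q
      rw [← hγa p q, ← Finset.sum_neg_distrib]
      refine Finset.sum_congr rfl fun r _ => ?_
      simp [Γ]
    have hC : ∀ p q, ∑ r, Γ r (2, p) (2, q) • u r = - (b * (w p * w q)) := by
      intro p q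
      rw [← hγb p q, ← Finset.sum_neg_distrib]
      refine Finset.sum_congr rfl fun r _ => ?_
      simp [Γ]
    simp only [hA, hB, hC, smul_neg, Finset.sum_neg_distrib, ← hQ] at hzero
    have hD : ∀ (c : Fin 3) (d : A), ∑ p, ∑ q, (ξ (c, p) * ξ (c, q)) • (d * (w p * w q))
        = d * X c ^ 2 := by
      intro c d
      rw [hQ, Finset.mul_sum]
      refine Finset.sum_congr rfl fun p _ => ?_
      rw [Finset.mul_sum]
      refine Finset.sum_congr rfl fun q _ => ?_
      rw [mul_smul_comm]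
    rw [hD, hD] at hzero
    linear_combination hzero

/-- Tsen for conics: over a finite extension of `κ(t)`, `κ` algebraically closed. -/
theorem conic {κ F : Type} [Field κ] [IsAlgClosed κ] [Field F] [Algebra (RatFunc κ) F]
    [FiniteDimensional (RatFunc κ) F] (a b : F) :
    ∃ x y z : F, ¬ (x = 0 ∧ y = 0 ∧ z = 0) ∧ x ^ 2 = a * y ^ 2 + b * z ^ 2 := by
  classical
  letI : Algebra κ F := ((algebraMap (RatFunc κ) F).comp (algebraMap κ (RatFunc κ))).toAlgebra
  have : IsScalarTower κ (RatFunc κ) F := IsScalarTower.of_algebraMap_eq fun _ => rfl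
  set e := Module.finrank (RatFunc κ) F with he
  have hepos : 0 < e := Module.finrank_pos
  let ω : Module.Basis (Fin e) (RatFunc κ) F := Module.finBasis (RatFunc κ) F
  let cc : Fin 3 → F := ![1, a, b]
  obtain ⟨d, hd⟩ := IsLocalization.exist_integer_multiples_of_finite (nonZeroDivisors κ[X])
    (fun i : Fin 3 × Fin e × Fin e × Fin e =>
      (ω.repr (cc i.1 * (ω i.2.1 * ω i.2.2.1)) i.2.2.2 : RatFunc κ))
  choose f hf using hd
  set D := Finset.univ.sup fun i => (f i).natDegree with hD
  have hdeg : ∀ i, (f i).natDegree ≤ D := fun i =>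
    Finset.le_sup (f := fun i => (f i).natDegree) (Finset.mem_univ i)
  have hd0 : (algebraMap κ[X] (RatFunc κ) d) ≠ 0 := by
    rw [Ne, map_eq_zero_iff _ (RatFunc.algebraMap_injective κ)]
    exact nonZeroDivisors.coe_ne_zero d
  have hli0 : LinearIndependent κ (fun j : Fin (D + 1) => (RatFunc.X : RatFunc κ) ^ (j : ℕ)) := by
    have h1 : LinearIndependent κ (fun n : ℕ => (X : κ[X]) ^ n) := by
      have := (Polynomial.basisMonomials κ).linearIndependent
      simpa [Polynomial.coe_basisMonomials, ← Polynomial.X_pow_eq_monomial] using this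
    have h3 := h1.map' ((IsScalarTower.toAlgHom κ κ[X] (RatFunc κ)).toLinearMap)
      (LinearMap.ker_eq_bot.2 (RatFunc.algebraMap_injective κ))
    have h4 := h3.comp (fun j : Fin (D + 1) => (j : ℕ)) Fin.val_injective
    have h5 : (fun j : Fin (D + 1) => (RatFunc.X : RatFunc κ) ^ (j : ℕ))
        = ((IsScalarTower.toAlgHom κ κ[X] (RatFunc κ)).toLinearMap ∘ (fun n : ℕ => (X : κ[X]) ^ n))
          ∘ (fun j : Fin (D + 1) => (j : ℕ)) := by
      funext j
      simp [RatFunc.algebraMap_X]
    rw [h5]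
    exact h4
  have hli : LinearIndependent κ (fun p : Fin (D + 1) × Fin e =>
      ((RatFunc.X : RatFunc κ) ^ (p.1 : ℕ)) • ω p.2) :=
    linearIndependent_smul hli0 ω.linearIndependent
  let u : Fin (3 * D + 1) × Fin e → F := fun r =>
    (((RatFunc.X : RatFunc κ) ^ (r.1 : ℕ)) / (algebraMap κ[X] (RatFunc κ) d)) • ω r.2
  have hspan : ∀ (g : κ[X]) (l : Fin e), g.natDegree < 3 * D + 1 →
      ((algebraMap κ[X] (RatFunc κ) g) / (algebraMap κ[X] (RatFunc κ) d)) • ω l
        ∈ Submodule.span κ (Set.range u) := by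
    intro g l hg
    rw [g.as_sum_range' _ hg, map_sum, Finset.sum_div, Finset.sum_smul]
    refine Submodule.sum_mem _ fun n hn => ?_
    have h6 : ((algebraMap κ[X] (RatFunc κ) (monomial n (g.coeff n)))
          / (algebraMap κ[X] (RatFunc κ) d)) • ω l
        = g.coeff n • u (⟨n, Finset.mem_range.1 hn⟩, l) := by
      rw [← C_mul_X_pow_eq_monomial, map_mul, map_pow, RatFunc.algebraMap_X,
        RatFunc.algebraMap_C, ← algebraMap_smul (RatFunc κ) (g.coeff n)]
      simp only [u]
      rw [smul_smul, RatFunc.algebraMap_eq_C, mul_div_assoc]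
    rw [h6]
    exact Submodule.smul_mem _ _ (Submodule.subset_span ⟨_, rfl⟩)
  have hprod : ∀ (c : Fin 3) (p q : Fin (D + 1) × Fin e),
      cc c * ((((RatFunc.X : RatFunc κ) ^ (p.1 : ℕ)) • ω p.2)
        * (((RatFunc.X : RatFunc κ) ^ (q.1 : ℕ)) • ω q.2)) ∈ Submodule.span κ (Set.range u) := by
    intro c p q
    have h7 : cc c * ((((RatFunc.X : RatFunc κ) ^ (p.1 : ℕ)) • ω p.2)
        * (((RatFunc.X : RatFunc κ) ^ (q.1 : ℕ)) • ω q.2))
        = ((RatFunc.X : RatFunc κ) ^ ((p.1 : ℕ) + (q.1 : ℕ))) • (cc c * (ω p.2 * ω q.2)) := by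
      rw [smul_mul_smul_comm, mul_smul_comm, ← pow_add]
    rw [h7, ← ω.sum_repr (cc c * (ω p.2 * ω q.2)), Finset.smul_sum]
    refine Submodule.sum_mem _ fun l _ => ?_
    have h8 : (ω.repr (cc c * (ω p.2 * ω q.2)) l : RatFunc κ)
        = (algebraMap κ[X] (RatFunc κ) (f (c, p.2, q.2, l))) / (algebraMap κ[X] (RatFunc κ) d) := by
      rw [eq_div_iff hd0, hf (c, p.2, q.2, l), Algebra.smul_def, mul_comm]
    rw [h8, smul_smul, ← mul_div_assoc]
    have h9 : (RatFunc.X : RatFunc κ) ^ ((p.1 : ℕ) + (q.1 : ℕ))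
          * algebraMap κ[X] (RatFunc κ) (f (c, p.2, q.2, l))
        = algebraMap κ[X] (RatFunc κ) (X ^ ((p.1 : ℕ) + (q.1 : ℕ)) * f (c, p.2, q.2, l)) := by
      rw [map_mul, map_pow, RatFunc.algebraMap_X]
    rw [h9]
    apply hspan
    have h10 := natDegree_mul_le (p := (X : κ[X]) ^ ((p.1 : ℕ) + (q.1 : ℕ)))
      (q := f (c, p.2, q.2, l))
    rw [natDegree_X_pow] at h10
    have h11 := hdeg (c, p.2, q.2, l)
    have h12 := p.1.isLt
    have h13 := q.1.isLt
    omega
  refine tsen_count _ hli u ?_ a b ?_ ?_ ?_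
  · simp only [Fintype.card_prod, Fintype.card_fin]
    nlinarith
  · intro p q
    have := hprod 0 p q
    simpa [cc] using this
  · intro p q
    exact hprod 1 p q
  · intro p q
    exact hprod 2 p q

end Pool.Agent.SmithC
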