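import Pool.Agent.Lib.SmF.Base

/-!
# SMITH, block C (Hasse principle for `H^2(F_q(t), Z/2)`): definitions

`K = RatFunc k`, `k` finite, `Ω / K` a separable closure, `G = Gal(Ω/K)`, `q = #k`.
* `IsCst k x`: `x` is a constant (`x ^ (q^n) = x` for some `n > 0`);
* `HH k Ω`: the subgroup of `G` fixing the constants;
* `LCOn A f`: `f` restricted to the subgroup `A` is locally constant;
* `kap f g`: the Kummer symbol of `f ∈ Ω` (`0` iff `g` fixes the square roots of `f`).
-/

set_option autoImplicit false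

namespace Pool.Agent.SmithC

variable (k Ω : Type) [Field k] [Field Ω] [Algebra (RatFunc k) Ω]

/-- The Galois group of `Ω / k(t)`. -/
abbrev GG : Type := Ω ≃ₐ[RatFunc k] Ω

variable {Ω} in
/-- `x` is a constant: `x ^ (q^n) = x` for some `n > 0`, `q = #k`. -/
def IsCst (x : Ω) : Prop := ∃ n : ℕ, 0 < n ∧ x ^ (Nat.card k ^ n) = x

/-- The subgroup of the automorphisms fixing all constants. -/
def HH : Subgroup (GG k Ω) where
  carrier := {g | ∀ x : Ω, IsCst k x → g x = x}
  one_mem' := fun _ _ => rfl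
  mul_mem' := by
    intro a b ha hb x hx
    have h1 : (a * b) x = a (b x) := rfl
    rw [h1, hb x hx, ha x hx]
  inv_mem' := by
    intro a ha x hx
    have h1 : a⁻¹ x = a⁻¹ (a x) := by rw [ha x hx]
    rw [h1]
    exact a.symm_apply_apply x

/-- The variable `t` as an element of `Ω`. -/
noncomputable def tt : Ω := algebraMap (RatFunc k) Ω RatFunc.X

variable {k Ω}

theorem mem_HH {g : GG k Ω} : g ∈ HH k Ω ↔ ∀ x : Ω, IsCst k x → g x = x := Iff.rfl

/-- `f` is locally constant on the subgroup `A`. -/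
def LCOn {α : Type} (A : Subgroup (GG k Ω)) (f : GG k Ω → α) : Prop :=
  ∃ N : Subgroup (GG k Ω), N.Normal ∧ IsOpen (N : Set (GG k Ω)) ∧
    ∀ s ∈ A, ∀ n ∈ N, n ∈ A → f (s * n) = f s

/-- The Kummer symbol of `f ∈ Ω`: `0` iff `g` fixes the square roots of `f`. -/
noncomputable def kap (f : Ω) (g : GG k Ω) : ZMod 2 :=
  open Classical in if ∀ r : Ω, r ^ 2 = f → g r = r then 0 else 1

/-- `c = db` on the subgroup `A`. -/
def SplitOn (A : Subgroup (GG k Ω)) (c : GG k Ω → GG k Ω → ZMod 2) (b : GG k Ω → ZMod 2) : Prop :=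
  ∀ s ∈ A, ∀ t ∈ A, c s t = b s + b t + b (s * t)

/-- `c` is a cocycle with values in `ZMod 2`. -/
def IsCoc (c : GG k Ω → GG k Ω → ZMod 2) : Prop :=
  ∀ s t w, c s t + c (s * t) w = c t w + c s (t * w)

/-- `c` is `2`-finite. -/
def TF2 (c : GG k Ω → GG k Ω → ZMod 2) : Prop :=
  ∃ N ∈ Pool.Agent.SmD.NN (RatFunc k) Ω, ∀ s t, ∀ n ∈ N, ∀ m ∈ N, c (s * n) (t * m) = c s t

end Pool.Agent.SmithC
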