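import Pool.Agent.Lib.SM.C.Defs

/-!
# SMITH, block C: definitions for coefficients in `Ω^*` (values in `μ_M`, `M = 2^e`)

Cochains are functions with values in `Ωˣ`, the group `G` acts by `s • u` (`(s • u : Ω) = s u`).
-/

set_option autoImplicit false

namespace Pool.Agent.SmithC

variable {k Ω : Type} [Field k] [Field Ω] [Algebra (RatFunc k) Ω]

/-- `c` is a two-cocycle with values in `Ω^*`. -/
def CocU (c : GG k Ω → GG k Ω → Ωˣ) : Prop :=
  ∀ s t w, c s t * c (s * t) w = s • c t w * c s (t * w)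

/-- `c = db` on the subgroup `A`. -/
def SplU (A : Subgroup (GG k Ω)) (c : GG k Ω → GG k Ω → Ωˣ) (b : GG k Ω → Ωˣ) : Prop :=
  ∀ s ∈ A, ∀ t ∈ A, c s t = b s * s • b t * (b (s * t))⁻¹

/-- `c` is `2`-finite. -/
def TF2U (c : GG k Ω → GG k Ω → Ωˣ) : Prop :=
  ∃ N ∈ Pool.Agent.SmD.NN (RatFunc k) Ω, ∀ s t, ∀ n ∈ N, ∀ m ∈ N, c (s * n) (t * m) = c s t

/-- A chosen `M`-th root of `f` (`1` if there is none). -/
noncomputable def rtU (M : ℕ) (f : Ω) : Ωˣ :=
  open Classical in if H : ∃ r : Ωˣ, (r : Ω) ^ M = f then H.choose else 1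

/-- The `M`-th Kummer symbol `h r / r`, `r ^ M = f`. -/
noncomputable def kumU (M : ℕ) (f : Ω) (h : GG k Ω) : Ωˣ := h • rtU M f * (rtU M f)⁻¹

/-- The homomorphism `H → μ_M` attached to `m : κ → ZMod M`. -/
noncomputable def psiU (k : Type) {Ω : Type} [Field k] [Field Ω] [Algebra (RatFunc k) Ω]
    (M : ℕ) (m : Ω →₀ ZMod M) (h : GG k Ω) : Ωˣ :=
  m.prod fun α a => kumU M (tt k Ω - α) h ^ a.val

end Pool.Agent.SmithC
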