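import Pool.Agent.Lib.SM.C.Ext

set_option autoImplicit false

/-!
SMITH, block C: the defect of a section over a normal subgroup under conjugation.

`E` is the extension of `G` by `A` attached to the two-cocycle `f`; `b` is a cochain splitting `f`
over the normal subgroup `H`, which acts trivially on `A`; `sec b` is the corresponding section.
`dfc b x h` is the element of `A` with `x * sec b (x⁻¹ h x) * x⁻¹ = dfc b x h * sec b h`.
-/

namespace Pool.Agent.SmithC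

variable {G A : Type*} [Group G] [CommGroup A] {φ : G →* MulAut A} {f : G → G → A}

/-- `f = db` on the subgroup `U` -/
def SplA (φ : G →* MulAut A) (f : G → G → A) (U : Subgroup G) (b : G → A) : Prop :=
  ∀ g ∈ U, ∀ h ∈ U, f g h = b g * φ g (b h) * (b (g * h))⁻¹

namespace EGrp

variable (hf : IsTwoCoc φ f)

/-- the section attached to a cochain -/
def sec (b : G → A) (g : G) : EGrp hf := mk hf (b g)⁻¹ g

@[simp] theorem snd_sec (b : G → A) (g : G) : (sec hf b g).snd = g := rfl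
@[simp] theorem fst_sec (b : G → A) (g : G) : (sec hf b g).fst = (b g)⁻¹ := rfl

theorem sec_mul {U : Subgroup G} {b : G → A} (hb : SplA φ f U b) {g h : G} (hg : g ∈ U)
    (hh : h ∈ U) : sec hf b (g * h) = sec hf b g * sec hf b h :=
  section_mul hf U b hb g hg h hh

/-- the defect -/
noncomputable def dfc (b : G → A) (x : EGrp hf) (h : G) : A :=
  (x * sec hf b (x.snd⁻¹ * h * x.snd) * x⁻¹).fst * b h

theorem dfc_spec (b : G → A) (x : EGrp hf) (h : G) :
    x * sec hf b (x.snd⁻¹ * h * x.snd) * x⁻¹ = incl hf (dfc hf b x h) * sec hf b h := by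
  have h1 : (x * sec hf b (x.snd⁻¹ * h * x.snd) * x⁻¹).snd = (sec hf b h).snd := by
    rw [snd_mul, snd_mul, snd_inv, snd_sec, snd_sec]
    group
  have h2 := exists_incl hf _ _ h1
  rw [fst_sec, inv_inv] at h2
  exact h2

theorem dfc_eq_of {b : G → A} {x : EGrp hf} {h : G} {a : A}
    (h1 : x * sec hf b (x.snd⁻¹ * h * x.snd) * x⁻¹ = incl hf a * sec hf b h) :
    dfc hf b x h = a := by
  apply incl_inj hf
  rw [dfc_spec] at h1
  exact mul_right_cancel h1

theorem dfc_mul (b : G → A) (x y : EGrp hf) (h : G) :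
    dfc hf b (x * y) h = dfc hf b x h * φ x.snd (dfc hf b y (x.snd⁻¹ * h * x.snd)) := by
  apply dfc_eq_of
  have e1 : (x * y).snd⁻¹ * h * (x * y).snd = y.snd⁻¹ * (x.snd⁻¹ * h * x.snd) * y.snd := by
    rw [snd_mul]; group
  rw [e1]
  have e2 : x * y * sec hf b (y.snd⁻¹ * (x.snd⁻¹ * h * x.snd) * y.snd) * (x * y)⁻¹
      = x * (y * sec hf b (y.snd⁻¹ * (x.snd⁻¹ * h * x.snd) * y.snd) * y⁻¹) * x⁻¹ := by group
  rw [e2, dfc_spec hf b y]
  calc x * (incl hf (dfc hf b y (x.snd⁻¹ * h * x.snd)) * sec hf b (x.snd⁻¹ * h * x.snd)) * x⁻¹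
      = (x * incl hf (dfc hf b y (x.snd⁻¹ * h * x.snd))) * sec hf b (x.snd⁻¹ * h * x.snd) * x⁻¹ := by
        group
    _ = incl hf (φ x.snd (dfc hf b y (x.snd⁻¹ * h * x.snd)))
        * (x * sec hf b (x.snd⁻¹ * h * x.snd) * x⁻¹) := by rw [mul_incl]; group
    _ = _ := by rw [dfc_spec, map_mul, ← mul_assoc, ← map_mul, mul_comm (φ x.snd _), map_mul]

theorem incl_comm_sec {H : Subgroup G} (hH : ∀ h ∈ H, ∀ a, φ h a = a) {x : EGrp hf}
    (hx : x.snd ∈ H) (a : A) : x * incl hf a = incl hf a * x := by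
  rw [mul_incl, hH _ hx]

variable {H : Subgroup G} [hN : H.Normal] (hH : ∀ h ∈ H, ∀ a, φ h a = a) {b : G → A}
  (hb : SplA φ f H b)

include hN hH hb

theorem dfc_hom (x : EGrp hf) {h h' : G} (hh : h ∈ H) (hh' : h' ∈ H) :
    dfc hf b x (h * h') = dfc hf b x h * dfc hf b x h' := by
  have ha : ∀ h ∈ H, x.snd⁻¹ * h * x.snd ∈ H := fun h hh => by
    have := hN.conj_mem h hh x.snd⁻¹
    rwa [inv_inv] at this
  apply dfc_eq_of
  have e1 : x.snd⁻¹ * (h * h') * x.snd = (x.snd⁻¹ * h * x.snd) * (x.snd⁻¹ * h' * x.snd) := by group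
  rw [e1, sec_mul hf hb (ha h hh) (ha h' hh'), sec_mul hf hb hh hh']
  calc x * (sec hf b (x.snd⁻¹ * h * x.snd) * sec hf b (x.snd⁻¹ * h' * x.snd)) * x⁻¹
      = (x * sec hf b (x.snd⁻¹ * h * x.snd) * x⁻¹) * (x * sec hf b (x.snd⁻¹ * h' * x.snd) * x⁻¹) := by
        group
    _ = incl hf (dfc hf b x h) * (sec hf b h * incl hf (dfc hf b x h')) * sec hf b h' := by
        rw [dfc_spec, dfc_spec]; group
    _ = incl hf (dfc hf b x h) * (incl hf (dfc hf b x h') * sec hf b h) * sec hf b h' := by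
        rw [incl_comm_sec hf hH (x := sec hf b h) hh]
    _ = _ := by rw [map_mul]; group

theorem dfc_self {x : EGrp hf} {h : G} (hx : x.snd ∈ H) (hh : h ∈ H) : dfc hf b x h = 1 := by
  have ha : x.snd⁻¹ * h * x.snd ∈ H := H.mul_mem (H.mul_mem (H.inv_mem hx) hh) hx
  apply dfc_eq_of
  obtain ⟨a, ha'⟩ : ∃ a : A, x = incl hf a * sec hf b x.snd := ⟨_, exists_incl hf x _ rfl⟩
  have e1 : sec hf b (x.snd⁻¹ * h * x.snd) = (sec hf b x.snd)⁻¹ * sec hf b h * sec hf b x.snd := by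
    have e0 : sec hf b x.snd * sec hf b (x.snd⁻¹ * h * x.snd) = sec hf b h * sec hf b x.snd := by
      rw [← sec_mul hf hb hx ha, ← sec_mul hf hb hh hx]
      congr 1
      group
    rw [mul_assoc (sec hf b x.snd)⁻¹, ← e0, inv_mul_cancel_left]
  rw [map_one, one_mul]
  rw [e1]
  have e2 : x * ((sec hf b x.snd)⁻¹ * sec hf b h * sec hf b x.snd) * x⁻¹
      = (x * (sec hf b x.snd)⁻¹) * sec hf b h * (x * (sec hf b x.snd)⁻¹)⁻¹ := by group
  have e3 : x * (sec hf b x.snd)⁻¹ = incl hf a := by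
    conv_lhs => rw [ha']
    rw [snd_mul, snd_incl, one_mul, snd_sec]
    group
  rw [e2, e3, ← incl_comm_sec hf hH (x := sec hf b h) hh]
  group

theorem dfc_mul_right (x : EGrp hf) {y : EGrp hf} {h : G} (hy : y.snd ∈ H) (hh : h ∈ H) :
    dfc hf b (x * y) h = dfc hf b x h := by
  have ha : x.snd⁻¹ * h * x.snd ∈ H := by
    have := hN.conj_mem h hh x.snd⁻¹
    rwa [inv_inv] at this
  rw [dfc_mul, dfc_self hf hH hb hy ha, map_one, mul_one]

theorem dfc_congr {x y : EGrp hf} {h : G} (hxy : x.snd⁻¹ * y.snd ∈ H) (hh : h ∈ H) :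
    dfc hf b y h = dfc hf b x h := by
  have e : y = x * (x⁻¹ * y) := by group
  rw [e, dfc_mul_right hf hH hb x (by rw [snd_mul, snd_inv]; exact hxy) hh]

theorem dfc_pow (x : EGrp hf) (n : ℕ) {h : G} (hh : h ∈ H) :
    dfc hf b (x ^ n) h = ∏ i ∈ Finset.range n,
      φ (x.snd ^ i) (dfc hf b x ((x.snd ^ i)⁻¹ * h * x.snd ^ i)) := by
  have hpow : ∀ n : ℕ, (x ^ n).snd = x.snd ^ n := fun n => map_pow (proj hf) x n
  induction n with
  | zero =>
    rw [pow_zero, Finset.prod_range_zero]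
    exact dfc_self hf hH hb (by rw [snd_one]; exact H.one_mem) hh
  | succ n ih =>
    rw [pow_succ, dfc_mul, ih, Finset.prod_range_succ, hpow]

omit hN hH hb in
/-- on a subgroup over which `f` splits by another cochain `d` -/
theorem dfc_local {b d : G → A} {D : Subgroup G} (hd : SplA φ f D d) {F h : G} (hF : F ∈ D)
    (hh : h ∈ D) :
    dfc hf b (sec hf d F) h
      = φ F ((b (F⁻¹ * h * F))⁻¹ * d (F⁻¹ * h * F)) * ((b h)⁻¹ * d h)⁻¹ := by
  have ha : F⁻¹ * h * F ∈ D := D.mul_mem (D.mul_mem (D.inv_mem hF) hh) hF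
  have key : ∀ g, sec hf b g = incl hf ((b g)⁻¹ * d g) * sec hf d g := by
    intro g
    have := exists_incl hf (sec hf b g) (sec hf d g) rfl
    rwa [fst_sec, fst_sec, inv_inv] at this
  apply dfc_eq_of
  rw [snd_sec, key, key h]
  have e1 : sec hf d F * sec hf d (F⁻¹ * h * F) * (sec hf d F)⁻¹ = sec hf d h := by
    rw [mul_inv_eq_iff_eq_mul, ← sec_mul hf hd hF ha, ← sec_mul hf hd hh hF]
    congr 1
    group
  calc sec hf d F * (incl hf ((b (F⁻¹ * h * F))⁻¹ * d (F⁻¹ * h * F)) * sec hf d (F⁻¹ * h * F))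
        * (sec hf d F)⁻¹
      = (sec hf d F * incl hf ((b (F⁻¹ * h * F))⁻¹ * d (F⁻¹ * h * F))) * sec hf d (F⁻¹ * h * F)
        * (sec hf d F)⁻¹ := by group
    _ = incl hf (φ F ((b (F⁻¹ * h * F))⁻¹ * d (F⁻¹ * h * F)))
        * (sec hf d F * sec hf d (F⁻¹ * h * F) * (sec hf d F)⁻¹) := by
        rw [mul_incl, snd_sec]; group
    _ = incl hf (φ F ((b (F⁻¹ * h * F))⁻¹ * d (F⁻¹ * h * F))) * sec hf d h := by rw [e1]
    _ = _ := by rw [← mul_assoc, ← map_mul, inv_mul_cancel_right]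

omit hN hH hb in
/-- the defect after dividing `b` by a function -/
theorem dfc_div (b ψ : G → A) (x : EGrp hf) (h : G) :
    dfc hf (fun g => b g * (ψ g)⁻¹) x h
      = dfc hf b x h * (ψ h)⁻¹ * φ x.snd (ψ (x.snd⁻¹ * h * x.snd)) := by
  have key : ∀ g, sec hf (fun g => b g * (ψ g)⁻¹) g = incl hf (ψ g) * sec hf b g := by
    intro g
    have := exists_incl hf (sec hf (fun g => b g * (ψ g)⁻¹) g) (sec hf b g) rfl
    rw [this]
    congr 2
    rw [fst_sec, fst_sec]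
    rw [mul_inv, inv_inv, inv_inv, mul_comm, mul_inv_cancel_left]
  apply dfc_eq_of
  rw [key, key h]
  calc x * (incl hf (ψ (x.snd⁻¹ * h * x.snd)) * sec hf b (x.snd⁻¹ * h * x.snd)) * x⁻¹
      = (x * incl hf (ψ (x.snd⁻¹ * h * x.snd))) * sec hf b (x.snd⁻¹ * h * x.snd) * x⁻¹ := by group
    _ = incl hf (φ x.snd (ψ (x.snd⁻¹ * h * x.snd)))
        * (x * sec hf b (x.snd⁻¹ * h * x.snd) * x⁻¹) := by rw [mul_incl]; group
    _ = incl hf (φ x.snd (ψ (x.snd⁻¹ * h * x.snd)) * dfc hf b x h) * sec hf b h := by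
        rw [dfc_spec, ← mul_assoc, ← map_mul]
    _ = _ := by
        rw [← mul_assoc, ← map_mul]
        congr 2
        rw [mul_comm (φ _ _) (dfc hf b x h), mul_right_comm, inv_mul_cancel_right]

omit hN in
/-- dividing a splitting by a homomorphism of `H` -/
theorem spl_div {ψ : G → A} (hψ : ∀ s ∈ H, ∀ t ∈ H, ψ (s * t) = ψ s * ψ t) :
    SplA φ f H (fun g => b g * (ψ g)⁻¹) := by
  intro g hg h hh
  rw [hb g hg h hh, hH g hg, hH g hg]
  change b g * b h * (b (g * h))⁻¹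
    = b g * (ψ g)⁻¹ * (b h * (ψ h)⁻¹) * (b (g * h) * (ψ (g * h))⁻¹)⁻¹
  rw [hψ g hg h hh]
  rw [mul_inv (b (g * h)), inv_inv]
  have e : b g * (ψ g)⁻¹ * (b h * (ψ h)⁻¹) * ((b (g * h))⁻¹ * (ψ g * ψ h))
      = b g * b h * (b (g * h))⁻¹ * ((ψ g)⁻¹ * ψ g) * ((ψ h)⁻¹ * ψ h) := by
    simp only [mul_assoc, mul_comm, mul_left_comm]
  rw [e, inv_mul_cancel, inv_mul_cancel, mul_one, mul_one]

end EGrp

end Pool.Agent.SmithC
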