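import Mathlib

set_option autoImplicit false

/-!
SMITH, block C, module Ext: the group extension of `G` by `A` attached to a two-cocycle
`f : G → G → A` (action `φ : G →* MulAut A`), not necessarily normalised.
-/

namespace Pool.Agent.SmithC

/-- underlying type of the extension of `G` by `A` -/
@[ext] structure Ext (A G : Type*) where
  /-- component in `A` -/
  fst : A
  /-- component in `G` -/
  snd : G

section
variable {G A : Type*} [Group G] [CommGroup A] (φ : G →* MulAut A) (f : G → G → A)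

/-- two-cocycle condition -/
def IsTwoCoc : Prop := ∀ g h j, f g h * f (g * h) j = φ g (f h j) * f g (h * j)

variable {φ f}

theorem IsTwoCoc.one_left (hf : IsTwoCoc φ f) (g : G) : f 1 g = f 1 1 := by
  have := hf 1 1 g
  simp only [one_mul, map_one, MulAut.one_apply] at this
  exact (mul_right_cancel this).symm

theorem IsTwoCoc.one_right (hf : IsTwoCoc φ f) (g : G) : f g 1 = φ g (f 1 1) := by
  have := hf g 1 1
  simp only [mul_one] at this
  exact mul_right_cancel this

variable (φ f)

/-- the group structure on `Ext A G` -/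
@[reducible] noncomputable def extGroup (hf : IsTwoCoc φ f) : Group (Ext A G) :=
  letI : Mul (Ext A G) := ⟨fun x y => ⟨x.fst * φ x.snd y.fst * f x.snd y.snd, x.snd * y.snd⟩⟩
  letI : One (Ext A G) := ⟨⟨(f 1 1)⁻¹, 1⟩⟩
  letI : Inv (Ext A G) := ⟨fun x => ⟨(f 1 1)⁻¹ * (f x.snd⁻¹ x.snd)⁻¹ * (φ x.snd⁻¹ x.fst)⁻¹, x.snd⁻¹⟩⟩
  Group.ofLeftAxioms
    (by
      rintro ⟨a, g⟩ ⟨b, h⟩ ⟨c, j⟩
      apply Ext.ext
      · change (a * φ g b * f g h) * φ (g * h) c * f (g * h) j
          = a * φ g (b * φ h c * f h j) * f g (h * j)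
        have := hf g h j
        rw [map_mul, map_mul, map_mul, MulAut.mul_apply]
        calc a * φ g b * f g h * φ g (φ h c) * f (g * h) j
            = a * φ g b * φ g (φ h c) * (f g h * f (g * h) j) := by
              simp only [mul_assoc, mul_comm, mul_left_comm]
          _ = a * φ g b * φ g (φ h c) * (φ g (f h j) * f g (h * j)) := by rw [this]
          _ = _ := by simp only [mul_assoc]
      · exact mul_assoc g h j)
    (by
      rintro ⟨a, g⟩
      apply Ext.ext
      · change (f 1 1)⁻¹ * φ 1 a * f 1 g = a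
        rw [hf.one_left g, map_one, MulAut.one_apply]
        rw [mul_right_comm, inv_mul_cancel, one_mul]
      · exact one_mul g)
    (by
      rintro ⟨a, g⟩
      apply Ext.ext
      · change (f 1 1)⁻¹ * (f g⁻¹ g)⁻¹ * (φ g⁻¹ a)⁻¹ * φ g⁻¹ a * f g⁻¹ g = (f 1 1)⁻¹
        rw [inv_mul_cancel_right, inv_mul_cancel_right]
      · exact inv_mul_cancel g)

variable {φ f}

/-- the extension, as a type depending on the cocycle -/
def EGrp (_hf : IsTwoCoc φ f) : Type _ := Ext A G

noncomputable instance (hf : IsTwoCoc φ f) : Group (EGrp hf) := extGroup φ f hf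

namespace EGrp

variable (hf : IsTwoCoc φ f)

/-- constructor -/
def mk (a : A) (g : G) : EGrp hf := (⟨a, g⟩ : Ext A G)

variable {hf}

/-- component in `A` -/
def fst (x : EGrp hf) : A := Ext.fst x

/-- component in `G` -/
def snd (x : EGrp hf) : G := Ext.snd x

theorem ext' {x y : EGrp hf} (h1 : x.fst = y.fst) (h2 : x.snd = y.snd) : x = y := Ext.ext h1 h2

@[simp] theorem fst_mk (a : A) (g : G) : (mk hf a g).fst = a := rfl
@[simp] theorem snd_mk (a : A) (g : G) : (mk hf a g).snd = g := rfl

theorem fst_mul (x y : EGrp hf) : (x * y).fst = x.fst * φ x.snd y.fst * f x.snd y.snd := rfl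
theorem snd_mul (x y : EGrp hf) : (x * y).snd = x.snd * y.snd := rfl
theorem snd_inv (x : EGrp hf) : (x⁻¹).snd = x.snd⁻¹ := rfl
theorem fst_one : (1 : EGrp hf).fst = (f 1 1)⁻¹ := rfl
theorem snd_one : (1 : EGrp hf).snd = 1 := rfl

variable (hf)

/-- the projection -/
noncomputable def proj : EGrp hf →* G where
  toFun := fun x => x.snd
  map_one' := rfl
  map_mul' := fun _ _ => rfl

@[simp] theorem proj_apply (x : EGrp hf) : proj hf x = x.snd := rfl

/-- the inclusion of the kernel -/
noncomputable def incl : A →* EGrp hf where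
  toFun := fun a => mk hf (a * (f 1 1)⁻¹) 1
  map_one' := by
    apply ext'
    · rw [fst_mk, fst_one, one_mul]
    · rfl
  map_mul' := fun a b => by
    apply ext'
    · rw [fst_mul, fst_mk, fst_mk, fst_mk, snd_mk, snd_mk, map_one, MulAut.one_apply]
      calc a * b * (f 1 1)⁻¹ = a * b * (f 1 1)⁻¹ * ((f 1 1)⁻¹ * f 1 1) := by
            rw [inv_mul_cancel, mul_one]
        _ = _ := by simp only [mul_assoc, mul_comm, mul_left_comm]
    · exact (one_mul 1).symm

theorem snd_incl (a : A) : (incl hf a).snd = 1 := rfl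

theorem incl_mul (a : A) (x : EGrp hf) : incl hf a * x = mk hf (a * x.fst) x.snd := by
  apply ext'
  · change a * (f 1 1)⁻¹ * φ 1 x.fst * f 1 x.snd = a * x.fst
    rw [hf.one_left x.snd, map_one, MulAut.one_apply, mul_right_comm, inv_mul_cancel_right]
  · exact one_mul _

theorem incl_inj {a b : A} (h : incl hf a = incl hf b) : a = b := by
  have : a * (f 1 1)⁻¹ = b * (f 1 1)⁻¹ := congrArg fst h
  exact mul_right_cancel this

theorem mul_incl (x : EGrp hf) (a : A) : x * incl hf a = incl hf (φ x.snd a) * x := by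
  rw [incl_mul]
  apply ext'
  · change x.fst * φ x.snd (a * (f 1 1)⁻¹) * f x.snd 1 = φ x.snd a * x.fst
    rw [hf.one_right x.snd, map_mul, map_inv, mul_assoc, mul_assoc, inv_mul_cancel, mul_one,
      mul_comm]
  · exact mul_one _

/-- elements with the same projection differ by the kernel -/
theorem exists_incl (x y : EGrp hf) (h : x.snd = y.snd) :
    x = incl hf (x.fst * y.fst⁻¹) * y := by
  rw [incl_mul]
  apply ext'
  · rw [fst_mk, inv_mul_cancel_right]
  · exact h

/-- a splitting cochain over a subgroup gives a homomorphic section -/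
theorem section_mul (U : Subgroup G) (β : G → A)
    (hβ : ∀ g ∈ U, ∀ h ∈ U, f g h = β g * φ g (β h) * (β (g * h))⁻¹) :
    ∀ g ∈ U, ∀ h ∈ U, mk hf (β (g * h))⁻¹ (g * h) = mk hf (β g)⁻¹ g * mk hf (β h)⁻¹ h := by
  intro g hg h hh
  apply ext'
  · rw [fst_mul, fst_mk, fst_mk, fst_mk, snd_mk, snd_mk, hβ g hg h hh, map_inv]
    calc (β (g * h))⁻¹ = ((β g)⁻¹ * β g) * ((φ g (β h))⁻¹ * φ g (β h)) * (β (g * h))⁻¹ := by
          rw [inv_mul_cancel, inv_mul_cancel, one_mul, one_mul]
      _ = _ := by simp only [mul_assoc, mul_comm, mul_left_comm]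
  · rfl

/-- a homomorphic section gives a splitting cochain -/
theorem cochain_of_section (s : G → EGrp hf) (hmul : ∀ g h, s (g * h) = s g * s h)
    (hs : ∀ g, (s g).snd = g) (g h : G) :
    f g h = ((s g).fst)⁻¹ * φ g ((s h).fst)⁻¹ * (((s (g * h)).fst)⁻¹)⁻¹ := by
  have h16 : (s (g * h)).fst = (s g).fst * φ g (s h).fst * f g h := by
    rw [hmul, fst_mul, hs, hs]
  rw [h16, inv_inv, map_inv]
  calc f g h = (((s g).fst)⁻¹ * (s g).fst) * ((φ g (s h).fst)⁻¹ * φ g (s h).fst) * f g h := by
        rw [inv_mul_cancel, inv_mul_cancel, one_mul, one_mul]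
    _ = _ := by simp only [mul_assoc, mul_comm, mul_left_comm]

end EGrp

end

end Pool.Agent.SmithC
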