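import Pool.Agent.Lib.SM.C.Dfc
import Pool.Agent.Lib.SM.C.GL

set_option autoImplicit false

/-!
SMITH, block C, module Extend (abstract): a splitting of `f` over the normal subgroup `H`, without
defect under conjugation by `σ`, extends to a splitting over `G`, if `G / H` is pro-cyclic with
generator `σ` (used through finite levels `P`, `Q`).
-/

namespace Pool.Agent.SmithC

open EGrp

variable {G A : Type*} [Group G] [CommGroup A] {φ : G →* MulAut A} {f : G → G → A}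

theorem mem_sup_dec (H N : Subgroup G) [N.Normal] {g : G} (hg : g ∈ H ⊔ N) :
    ∃ h ∈ H, ∃ n ∈ N, h * n = g := by
  have h1 : g ∈ ((H ⊔ N : Subgroup G) : Set G) := hg
  rw [Subgroup.mul_normal] at h1
  obtain ⟨h, hh, n, hn, e⟩ := Set.mem_mul.mp h1
  exact ⟨h, hh, n, hn, e⟩

/-- transfer of the splitting from `H` to `H N` -/
theorem extend_HN (hf : IsTwoCoc φ f) (H N : Subgroup G) [H.Normal] [N.Normal]
    (hHA : ∀ h ∈ H, ∀ a, φ h a = a) (hNA : ∀ h ∈ N, ∀ a, φ h a = a)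
    (hfN : ∀ s t, ∀ n ∈ N, ∀ m ∈ N, f (s * n) (t * m) = f s t)
    (b : G → A) (hb : SplA φ f H b) (hbN : ∀ h ∈ H, ∀ n ∈ N, n ∈ H → b (h * n) = b h)
    (σ : G) (hσ : ∀ h ∈ H, dfc hf b (mk hf 1 σ) h = 1) :
    ∃ b' : G → A, SplA φ f (H ⊔ N) b' ∧ (∀ g ∈ H ⊔ N, ∀ n ∈ N, b' (g * n) = b' g) ∧
      (∀ g ∈ H ⊔ N, dfc hf b' (mk hf 1 σ) g = 1) := by
  classical
  -- choice of a decomposition
  have hdec : ∀ g ∈ H ⊔ N, ∃ h ∈ H, ∃ n ∈ N, h * n = g := fun g hg => mem_sup_dec H N hg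
  let b' : G → A := fun g => if hg : g ∈ H ⊔ N then b (hdec g hg).choose else 1
  have hb' : ∀ h ∈ H, ∀ n ∈ N, b' (h * n) = b h := by
    intro h hh n hn
    have hg : h * n ∈ H ⊔ N := Subgroup.mul_mem_sup hh hn
    have h1 : b' (h * n) = b (hdec (h * n) hg).choose := dif_pos hg
    rw [h1]
    obtain ⟨h2, n2, h3, h4⟩ := (hdec (h * n) hg).choose_spec
    set h' := (hdec (h * n) hg).choose with hh'
    have h5 : h' = h * (n * n2⁻¹) := by
      rw [← mul_assoc, ← h4]; group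
    have h6 : n * n2⁻¹ ∈ N := N.mul_mem hn (N.inv_mem h3)
    have h7 : n * n2⁻¹ ∈ H := by
      have : n * n2⁻¹ = h⁻¹ * h' := by rw [h5]; group
      rw [this]
      exact H.mul_mem (H.inv_mem hh) h2
    rw [h5, hbN h hh _ h6 h7]
  have hmul : ∀ h n h' n' : G, (h * n) * (h' * n') = (h * h') * ((h'⁻¹ * n * h') * n') := by
    intro h n h' n'; group
  have hconj : ∀ g : G, ∀ n ∈ N, g⁻¹ * n * g ∈ N := fun g n hn => by
    have := (inferInstance : N.Normal).conj_mem n hn g⁻¹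
    rwa [inv_inv] at this
  have hconjH : ∀ g : G, ∀ n ∈ H, g⁻¹ * n * g ∈ H := fun g n hn => by
    have := (inferInstance : H.Normal).conj_mem n hn g⁻¹
    rwa [inv_inv] at this
  have hspl : SplA φ f (H ⊔ N) b' := by
    intro g hg g' hg'
    obtain ⟨h, hh, n, hn, rfl⟩ := hdec g hg
    obtain ⟨h', hh', n', hn', rfl⟩ := hdec g' hg'
    rw [hfN h h' n hn n' hn', hb h hh h' hh', hb' h hh n hn, hb' h' hh' n' hn', hmul,
      hb' _ (H.mul_mem hh hh') _ (N.mul_mem (hconj h' n hn) hn')]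
    rw [map_mul, MulAut.mul_apply, hNA n hn]
  refine ⟨b', hspl, ?_, ?_⟩
  · intro g hg m hm
    obtain ⟨h, hh, n, hn, rfl⟩ := hdec g hg
    rw [mul_assoc, hb' h hh _ (N.mul_mem hn hm), hb' h hh n hn]
  · intro g hg
    obtain ⟨h, hh, n, hn, rfl⟩ := hdec g hg
    have h1 := hσ h hh
    -- explicit formula
    have key : ∀ (c : G → A) (g : G), dfc hf c (mk hf 1 σ) g
        = φ σ ((c (σ⁻¹ * g * σ))⁻¹) * f σ (σ⁻¹ * g * σ) * (f g σ)⁻¹ * c g := by
      intro c g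
      apply dfc_eq_of
      rw [mul_inv_eq_iff_eq_mul, incl_mul]
      apply ext'
      · change 1 * φ σ ((c (σ⁻¹ * g * σ))⁻¹) * f σ (σ⁻¹ * g * σ)
          = φ σ ((c (σ⁻¹ * g * σ))⁻¹) * f σ (σ⁻¹ * g * σ) * (f g σ)⁻¹ * c g
            * (c g)⁻¹ * φ g 1 * f g σ
        rw [map_one (φ g), one_mul, mul_one, mul_inv_cancel_right, inv_mul_cancel_right]
      · change σ * (σ⁻¹ * g * σ) = g * σ
        group
    rw [key] at h1 ⊢
    have e1 : σ⁻¹ * (h * n) * σ = (σ⁻¹ * h * σ) * (σ⁻¹ * n * σ) := by group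
    have e2 : f σ ((σ⁻¹ * h * σ) * (σ⁻¹ * n * σ)) = f σ (σ⁻¹ * h * σ) := by
      have := hfN σ (σ⁻¹ * h * σ) 1 N.one_mem (σ⁻¹ * n * σ) (hconj σ n hn)
      rwa [mul_one] at this
    have e3 : f (h * n) σ = f h σ := by
      have := hfN h σ n hn 1 N.one_mem
      rwa [mul_one] at this
    rw [e1, hb' _ (hconjH σ h hh) _ (hconj σ n hn), e2, e3, hb' h hh n hn]
    exact h1

theorem extend_abs (hf : IsTwoCoc φ f) (H N : Subgroup G) [H.Normal] [N.Normal]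
    (hHA : ∀ h ∈ H, ∀ a, φ h a = a) (hNA : ∀ h ∈ N, ∀ a, φ h a = a)
    (hfN : ∀ s t, ∀ n ∈ N, ∀ m ∈ N, f (s * n) (t * m) = f s t)
    (b : G → A) (hb : SplA φ f H b) (hbN : ∀ h ∈ H, ∀ n ∈ N, n ∈ H → b (h * n) = b h)
    (σ : G) (hσ : ∀ h ∈ H, dfc hf b (mk hf 1 σ) h = 1)
    (M : ℕ) (hM : ∀ a : A, a ^ M = 1) (P Q : Subgroup G) [hQN : Q.Normal] (hQP : Q ≤ P)
    (hP : P ≤ H ⊔ N) (n : ℕ) (hn : σ ^ n ∈ P) (hnM : σ ^ (n * M) ∈ Q)
    (hgen : ∀ g : G, ∃ i : ℤ, (σ ^ i)⁻¹ * g ∈ Q)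
    (hmin : ∀ i : ℤ, σ ^ i ∈ Q → ((n * M : ℕ) : ℤ) ∣ i) :
    ∃ β : G → A, (∀ g h, f g h = β g * φ g (β h) * (β (g * h))⁻¹) ∧
      ∀ g, ∀ x ∈ N ⊓ Q, β (g * x) = β g := by
  obtain ⟨b', hspl, hinv, hdef⟩ := extend_HN hf H N hHA hNA hfN b hb hbN σ hσ
  have hHNA : ∀ h ∈ H ⊔ N, ∀ a, φ h a = a := by
    intro g hg a
    obtain ⟨h, hh, m, hm, rfl⟩ := mem_sup_dec H N hg
    rw [map_mul, MulAut.mul_apply, hNA m hm, hHA h hh]
  have hQH : Q ≤ H ⊔ N := hQP.trans hP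
  set s1 : G → EGrp hf := sec hf b' with hs1
  set σ' : EGrp hf := mk hf 1 σ with hσ'
  have hπσ : proj hf σ' = σ := rfl
  have hmulQ : ∀ g ∈ Q, ∀ h ∈ Q, s1 (g * h) = s1 g * s1 h := fun g hg h hh =>
    sec_mul hf hspl (hQH hg) (hQH hh)
  have hconj' : ∀ g ∈ Q, σ⁻¹ * g * σ ∈ Q := fun g hg => by
    have := hQN.conj_mem g hg σ⁻¹
    rwa [inv_inv] at this
  have hpow0 : ∀ m : ℕ, (σ' ^ m).snd = σ ^ m := fun m => map_pow (proj hf) σ' m
  -- the power relation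
  have hpow : σ' ^ (n * M) = s1 (σ ^ (n * M)) := by
    obtain ⟨a, ha⟩ : ∃ a : A, σ' ^ n = incl hf a * s1 (σ ^ n) :=
      ⟨_, exists_incl hf (σ' ^ n) (s1 (σ ^ n)) (hpow0 n)⟩
    have hc : Commute (incl hf a) (s1 (σ ^ n)) := by
      have := incl_comm_sec hf hHNA (x := s1 (σ ^ n)) (hP hn) a
      exact this.symm
    rw [pow_mul, ha, hc.mul_pow, ← map_pow, hM, map_one, one_mul, pow_mul]
    have : ∀ m : ℕ, s1 (σ ^ n) ^ m = s1 ((σ ^ n) ^ m) := by
      intro m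
      induction m with
      | zero =>
        rw [pow_zero, pow_zero]
        have h1 : s1 (1 * 1) = s1 1 * s1 1 := hmulQ 1 Q.one_mem 1 Q.one_mem
        rw [mul_one] at h1
        exact (mul_eq_left.mp h1.symm).symm
      | succ m ih =>
        rw [pow_succ, ih, pow_succ]
        exact (sec_mul hf hspl (hP (P.pow_mem hn m)) (hP hn)).symm
    exact this M
  obtain ⟨s, hs1', hs2, -⟩ := ext_section (proj hf) Q s1 hmulQ (fun g _ => rfl) σ'
    (fun g hg => hQN.conj_mem g hg σ) hconj'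
    (by
      intro g hg
      have hg' : σ * g * σ⁻¹ ∈ Q := hQN.conj_mem g hg σ
      have h1 := dfc_spec hf b' σ' (σ * g * σ⁻¹)
      rw [hdef _ (hQH hg'), map_one, one_mul] at h1
      have e : σ'.snd⁻¹ * (σ * g * σ⁻¹) * σ'.snd = g := by
        change σ⁻¹ * (σ * g * σ⁻¹) * σ = g
        group
      rw [e] at h1
      exact h1)
    (n * M) hnM hpow hgen hmin
  refine ⟨fun g => ((s g).fst)⁻¹, fun g h => ?_, ?_⟩
  · exact cochain_of_section hf (fun g => s g) (fun g h => map_mul s g h) (fun g => hs1' g) g h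
  · intro g x hx
    change ((s (g * x)).fst)⁻¹ = ((s g).fst)⁻¹
    have h1 : s x = s1 x := hs2 x hx.2
    have h2 : b' x = b' 1 := by
      have := hinv 1 (H ⊔ N).one_mem x hx.1
      rwa [one_mul] at this
    have h3 : f 1 1 = b' 1 := by
      have := hspl 1 (H ⊔ N).one_mem 1 (H ⊔ N).one_mem
      rw [map_one, MulAut.one_apply, mul_one, mul_inv_cancel_right] at this
      exact this
    have h4 : f g x = φ g (f 1 1) := by
      have := hfN g 1 1 N.one_mem x hx.1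
      rw [mul_one, one_mul] at this
      rw [this, hf.one_right g]
    have hsnd : (s g).snd = g := hs1' g
    rw [map_mul, fst_mul, h1, hsnd]
    change ((s g).fst * φ g (b' x)⁻¹ * f g x)⁻¹ = ((s g).fst)⁻¹
    rw [h4, h3, h2, map_inv, inv_mul_cancel_right]

end Pool.Agent.SmithC
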