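import Pool.Agent.Lib.SM.C.Ext
import Pool.Agent.Lib.SmD.NN

set_option autoImplicit false

/-!
SMITH, block C: a locally constant cochain splitting a `2`-finite cocycle with values in a group of
exponent a power of `2` is `2`-finite.
-/

namespace Pool.Agent.SmithC

/-- abstract form: `β` is constant on the cosets of a normal subgroup `N1 ≤ N0` with `N0 / N1` of
order dividing a power of two, which contains `N0 ∩ M` if `β` is `M`-invariant -/
theorem finTwo_abs {G A : Type*} [Group G] [CommGroup A] [Finite A] {φ : G →* MulAut A}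
    {f : G → G → A} (N0 : Subgroup G) [hN0 : N0.Normal] (hNA : ∀ h ∈ N0, ∀ a, φ h a = a)
    (hfN : ∀ s t, ∀ n ∈ N0, ∀ m ∈ N0, f (s * n) (t * m) = f s t)
    (β : G → A) (hβ : ∀ g h, f g h = β g * φ g (β h) * (β (g * h))⁻¹) :
    ∃ N1 : Subgroup G, N1.Normal ∧ N1 ≤ N0 ∧ (∀ g, ∀ n ∈ N1, β (g * n) = β g) ∧
      (∀ n ∈ N0, β n = β 1 → n ∈ N1) ∧ N1.relIndex N0 ∣ Nat.card A := by
  have h11 : f 1 1 = β 1 := by
    have := hβ 1 1
    rw [map_one, MulAut.one_apply, mul_one, mul_inv_cancel_right] at this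
    exact this
  -- right multiplication by `n ∈ N0`
  have hfr : ∀ g, ∀ n ∈ N0, f g n = φ g (β 1) := by
    intro g n hn
    have h1 : f g n = f g 1 := by
      have := hfN g 1 1 N0.one_mem n hn
      rwa [mul_one, one_mul] at this
    have h2 : f g 1 = φ g (β 1) := by
      have := hβ g 1
      rw [mul_one, mul_comm (β g), mul_inv_cancel_right] at this
      exact this
    rw [h1, h2]
  have hfl : ∀ g, ∀ n ∈ N0, f n g = β 1 := by
    intro g n hn
    have h1 : f n g = f 1 g := by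
      have := hfN 1 g n hn 1 N0.one_mem
      rwa [mul_one, one_mul] at this
    have h2 : f 1 g = β 1 := by
      have := hβ 1 g
      rw [one_mul, map_one, MulAut.one_apply, mul_inv_cancel_right] at this
      exact this
    rw [h1, h2]
  have hr : ∀ g, ∀ n ∈ N0, β (g * n) = β g * φ g (β n * (β 1)⁻¹) := by
    intro g n hn
    have h1 := hβ g n
    rw [hfr g n hn, eq_mul_inv_iff_mul_eq] at h1
    rw [map_mul, map_inv, ← mul_assoc, ← h1, mul_comm (φ g (β 1)), mul_inv_cancel_right]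
  have hl : ∀ g, ∀ n ∈ N0, β (n * g) = β g * (β n * (β 1)⁻¹) := by
    intro g n hn
    have h1 := hβ n g
    rw [hfl g n hn, hNA n hn, eq_mul_inv_iff_mul_eq] at h1
    have h2 : β (n * g) = (β 1)⁻¹ * (β n * β g) := by rw [← h1, inv_mul_cancel_left]
    rw [h2, mul_comm (β g), mul_comm (β n) (β 1)⁻¹, mul_assoc]
  -- the homomorphism
  let θ : N0 →* A :=
    { toFun := fun n => β n * (β 1)⁻¹
      map_one' := mul_inv_cancel _
      map_mul' := by
        intro a b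
        change β ((a : G) * (b : G)) * (β 1)⁻¹ = _
        rw [hl (b : G) a a.2, mul_comm (β (b : G)), mul_assoc] }
  let N1 : Subgroup G := θ.ker.map N0.subtype
  have hmem : ∀ g, g ∈ N1 ↔ g ∈ N0 ∧ β g = β 1 := by
    intro g
    constructor
    · rintro ⟨x, hx, rfl⟩
      have hx' : θ x = 1 := hx
      exact ⟨x.2, mul_inv_eq_one.1 hx'⟩
    · rintro ⟨h1, h2⟩
      exact ⟨⟨g, h1⟩, mul_inv_eq_one.2 h2, rfl⟩
  refine ⟨N1, ⟨fun n hn g => ?_⟩, ?_, ?_, ?_, ?_⟩
  · rw [hmem] at hn ⊢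
    have h1 : g * n * g⁻¹ ∈ N0 := hN0.conj_mem n hn.1 g
    refine ⟨h1, ?_⟩
    have h2 := hl g _ h1
    have h3 := hr g n hn.1
    rw [show g * n * g⁻¹ * g = g * n by group, h3] at h2
    have h4 := mul_left_cancel h2
    rw [hn.2, mul_inv_cancel, map_one] at h4
    exact mul_inv_eq_one.1 h4.symm
  · intro g hg
    exact ((hmem g).1 hg).1
  · intro g n hn
    rw [hmem] at hn
    rw [hr g n hn.1, hn.2, mul_inv_cancel, map_one, mul_one]
  · intro n hn h
    exact (hmem n).2 ⟨hn, h⟩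
  · have h1 : N1.relIndex N0 = θ.ker.index := by
      change (θ.ker.map N0.subtype).relIndex N0 = θ.ker.index
      rw [Subgroup.relIndex, Subgroup.subgroupOf]
      rw [Subgroup.comap_map_eq_self_of_injective (Subgroup.subtype_injective N0)]
    rw [h1, Subgroup.index_ker]
    exact Subgroup.card_subgroup_dvd_card _

open Pool.Agent.SmD in
theorem finTwo {K Ω A : Type} [Field K] [Field Ω] [Algebra K Ω] [CommGroup A] [Finite A] {e : ℕ}
    (hA : Nat.card A = 2 ^ e) {φ : (Ω ≃ₐ[K] Ω) →* MulAut A}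
    {f : (Ω ≃ₐ[K] Ω) → (Ω ≃ₐ[K] Ω) → A} (N0 : Subgroup (Ω ≃ₐ[K] Ω)) (hN0 : N0 ∈ NN K Ω)
    (hNA : ∀ h ∈ N0, ∀ a, φ h a = a)
    (hfN : ∀ s t, ∀ n ∈ N0, ∀ m ∈ N0, f (s * n) (t * m) = f s t)
    (β : (Ω ≃ₐ[K] Ω) → A) (hβ : ∀ g h, f g h = β g * φ g (β h) * (β (g * h))⁻¹)
    (M : Subgroup (Ω ≃ₐ[K] Ω)) (hM : IsOpen (M : Set (Ω ≃ₐ[K] Ω)))
    (hβM : ∀ g, ∀ n ∈ M, β (g * n) = β g) :
    ∃ N ∈ NN K Ω, ∀ s, ∀ n ∈ N, β (s * n) = β s := by
  have := NN.normal hN0
  obtain ⟨N1, h1, h2, h3, h4, h5⟩ := finTwo_abs N0 hNA hfN β hβ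
  obtain ⟨r, hr⟩ := hN0.2.2
  refine ⟨N1, ⟨h1, ?_, ?_⟩, h3⟩
  · have hopen : IsOpen ((N0 ⊓ M : Subgroup (Ω ≃ₐ[K] Ω)) : Set (Ω ≃ₐ[K] Ω)) := by
      rw [Subgroup.coe_inf]
      exact (NN.isOpen hN0).inter hM
    have hle : N0 ⊓ M ≤ N1 := by
      intro n hn
      refine h4 n hn.1 ?_
      have := hβM 1 n hn.2
      rwa [one_mul] at this
    exact Subgroup.isOpen_mono hle hopen
  · rw [hA] at h5
    obtain ⟨m, -, hm⟩ := (Nat.dvd_prime_pow Nat.prime_two).mp h5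
    refine ⟨m + r, ?_⟩
    rw [← Subgroup.relIndex_mul_index h2, hm, hr, pow_add]

end Pool.Agent.SmithC
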