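import Pool.Agent.Lib.SM.C.DefsU
import Pool.Agent.Lib.SM.C.Kum
import Pool.Agent.Lib.SM.C.H90U

/-!
# SMITH, block C, piece 2: Kummer theory over `kbar(t)` for `μ_M`, `M = 2^e`

A locally constant homomorphism `χ : H → μ_M` is `h ↦ h y / y` (Hilbert 90), `y ^ M` is fixed by `H`,
so it is a quotient of two polynomials in `t` over the constants, that is a constant (an `M`-th
power) times a product of factors `(t - α)^{±1}`; `y` is a constant times the product of the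
`M`-th roots of these factors.
-/

set_option autoImplicit false

namespace Pool.Agent.SmithC

open Pool.Agent.SmF Polynomial

variable {k Ω : Type} [Field k] [Field Ω] [Algebra (RatFunc k) Ω]

private theorem KumU_add {A : Type} [AddCommGroup A] (a b c y r s : A)
    (h : a + -b + c = y + -r + s) : a + -y = b + -r + -(c + -s) := by
  have h1 : a = y + -r + s + (b - c) := by rw [← h]; abel
  rw [h1]
  abel

private theorem KumU_mul {A : Type} [CommGroup A] (a b c y r s : A)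
    (h : a * b⁻¹ * c = y * r⁻¹ * s) : a * y⁻¹ = b * r⁻¹ * (c * s⁻¹)⁻¹ :=
  KumU_add (A := Additive A) a b c y r s h

private theorem KumU_root (h2 : (2 : k) ≠ 0) [IsSepClosure (RatFunc k) Ω] (e : ℕ) {f : Ω}
    (hf : f ≠ 0) : ∃ r : Ωˣ, (r : Ω) ^ (2 ^ e) = f := by
  have hsc : IsSepClosed Ω := IsSepClosure.sep_closed (RatFunc k)
  have h2' : (2 : Ω) ≠ 0 := kum_two h2
  have : NeZero ((2 ^ e : ℕ) : Ω) := ⟨by rw [Nat.cast_pow]; exact pow_ne_zero _ h2'⟩
  obtain ⟨z, hz⟩ := IsSepClosed.exists_pow_nat_eq f (2 ^ e)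
  have hz0 : z ≠ 0 := by
    rintro rfl
    rw [zero_pow (by positivity)] at hz
    exact hf hz.symm
  exact ⟨Units.mk0 z hz0, hz⟩

theorem rtU_spec (h2 : (2 : k) ≠ 0) [IsSepClosure (RatFunc k) Ω] (e : ℕ) {f : Ω} (hf : f ≠ 0) :
    (rtU (2 ^ e) f : Ω) ^ (2 ^ e) = f := by
  unfold rtU
  rw [dif_pos (KumU_root (k := k) h2 e hf)]
  exact (KumU_root (k := k) h2 e hf).choose_spec

private theorem KumU_smul_val (g : GG k Ω) (u : Ωˣ) : ((g • u : Ωˣ) : Ω) = g (u : Ω) := rfl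

/-- The Kummer symbol is an `M`-th root of unity if `h` fixes `f`. -/
theorem kumU_pow (h2 : (2 : k) ≠ 0) [IsSepClosure (RatFunc k) Ω] (e : ℕ) {f : Ω} (hf : f ≠ 0)
    {h : GG k Ω} (hh : h f = f) : kumU (2 ^ e) f h ^ (2 ^ e) = 1 := by
  apply Units.ext
  unfold kumU
  rw [mul_pow, inv_pow, Units.val_mul, Units.val_inv_eq_inv_val, Units.val_pow_eq_pow_val,
    Units.val_pow_eq_pow_val, KumU_smul_val, ← map_pow, rtU_spec h2 e hf, hh, mul_inv_cancel₀ hf,
    Units.val_one]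

private theorem KumU_pow_val {M : ℕ} [NeZero M] {u : Ωˣ} (hu : u ^ M = 1) (a b : ZMod M) :
    u ^ (a + b).val = u ^ a.val * u ^ b.val := by
  rw [ZMod.val_add, ← pow_add]
  exact (pow_eq_pow_mod _ hu).symm

private theorem KumU_pow_one {M : ℕ} [NeZero M] {u : Ωˣ} (hu : u ^ M = 1) :
    u ^ (1 : ZMod M).val = u := by
  rw [ZMod.val_one_eq_one_mod, ← pow_eq_pow_mod 1 hu, pow_one]

/-- `psiU` is additive in `m` (for `m` supported in the constants and `h ∈ H`). -/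
theorem psiU_add (h2 : (2 : k) ≠ 0) [IsSepClosure (RatFunc k) Ω] (e : ℕ) (m m' : Ω →₀ ZMod (2 ^ e))
    (ht : ∀ α : Ω, IsCst k α → tt k Ω - α ≠ 0)
    (hm : ∀ α ∈ m.support, IsCst k α) (hm' : ∀ α ∈ m'.support, IsCst k α)
    {h : GG k Ω} (hh : h ∈ HH k Ω) :
    psiU k (2 ^ e) (m + m') h = psiU k (2 ^ e) m h * psiU k (2 ^ e) m' h := by
  classical
  have hu : ∀ α : Ω, IsCst k α → kumU (2 ^ e) (tt k Ω - α) h ^ (2 ^ e) = 1 := fun α hα =>
    kumU_pow h2 e (ht α hα) (by rw [map_sub, kum_tt, hh α hα])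
  unfold psiU
  rw [Finsupp.prod_of_support_subset (m + m') Finsupp.support_add _ (by intro i _; simp),
    Finsupp.prod_of_support_subset m Finset.subset_union_left _ (by intro i _; simp),
    Finsupp.prod_of_support_subset m' Finset.subset_union_right _ (by intro i _; simp),
    ← Finset.prod_mul_distrib]
  refine Finset.prod_congr rfl fun α hα => ?_
  have hα' : IsCst k α := by
    rcases Finset.mem_union.1 hα with h1 | h1
    · exact hm α h1
    · exact hm' α h1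
  rw [Finsupp.add_apply]
  exact KumU_pow_val (hu α hα') _ _

theorem psiU_zero (M : ℕ) (h : GG k Ω) : psiU k M (0 : Ω →₀ ZMod M) h = 1 := by
  unfold psiU
  rw [Finsupp.prod_zero_index]

theorem psiU_neg (h2 : (2 : k) ≠ 0) [IsSepClosure (RatFunc k) Ω] (e : ℕ) (m : Ω →₀ ZMod (2 ^ e))
    (ht : ∀ α : Ω, IsCst k α → tt k Ω - α ≠ 0)
    (hm : ∀ α ∈ m.support, IsCst k α) {h : GG k Ω} (hh : h ∈ HH k Ω) :
    psiU k (2 ^ e) (-m) h = (psiU k (2 ^ e) m h)⁻¹ := by
  have h3 := psiU_add h2 e m (-m) ht hm (by rw [Finsupp.support_neg]; exact hm) hh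
  rw [add_neg_cancel, psiU_zero] at h3
  exact (inv_eq_of_mul_eq_one_right h3.symm).symm

/-- a root of unity of order dividing `M` lies in the field of constants. -/
private theorem KumU_unity (κ : Subfield Ω) [IsAlgClosed κ] {M : ℕ} (hM : 0 < M) {ζ : Ω}
    (hζ : ζ ^ M = 1) : ζ ∈ κ := by
  have hint : IsIntegral κ ζ := by
    refine ⟨X ^ M - C 1, monic_X_pow_sub_C 1 hM.ne', ?_⟩
    rw [eval₂_sub, eval₂_X_pow, eval₂_C, hζ, map_one, sub_self]
  have h1 := IsAlgClosed.degree_eq_one_of_irreducible κ (minpoly.irreducible hint)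
  obtain ⟨c, hc⟩ := minpoly.mem_range_of_degree_eq_one κ ζ h1
  rw [← hc]
  exact c.2

/-- the product of the symbols over a multiset of constants -/
private theorem KumU_multiset (h2 : (2 : k) ≠ 0) [IsSepClosure (RatFunc k) Ω] (e : ℕ)
    (κ : Subfield Ω) (hκ : ∀ x, x ∈ κ ↔ IsCst k x) (ht : ∀ α : Ω, IsCst k α → tt k Ω - α ≠ 0)
    {h : GG k Ω} (hh : h ∈ HH k Ω) (S : Multiset κ) :
    (∀ α ∈ ((S.map fun α : κ => Finsupp.single (α : Ω) (1 : ZMod (2 ^ e))).sum).support,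
      IsCst k α) ∧
    psiU k (2 ^ e) ((S.map fun α : κ => Finsupp.single (α : Ω) (1 : ZMod (2 ^ e))).sum) h =
      (S.map fun α : κ => kumU (2 ^ e) (tt k Ω - (α : Ω)) h).prod := by
  classical
  induction S using Multiset.induction_on with
  | empty =>
    refine ⟨by simp, ?_⟩
    rw [Multiset.map_zero, Multiset.sum_zero, psiU_zero, Multiset.map_zero, Multiset.prod_zero]
  | cons a S ih =>
    have ha : ∀ α ∈ (Finsupp.single (a : Ω) (1 : ZMod (2 ^ e))).support, IsCst k α := by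
      intro α hα
      have h3 := Finsupp.support_single_subset hα
      rw [Finset.mem_singleton] at h3
      rw [h3]
      exact (hκ _).1 a.2
    constructor
    · intro α hα
      rw [Multiset.map_cons, Multiset.sum_cons] at hα
      rcases Finset.mem_union.1 (Finsupp.support_add hα) with h1 | h1
      · exact ha α h1
      · exact ih.1 α h1
    · rw [Multiset.map_cons, Multiset.sum_cons, Multiset.map_cons, Multiset.prod_cons,
        psiU_add h2 e _ _ ht ha ih.1 hh, ih.2]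
      congr 1
      unfold psiU
      rw [Finsupp.prod_single_index (by rw [ZMod.val_zero, pow_zero])]
      exact KumU_pow_one (kumU_pow h2 e (ht _ ((hκ _).1 a.2)) (by
        rw [map_sub, kum_tt, hh _ ((hκ _).1 a.2)]))

/-- The `M`-th root of a polynomial in `t`. -/
private theorem KumU_poly (h2 : (2 : k) ≠ 0) [IsSepClosure (RatFunc k) Ω] (e : ℕ)
    (κ : Subfield Ω) (hκ : ∀ x, x ∈ κ ↔ IsCst k x) [IsAlgClosed κ]
    (ht : ∀ α : Ω, IsCst k α → tt k Ω - α ≠ 0) (p : κ[X]) (hp : p ≠ 0) :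
    ∃ y : Ωˣ, (y : Ω) ^ (2 ^ e) = aeval (tt k Ω) p ∧ ∀ h ∈ HH k Ω, h • y * y⁻¹ =
      (p.roots.map fun α : κ => kumU (2 ^ e) (tt k Ω - (α : Ω)) h).prod := by
  have hlc : p.leadingCoeff ≠ 0 := leadingCoeff_ne_zero.2 hp
  obtain ⟨d, hd⟩ := IsAlgClosed.exists_pow_nat_eq p.leadingCoeff (n := 2 ^ e) (by positivity)
  have hd0 : d ≠ 0 := by
    rintro rfl
    rw [zero_pow (by positivity)] at hd
    exact hlc hd.symm
  have hd0' : (d : Ω) ≠ 0 := by
    rw [Ne, ZeroMemClass.coe_eq_zero]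
    exact hd0
  have key : ∀ S : Multiset κ, ∃ y : Ωˣ, (y : Ω) ^ (2 ^ e) =
      (S.map fun α : κ => (tt k Ω - (α : Ω))).prod ∧ ∀ h ∈ HH k Ω, h • y * y⁻¹ =
      (S.map fun α : κ => kumU (2 ^ e) (tt k Ω - (α : Ω)) h).prod := by
    intro S
    induction S using Multiset.induction_on with
    | empty =>
      refine ⟨1, by simp, fun h _ => ?_⟩
      rw [smul_one, mul_inv_cancel, Multiset.map_zero, Multiset.prod_zero]
    | cons a S ih =>
      obtain ⟨y, hy, hy'⟩ := ih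
      refine ⟨rtU (2 ^ e) (tt k Ω - (a : Ω)) * y, ?_, fun h hh => ?_⟩
      · rw [Units.val_mul, mul_pow, rtU_spec h2 e (ht _ ((hκ _).1 a.2)), hy, Multiset.map_cons,
          Multiset.prod_cons]
      · rw [Multiset.map_cons, Multiset.prod_cons, ← hy' h hh, smul_mul', mul_inv]
        unfold kumU
        rw [mul_mul_mul_comm]
  obtain ⟨y, hy, hy'⟩ := key p.roots
  refine ⟨Units.mk0 (d : Ω) hd0' * y, ?_, fun h hh => ?_⟩
  · rw [Units.val_mul, mul_pow, hy, Units.val_mk0]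
    conv_rhs => rw [(IsAlgClosed.splits p).eq_prod_roots]
    rw [map_mul, aeval_C, map_multiset_prod, Multiset.map_map]
    congr 1
    · rw [← hd]
      rfl
    · congr 1
      apply Multiset.map_congr rfl
      intro α _
      change tt k Ω - (α : Ω) = aeval (tt k Ω) (X - C α)
      rw [map_sub, aeval_X, aeval_C]
      rfl
  · rw [← hy' h hh, smul_mul', mul_inv, mul_mul_mul_comm]
    have h3 : h • Units.mk0 (d : Ω) hd0' = Units.mk0 (d : Ω) hd0' := by
      apply Units.ext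
      rw [KumU_smul_val]
      exact kum_fix κ hκ hh d
    rw [h3, mul_inv_cancel, one_mul]

/-- Kummer theory over `κ(t)` for a coboundary `χ h = h y / y` with values in `μ_M`. -/
theorem kummerU_aux (h2 : (2 : k) ≠ 0) [IsSepClosure (RatFunc k) Ω] (e : ℕ) (κ : Subfield Ω)
    (hκ : ∀ x, x ∈ κ ↔ IsCst k x) [IsAlgClosed κ] (ht : Transcendental κ (tt k Ω))
    (hk : ∀ a : k, algebraMap (RatFunc k) Ω (RatFunc.C a) ∈ κ)
    (χ : GG k Ω → Ωˣ) (hM : ∀ s, χ s ^ (2 ^ e) = 1) (y : Ωˣ)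
    (hy : ∀ s ∈ HH k Ω, χ s = s • y * y⁻¹) :
    ∃ m : Ω →₀ ZMod (2 ^ e), (∀ α ∈ m.support, IsCst k α) ∧
      ∀ h ∈ HH k Ω, χ h = psiU k (2 ^ e) m h := by
  classical
  have ht' : ∀ α : Ω, IsCst k α → tt k Ω - α ≠ 0 := by
    intro α hα h
    apply X_sub_C_ne_zero (⟨α, (hκ α).2 hα⟩ : κ)
    apply (transcendental_iff.1 ht)
    rw [map_sub, aeval_X, aeval_C]
    exact h
  -- `y ^ M` is a quotient of polynomials in `t`
  have hmem : (y : Ω) ^ (2 ^ e) ∈ Kb κ hk := by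
    rw [← fixed_HH κ hκ hk, IntermediateField.mem_fixedField_iff]
    intro g hg
    have h3 : g • y = χ g * y := by rw [hy g hg, inv_mul_cancel_right]
    have h4 : g (y : Ω) = (χ g : Ω) * (y : Ω) := congrArg Units.val h3
    rw [map_pow, h4, mul_pow]
    have h5 : (χ g : Ω) ^ (2 ^ e) = 1 := by
      rw [← Units.val_pow_eq_pow_val, hM, Units.val_one]
    rw [h5, one_mul]
  obtain ⟨r, s, hrs⟩ := (mem_Kb κ hk _).1 hmem
  have hy0 : (y : Ω) ^ (2 ^ e) ≠ 0 := pow_ne_zero _ y.ne_zero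
  have hr : r ≠ 0 := by
    rintro rfl
    rw [map_zero, zero_div] at hrs
    exact hy0 hrs
  have hs : s ≠ 0 := by
    rintro rfl
    rw [map_zero, div_zero] at hrs
    exact hy0 hrs
  obtain ⟨yr, hyr, hyr'⟩ := KumU_poly h2 e κ hκ ht' r hr
  obtain ⟨ys, hys, hys'⟩ := KumU_poly h2 e κ hκ ht' s hs
  -- `y` is a root of unity times `yr / ys`
  have hζ : ((y * yr⁻¹ * ys : Ωˣ) : Ω) ^ (2 ^ e) = 1 := by
    rw [Units.val_mul, Units.val_mul, Units.val_inv_eq_inv_val, mul_pow, mul_pow, inv_pow, hyr,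
      hys, hrs]
    have h3 : aeval (tt k Ω) r ≠ 0 := by rw [← hyr]; exact pow_ne_zero _ yr.ne_zero
    have h4 : aeval (tt k Ω) s ≠ 0 := by rw [← hys]; exact pow_ne_zero _ ys.ne_zero
    field_simp
  have hζκ : ((y * yr⁻¹ * ys : Ωˣ) : Ω) ∈ κ := KumU_unity κ (by positivity) hζ
  have hfixζ : ∀ h ∈ HH k Ω, h • (y * yr⁻¹ * ys) = y * yr⁻¹ * ys := by
    intro h hh
    apply Units.ext
    rw [KumU_smul_val]
    exact hh _ ((hκ _).1 hζκ)
  let P : Multiset κ → (Ω →₀ ZMod (2 ^ e)) := fun S =>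
    (S.map fun α : κ => Finsupp.single (α : Ω) (1 : ZMod (2 ^ e))).sum
  have hP : ∀ S : Multiset κ, ∀ α ∈ (P S).support, IsCst k α := fun S =>
    (KumU_multiset h2 e κ hκ ht' (HH k Ω).one_mem S).1
  refine ⟨P r.roots + -P s.roots, ?_, fun h hh => ?_⟩
  · intro α hα
    rcases Finset.mem_union.1 (Finsupp.support_add hα) with h1 | h1
    · exact hP _ α h1
    · rw [Finsupp.support_neg] at h1
      exact hP _ α h1
  · rw [psiU_add h2 e _ _ ht' (hP _) (by rw [Finsupp.support_neg]; exact hP _) hh,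
      psiU_neg h2 e _ ht' (hP _) hh, (KumU_multiset h2 e κ hκ ht' hh r.roots).2,
      (KumU_multiset h2 e κ hκ ht' hh s.roots).2, ← hyr' h hh, ← hys' h hh, hy h hh]
    have h3 := hfixζ h hh
    rw [smul_mul', smul_mul', smul_inv'] at h3
    exact KumU_mul _ _ _ _ _ _ h3

/-- PIECE 2 (Kummer theory over `kbar(t)`). -/
theorem kummerU [Finite k] (h2 : (2 : k) ≠ 0) [IsSepClosure (RatFunc k) Ω] (e : ℕ)
    (χ : GG k Ω → Ωˣ) (hM : ∀ s, χ s ^ (2 ^ e) = 1) (hχ : LCOn (HH k Ω) χ)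
    (hhom : ∀ s ∈ HH k Ω, ∀ t ∈ HH k Ω, χ (s * t) = χ s * χ t) :
    ∃ m : Ω →₀ ZMod (2 ^ e), (∀ α ∈ m.support, IsCst k α) ∧
      ∀ h ∈ HH k Ω, χ h = psiU k (2 ^ e) m h := by
  obtain ⟨κ, hκ, hac, ht, hk⟩ := exists_cstField (k := k) (Ω := Ω) h2
  obtain ⟨y, hy⟩ := h90U (HH k Ω) χ hχ (by
    intro s hs t ht
    rw [hhom s hs t ht]
    congr 1
    apply Units.ext
    rw [KumU_smul_val]
    have h3 : ((χ t : Ωˣ) : Ω) ∈ κ := KumU_unity κ (M := 2 ^ e) (by positivity) (by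
      rw [← Units.val_pow_eq_pow_val, hM, Units.val_one])
    exact (hs _ ((hκ _).1 h3)).symm)
  exact kummerU_aux h2 e κ hκ ht hk χ hM y hy

end Pool.Agent.SmithC
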