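import Pool.Agent.Lib.SM.C.Kap

set_option autoImplicit false

/-!
SMITH, block C: the finite levels `Hn n = Gal(Ω / F_{q^n}(t))` between `H = Gal(Ω / kbar(t))`
and `G`.
-/

namespace Pool.Agent.SmithC

open Polynomial

variable (k Ω : Type) [Field k] [Field Ω] [Algebra (RatFunc k) Ω]

/-- The subgroup fixing the constants of level `n`. -/
def Hn (n : ℕ) : Subgroup (GG k Ω) where
  carrier := {g | ∀ x : Ω, x ^ (Nat.card k ^ n) = x → g x = x}
  one_mem' := fun _ _ => rfl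
  mul_mem' := by
    intro a b ha hb x hx
    have h1 : (a * b) x = a (b x) := rfl
    rw [h1, hb x hx, ha x hx]
  inv_mem' := by
    intro a ha x hx
    have h1 : a⁻¹ x = a⁻¹ (a x) := by rw [ha x hx]
    rw [h1]
    exact a.symm_apply_apply x

variable {k Ω}

theorem mem_Hn {n : ℕ} {g : GG k Ω} :
    g ∈ Hn k Ω n ↔ ∀ x : Ω, x ^ (Nat.card k ^ n) = x → g x = x := Iff.rfl

instance Hn_normal (n : ℕ) : (Hn k Ω n).Normal := by
  refine ⟨fun h hh g => ?_⟩
  intro x hx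
  change g (h (g⁻¹ x)) = x
  rw [hh _ (by rw [← map_pow, hx])]
  exact g.apply_symm_apply x

theorem HH_le_Hn {n : ℕ} (hn : 0 < n) : HH k Ω ≤ Hn k Ω n :=
  fun _ hg x hx => hg x ⟨n, hn, hx⟩

theorem pow_pow_mul (x : Ω) (q n m : ℕ) (hx : x ^ q ^ n = x) : x ^ q ^ (n * m) = x := by
  induction m with
  | zero => simp
  | succ m ih => rw [Nat.mul_succ, pow_add, pow_mul, ih, hx]

theorem Hn_mono {n m : ℕ} (h : n ∣ m) : Hn k Ω m ≤ Hn k Ω n := by
  obtain ⟨l, rfl⟩ := h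
  exact fun g hg x hx => hg x (pow_pow_mul x _ n l hx)

theorem finite_level [Finite k] {n : ℕ} (hn : 0 < n) :
    {x : Ω | x ^ (Nat.card k ^ n) = x}.Finite := by
  have hq : 1 < Nat.card k ^ n := Nat.one_lt_pow hn.ne' Finite.one_lt_card
  have h0 : (X ^ (Nat.card k ^ n) - X : Polynomial Ω) ≠ 0 := FiniteField.X_pow_card_sub_X_ne_zero Ω hq
  refine (Polynomial.finite_setOfPred_isRoot h0).subset fun x hx => ?_
  change IsRoot _ x
  rw [IsRoot.def, eval_sub, eval_pow, eval_X]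
  exact sub_eq_zero.2 hx

theorem isOpen_Hn [Finite k] [IsSepClosure (RatFunc k) Ω] {n : ℕ} (hn : 0 < n) :
    IsOpen (Hn k Ω n : Set (GG k Ω)) := by
  have hgal : IsGalois (RatFunc k) Ω := IsSepClosure.isGalois
  have h1 : (Hn k Ω n : Set (GG k Ω)) = ⋂ x ∈ {x : Ω | x ^ (Nat.card k ^ n) = x},
      (MulAction.stabilizer (GG k Ω) x : Set (GG k Ω)) := by
    ext g
    rw [Set.mem_iInter₂]
    exact Iff.rfl
  rw [h1]
  exact (finite_level hn).isOpen_biInter fun x _ => stabilizer_isOpen_of_isIntegral (K := RatFunc k) x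

theorem exists_Hn_le [Finite k] [IsSepClosure (RatFunc k) Ω] (N : Subgroup (GG k Ω)) [N.Normal]
    (hN : IsOpen (N : Set (GG k Ω))) : ∃ n : ℕ, 0 < n ∧ Hn k Ω n ≤ HH k Ω ⊔ N := by
  have hgal : IsGalois (RatFunc k) Ω := IsSepClosure.isGalois
  have hU : IsOpen ((HH k Ω ⊔ N : Subgroup (GG k Ω)) : Set (GG k Ω)) :=
    Subgroup.isOpen_mono le_sup_right hN
  have hcpt : IsCompact (((HH k Ω ⊔ N : Subgroup (GG k Ω)) : Set (GG k Ω))ᶜ) :=
    hU.isClosed_compl.isCompact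
  obtain ⟨n, hn⟩ := hcpt.elim_directed_family_closed
    (fun n : ℕ => (Hn k Ω n.factorial : Set (GG k Ω)))
    (fun n => Subgroup.isClosed_of_isOpen _ (isOpen_Hn n.factorial_pos))
    (by
      rw [Set.eq_empty_iff_forall_notMem]
      rintro g ⟨h1, h2⟩
      apply h1
      apply (le_sup_left : HH k Ω ≤ HH k Ω ⊔ N)
      rintro x ⟨n, hn, hx⟩
      rw [Set.mem_iInter] at h2
      exact Hn_mono (Nat.dvd_factorial hn le_rfl) (h2 n) x hx)
    (by
      apply directed_of_isDirected_le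
      intro a b hab
      exact Hn_mono (Nat.factorial_dvd_factorial hab))
  refine ⟨n.factorial, n.factorial_pos, fun g hg => ?_⟩
  by_contra h
  have : g ∈ ((((HH k Ω ⊔ N : Subgroup (GG k Ω)) : Set (GG k Ω))ᶜ) ∩
      (Hn k Ω n.factorial : Set (GG k Ω))) := ⟨h, hg⟩
  rw [hn] at this
  exact this

theorem IsCst.pow {x : Ω} (hx : IsCst k x) (m : ℕ) : IsCst k (x ^ m) := by
  obtain ⟨n, hn, h⟩ := hx
  exact ⟨n, hn, by rw [← pow_mul, mul_comm, pow_mul, h]⟩

theorem frob_pow {σ : GG k Ω} (hσ : ∀ x : Ω, IsCst k x → σ x = x ^ Nat.card k) (j : ℕ) {x : Ω}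
    (hx : IsCst k x) : (σ ^ j) x = x ^ (Nat.card k ^ j) := by
  induction j with
  | zero => simp
  | succ j ih =>
    rw [pow_succ', AlgEquiv.mul_apply, ih, map_pow, hσ x hx, ← pow_mul, pow_succ', mul_comm]

theorem frob_pow_mem {σ : GG k Ω} (hσ : ∀ x : Ω, IsCst k x → σ x = x ^ Nat.card k) {n : ℕ}
    (hn : 0 < n) : σ ^ n ∈ Hn k Ω n := by
  intro x hx
  rw [frob_pow hσ n ⟨n, hn, hx⟩, hx]

/-- facts on the characteristic -/
theorem card_eq_pow [Finite k] : ∃ p f : ℕ, p.Prime ∧ 0 < f ∧ Nat.card k = p ^ f ∧ CharP Ω p ∧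
    CharP k p := by
  have : Fintype k := Fintype.ofFinite k
  obtain ⟨p, hp⟩ := CharP.exists k
  obtain ⟨n, hpr, hn⟩ := FiniteField.card k p
  refine ⟨p, n, hpr, n.pos, by rw [Nat.card_eq_fintype_card, hn], ?_, hp⟩
  exact charP_of_injective_ringHom
    (f := (algebraMap (RatFunc k) Ω).comp (algebraMap k (RatFunc k))) (RingHom.injective _) p

theorem exists_prim [Finite k] (h2 : (2 : k) ≠ 0) [IsSepClosure (RatFunc k) Ω] {n : ℕ}
    (hn : 0 < n) : ∃ ζ : Ω, IsPrimitiveRoot ζ (Nat.card k ^ n - 1) ∧ 2 ≤ Nat.card k ^ n - 1 := by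
  have hsc : IsSepClosed Ω := IsSepClosure.sep_closed (RatFunc k)
  obtain ⟨p, f, hp, hf, hq, hΩ, hk⟩ := card_eq_pow (k := k) (Ω := Ω)
  have hp2 : p ≠ 2 := by
    rintro rfl
    apply h2
    exact_mod_cast (CharP.cast_eq_zero k 2)
  have hp3 : 3 ≤ p := by
    have := hp.two_le
    omega
  have h3 : 3 ≤ Nat.card k ^ n := by
    rw [hq, ← pow_mul]
    calc 3 ≤ p := hp3
      _ = p ^ 1 := (pow_one p).symm
      _ ≤ p ^ (f * n) := Nat.pow_le_pow_right hp.pos (Nat.mul_pos hf hn)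
  have hne : ((Nat.card k ^ n - 1 : ℕ) : Ω) ≠ 0 := by
    rw [Nat.cast_sub (by omega), hq, ← pow_mul, Nat.cast_pow, CharP.cast_eq_zero, zero_pow
      (Nat.mul_pos hf hn).ne']
    simp
  have : NeZero ((Nat.card k ^ n - 1 : ℕ) : Ω) := ⟨hne⟩
  obtain ⟨ζ, hζ⟩ := HasEnoughRootsOfUnity.exists_primitiveRoot Ω (Nat.card k ^ n - 1)
  exact ⟨ζ, hζ, by omega⟩

theorem prim_level {n : ℕ} {ζ : Ω} (hζ : ζ ^ (Nat.card k ^ n - 1) = 1)
    (h : 2 ≤ Nat.card k ^ n - 1) : ζ ^ (Nat.card k ^ n) = ζ := by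
  have : Nat.card k ^ n = (Nat.card k ^ n - 1) + 1 := by omega
  rw [this, pow_succ, hζ, one_mul]

/-- minimality of `n` -/
theorem frob_zpow_mem [Finite k] (h2 : (2 : k) ≠ 0) [IsSepClosure (RatFunc k) Ω] {σ : GG k Ω}
    (hσ : ∀ x : Ω, IsCst k x → σ x = x ^ Nat.card k) {n : ℕ} (hn : 0 < n) (i : ℤ)
    (hi : σ ^ i ∈ Hn k Ω n) : (n : ℤ) ∣ i := by
  obtain ⟨ζ, hζ, hQ⟩ := exists_prim (k := k) (Ω := Ω) h2 hn
  have hn' : (0 : ℤ) < n := by exact_mod_cast hn
  obtain ⟨r, hr⟩ : ∃ r : ℕ, (r : ℤ) = i % n := ⟨(i % n).toNat, Int.toNat_of_nonneg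
    (Int.emod_nonneg i hn'.ne')⟩
  have hr2 : r < n := by
    have := Int.emod_lt_of_pos i hn'
    omega
  have hmem : σ ^ r ∈ Hn k Ω n := by
    have e : (r : ℤ) = i - n * (i / n) := by
      rw [hr]
      have := Int.emod_add_mul_ediv i n
      linarith
    rw [← zpow_natCast, e, zpow_sub, zpow_mul]
    refine (Hn k Ω n).mul_mem hi ((Hn k Ω n).inv_mem ((Hn k Ω n).zpow_mem ?_ _))
    rw [zpow_natCast]
    exact frob_pow_mem hσ hn
  have hζn : ζ ^ (Nat.card k ^ n) = ζ := prim_level hζ.pow_eq_one hQ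
  have h1 := hmem ζ hζn
  rw [frob_pow hσ r ⟨n, hn, hζn⟩] at h1
  have hζ0 : ζ ≠ 0 := hζ.ne_zero (by omega)
  have hq1 : 1 < Nat.card k := Finite.one_lt_card
  have hpos : 0 < Nat.card k ^ r := by positivity
  have h3 : ζ ^ (Nat.card k ^ r - 1) = 1 := by
    have e : Nat.card k ^ r = (Nat.card k ^ r - 1) + 1 := by omega
    rw [e, pow_succ] at h1
    exact mul_right_cancel₀ hζ0 (h1.trans (one_mul ζ).symm)
  have h4 : (Nat.card k ^ n - 1) ∣ (Nat.card k ^ r - 1) := hζ.dvd_of_pow_eq_one _ h3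
  have h5 : Nat.card k ^ r < Nat.card k ^ n := Nat.pow_lt_pow_right hq1 hr2
  have h6 : Nat.card k ^ r - 1 = 0 := Nat.eq_zero_of_dvd_of_lt h4 (by omega)
  have h7 : r = 0 := by
    by_contra hr0
    have := Nat.one_lt_pow hr0 hq1
    omega
  rw [h7] at hr
  exact Int.dvd_of_emod_eq_zero (by rw [← hr]; rfl)

/-- an element of `Ω` fixed by the `q`-power map lies in `k` -/
theorem mem_of_pow_eq [Finite k] {c : Ω} (hc : c ^ Nat.card k = c) :
    ∃ a : k, algebraMap (RatFunc k) Ω (algebraMap k (RatFunc k) a) = c := by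
  classical
  have : Fintype k := Fintype.ofFinite k
  set ι : k →+* Ω := (algebraMap (RatFunc k) Ω).comp (algebraMap k (RatFunc k)) with hι
  have hq : 1 < Nat.card k := Finite.one_lt_card
  have h0 : (X ^ (Nat.card k) - X : Polynomial Ω) ≠ 0 := FiniteField.X_pow_card_sub_X_ne_zero Ω hq
  have hdeg : (X ^ (Nat.card k) - X : Polynomial Ω).natDegree = Nat.card k :=
    FiniteField.X_pow_card_sub_X_natDegree_eq Ω hq
  have hroot : ∀ x : Ω, x ∈ (X ^ (Nat.card k) - X : Polynomial Ω).roots.toFinset ↔ x ^ Nat.card k = x := by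
    intro x
    rw [Multiset.mem_toFinset, mem_roots h0, IsRoot.def, eval_sub, eval_pow, eval_X, sub_eq_zero]
  have hsub : Finset.univ.image ι ⊆ (X ^ (Nat.card k) - X : Polynomial Ω).roots.toFinset := by
    intro x hx
    obtain ⟨a, -, rfl⟩ := Finset.mem_image.1 hx
    rw [hroot, ← map_pow, Nat.card_eq_fintype_card, FiniteField.pow_card]
  have hcard : (X ^ (Nat.card k) - X : Polynomial Ω).roots.toFinset.card ≤ (Finset.univ.image ι).card := by
    rw [Finset.card_image_of_injective _ ι.injective, Finset.card_univ]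
    calc _ ≤ Multiset.card (X ^ (Nat.card k) - X : Polynomial Ω).roots := Multiset.toFinset_card_le _
      _ ≤ (X ^ (Nat.card k) - X : Polynomial Ω).natDegree := card_roots' _
      _ = _ := by rw [hdeg, Nat.card_eq_fintype_card]
  have heq := Finset.eq_of_subset_of_card_le hsub hcard
  have h1 : c ∈ Finset.univ.image ι := by
    rw [heq, hroot]
    exact hc
  obtain ⟨a, -, ha⟩ := Finset.mem_image.1 h1
  exact ⟨a, ha⟩

/-- the Frobenius generates the Galois group of the level `n` -/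
theorem frob_gen [Finite k] (h2 : (2 : k) ≠ 0) [IsSepClosure (RatFunc k) Ω] {σ : GG k Ω}
    (hσ : ∀ x : Ω, IsCst k x → σ x = x ^ Nat.card k) {n : ℕ} (hn : 0 < n) (g : GG k Ω) :
    ∃ i : ℤ, (σ ^ i)⁻¹ * g ∈ Hn k Ω n := by
  classical
  obtain ⟨ζ, hζ, hQ⟩ := exists_prim (k := k) (Ω := Ω) h2 hn
  have hζn : ζ ^ (Nat.card k ^ n) = ζ := prim_level hζ.pow_eq_one hQ
  obtain ⟨p, f, hp, hf, hq, hΩ, hk⟩ := card_eq_pow (k := k) (Ω := Ω)
  have hpf : Fact p.Prime := ⟨hp⟩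
  set F : Ω →+* Ω := iterateFrobenius Ω p f with hF
  have hFx : ∀ x : Ω, F x = x ^ Nat.card k := fun x => by
    rw [hF, iterateFrobenius_def, hq]
  set P : Polynomial Ω := ∏ i ∈ Finset.range n, (X - C (ζ ^ (Nat.card k ^ i))) with hP
  have hPF : P.map F = P := by
    rw [hP, Polynomial.map_prod]
    have e : ∀ i ∈ Finset.range n, (X - C (ζ ^ (Nat.card k ^ i)) : Polynomial Ω).map F
        = (X - C (ζ ^ (Nat.card k ^ (i + 1)))) := by
      intro i _
      rw [Polynomial.map_sub, map_X, map_C, hFx, ← pow_mul, ← pow_succ]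
    rw [Finset.prod_congr rfl e]
    obtain ⟨m, rfl⟩ : ∃ m, n = m + 1 := ⟨n - 1, by omega⟩
    rw [Finset.prod_range_succ, Finset.prod_range_succ']
    rw [hζn, pow_zero, pow_one]
  have hcoef : ∀ i : ℕ, g (P.coeff i) = P.coeff i := by
    intro i
    have h1 : F (P.coeff i) = P.coeff i := by
      rw [← coeff_map, hPF]
    rw [hFx] at h1
    obtain ⟨a, ha⟩ := mem_of_pow_eq (k := k) h1
    rw [← ha]
    exact g.commutes _
  have hPg : P.map (g : Ω →+* Ω) = P := by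
    ext i
    rw [coeff_map]
    exact hcoef i
  have hroot : P.eval (g ζ) = 0 := by
    have h1 : P.eval ζ = 0 := by
      rw [hP, eval_prod]
      apply Finset.prod_eq_zero (Finset.mem_range.2 hn)
      rw [eval_sub, eval_X, eval_C, pow_zero, pow_one, sub_self]
    rw [← hPg, eval_map]
    have h3 := Polynomial.hom_eval₂ P (RingHom.id Ω) (g : Ω →+* Ω) ζ
    rw [RingHom.comp_id] at h3
    change eval₂ (g : Ω →+* Ω) ((g : Ω →+* Ω) ζ) P = 0
    rw [← h3]
    change (g : Ω →+* Ω) (P.eval ζ) = 0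
    rw [h1, map_zero]
  rw [hP, eval_prod, Finset.prod_eq_zero_iff] at hroot
  obtain ⟨i, hi, hi2⟩ := hroot
  rw [eval_sub, eval_X, eval_C, sub_eq_zero] at hi2
  refine ⟨i, ?_⟩
  intro x hx
  change (σ ^ (i : ℤ))⁻¹ (g x) = x
  have hσx : ((σ ^ (i : ℤ)) x) = x ^ (Nat.card k ^ i) := by
    rw [zpow_natCast]
    exact frob_pow hσ i ⟨n, hn, hx⟩
  have hgx : g x = x ^ (Nat.card k ^ i) := by
    by_cases hx0 : x = 0
    · rw [hx0, map_zero, zero_pow (pow_pos Nat.card_pos i).ne']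
    · have h1 : x ^ (Nat.card k ^ n - 1) = 1 := by
        have e : Nat.card k ^ n = (Nat.card k ^ n - 1) + 1 := by omega
        rw [e, pow_succ] at hx
        exact mul_right_cancel₀ hx0 (hx.trans (one_mul x).symm)
      have : NeZero (Nat.card k ^ n - 1) := ⟨by omega⟩
      obtain ⟨j, -, hj⟩ := hζ.eq_pow_of_pow_eq_one h1
      rw [← hj, map_pow, hi2, ← pow_mul, ← pow_mul, mul_comm]
  rw [hgx, ← hσx]
  exact (σ ^ (i : ℤ)).symm_apply_apply x

end Pool.Agent.SmithC
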