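import Pool.Agent.Lib.SM.C.MuAct
import Pool.Agent.Lib.SM.C.Levels

set_option autoImplicit false

/-!
SMITH, block C: the subgroup acting trivially on `μ_M`, `M = 2^e`, lies in `NN`.
-/

namespace Pool.Agent.SmithC

open Pool.Agent.SmD

variable {k Ω : Type} [Field k] [Field Ω] [Algebra (RatFunc k) Ω]

theorem neZero_pow (h2 : (2 : k) ≠ 0) (e : ℕ) : NeZero (((2 ^ e : ℕ) : ℕ) : Ω) := by
  refine ⟨?_⟩
  rw [Nat.cast_pow]
  exact pow_ne_zero _ (by exact_mod_cast (two_ne h2 : (2 : Ω) ≠ 0))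

theorem card_mu (h2 : (2 : k) ≠ 0) [IsSepClosure (RatFunc k) Ω] (e : ℕ) :
    Nat.card (rootsOfUnity (2 ^ e) Ω) = 2 ^ e := by
  have hsc : IsSepClosed Ω := IsSepClosure.sep_closed (RatFunc k)
  have := neZero_pow (k := k) (Ω := Ω) h2 e
  exact HasEnoughRootsOfUnity.natCard_rootsOfUnity Ω (2 ^ e)

theorem nMu_mem [Finite k] (h2 : (2 : k) ≠ 0) [IsSepClosure (RatFunc k) Ω] (e : ℕ) :
    (actMu k (Ω := Ω) (2 ^ e)).ker ∈ NN (RatFunc k) Ω := by
  have hgal : IsGalois (RatFunc k) Ω := IsSepClosure.isGalois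
  have hsc : IsSepClosed Ω := IsSepClosure.sep_closed (RatFunc k)
  have hNZ := neZero_pow (k := k) (Ω := Ω) h2 e
  have hNZ' : NeZero (2 ^ e) := ⟨by positivity⟩
  have hcard := card_mu (k := k) (Ω := Ω) h2 e
  have hfin : Finite (rootsOfUnity (2 ^ e) Ω) := Nat.finite_of_card_ne_zero (by rw [hcard]; positivity)
  have hcyc : IsCyclic (rootsOfUnity (2 ^ e) Ω) := rootsOfUnity.isCyclic Ω (2 ^ e)
  refine ⟨inferInstance, ?_, ?_⟩
  · have h1 : (((actMu k (Ω := Ω) (2 ^ e)).ker : Subgroup (GG k Ω)) : Set (GG k Ω))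
        = ⋂ u : rootsOfUnity (2 ^ e) Ω,
          (MulAction.stabilizer (GG k Ω) ((u : Ωˣ) : Ω) : Set (GG k Ω)) := by
      ext g
      rw [Set.mem_iInter]
      constructor
      · intro hg u
        have h3 : actMu k (2 ^ e) g = 1 := hg
        have h4 := congrArg (fun v : rootsOfUnity (2 ^ e) Ω => ((v : Ωˣ) : Ω)) (DFunLike.congr_fun h3 u)
        exact h4
      · intro hg
        change actMu k (2 ^ e) g = 1
        ext1 u
        apply Subtype.ext
        apply Units.ext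
        exact hg u
    rw [h1]
    exact isOpen_iInter_of_finite fun u => stabilizer_isOpen_of_isIntegral (K := RatFunc k) _
  · have h5 : (actMu k (Ω := Ω) (2 ^ e)).ker.index ∣ 2 ^ e := by
      rw [Subgroup.index_ker]
      refine (Subgroup.card_subgroup_dvd_card _).trans ?_
      rw [IsCyclic.card_mulAut, hcard]
      rcases Nat.eq_zero_or_pos e with rfl | he
      · simp
      · rw [Nat.totient_prime_pow Nat.prime_two he]
        simp only [Nat.add_one_sub_one, mul_one]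
        exact pow_dvd_pow 2 (Nat.sub_le e 1)
    obtain ⟨m, -, hm⟩ := (Nat.dvd_prime_pow Nat.prime_two).mp h5
    exact ⟨m, hm⟩

theorem nMu_triv {e : ℕ} {h : GG k Ω} (hh : h ∈ (actMu k (Ω := Ω) (2 ^ e)).ker)
    (a : rootsOfUnity (2 ^ e) Ω) : actMu k (2 ^ e) h a = a := by
  have h3 : actMu k (2 ^ e) h = 1 := hh
  rw [h3, MulAut.one_apply]

end Pool.Agent.SmithC
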