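import Pool.Agent.Lib.SM.C.Defs

/-!
# SMITH, block C, piece 3: orbit sums of the Frobenius on the constants

A finitely supported function `m` on the constants with values in an abelian group whose sum over
every Frobenius orbit vanishes is of the form `T - Frob_* T`.

Proof: let `r x` be a chosen representative of the orbit of `x`. Modulo the functions of the form
`T - Frob_* T` the point mass at `x` equals the point mass at `Frob x`, so also at `r x`; hence
`m - r_* m = T - Frob_* T`; and `r_* m = 0` by the hypothesis.
-/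

set_option autoImplicit false

namespace Pool.Agent.SmithC

section

variable {X : Type} (φ : X → X)

/-- the relation of lying in the same orbit -/
private def pairs_setoid : Setoid X where
  r x y := ∃ i j : ℕ, φ^[i] x = φ^[j] y
  iseqv :=
    { refl := fun x => ⟨0, 0, rfl⟩
      symm := fun ⟨i, j, h⟩ => ⟨j, i, h.symm⟩
      trans := by
        rintro x y z ⟨i, j, h⟩ ⟨i', j', h'⟩
        refine ⟨i' + i, j + j', ?_⟩
        rw [Function.iterate_add_apply, h, ← Function.iterate_add_apply, add_comm i' j,
          Function.iterate_add_apply, h', ← Function.iterate_add_apply] }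

/-- the chosen representative of the orbit -/
private noncomputable def pairs_rep (x : X) : X := (Quotient.mk (pairs_setoid φ) x).out

private theorem pairs_rep_spec (x : X) : ∃ i j : ℕ, φ^[i] (pairs_rep φ x) = φ^[j] x := by
  have h := @Quotient.mk_out X (pairs_setoid φ) x
  exact h

private theorem pairs_rep_eq {x y : X} (h : ∃ i j : ℕ, φ^[i] x = φ^[j] y) :
    pairs_rep φ x = pairs_rep φ y := by
  have h1 : Quotient.mk (pairs_setoid φ) x = Quotient.mk (pairs_setoid φ) y :=
    Quotient.sound (s := pairs_setoid φ) h
  unfold pairs_rep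
  rw [h1]

variable {φ}

private theorem pairs_orbit (hφ : Function.Injective φ) {x y : X} {n : ℕ} (hn : 0 < n)
    (hx : φ^[n] x = x) (h : ∃ i j : ℕ, φ^[i] y = φ^[j] x) : ∃ l : ℕ, y = φ^[l] x := by
  obtain ⟨i, j, h⟩ := h
  have h1 : φ^[n * i] x = x := by
    have h2 : Function.IsPeriodicPt φ n x := hx
    rw [mul_comm]
    exact h2.const_mul i
  have h3 : φ^[i] y = φ^[i] (φ^[j + (n * i - i)] x) := by
    rw [h, ← Function.iterate_add_apply]
    have h4 : i + (j + (n * i - i)) = j + n * i := by
      have : i ≤ n * i := Nat.le_mul_of_pos_left i hn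
      omega
    rw [h4, Function.iterate_add_apply, h1]
  exact ⟨_, hφ.iterate i h3⟩

/-- The abstract statement. -/
theorem pairs_aux {A : Type} [AddCommGroup A] (hφ : Function.Injective φ) (C : Set X) (hC : ∀ x ∈ C, φ x ∈ C)
    (hper : ∀ x ∈ C, ∃ n : ℕ, 0 < n ∧ φ^[n] x = x) (m : X →₀ A)
    (hm : ∀ x ∈ m.support, x ∈ C)
    (hsum : ∀ x ∈ C, ∀ f : ℕ, 0 < f → φ^[f] x = x → (∀ i, 0 < i → i < f → φ^[i] x ≠ x) →
      ∑ i ∈ Finset.range f, m (φ^[i] x) = 0) :
    ∃ T : X →₀ A, (∀ x ∈ T.support, x ∈ C) ∧ m = T - T.mapDomain φ := by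
  classical
  have hCi : ∀ i : ℕ, ∀ x ∈ C, φ^[i] x ∈ C := by
    intro i
    induction i with
    | zero => intro x hx; exact hx
    | succ i ih => intro x hx; rw [Function.iterate_succ_apply]; exact ih _ (hC x hx)
  -- the representative of a point of `C` lies in its orbit
  have hrep : ∀ x ∈ C, ∃ l : ℕ, pairs_rep φ x = φ^[l] x := by
    intro x hx
    obtain ⟨n, hn, h⟩ := hper x hx
    exact pairs_orbit hφ hn h (pairs_rep_spec φ x)
  -- telescoping
  have htel : ∀ (l : ℕ), ∀ x ∈ C, ∀ a : A, ∃ T : X →₀ A, (∀ y ∈ T.support, y ∈ C) ∧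
      Finsupp.single x a - Finsupp.single (φ^[l] x) a = T - T.mapDomain φ := by
    intro l
    induction l with
    | zero =>
      intro x hx a
      refine ⟨0, by simp, ?_⟩
      rw [Function.iterate_zero, id, sub_self]
      simp
    | succ l ih =>
      intro x hx a
      obtain ⟨T, hT, h⟩ := ih (φ x) (hC x hx) a
      refine ⟨T + Finsupp.single x a, ?_, ?_⟩
      · intro y hy
        rcases Finset.mem_union.1 (Finsupp.support_add hy) with h1 | h1
        · exact hT y h1
        · have h2 := Finsupp.support_single_subset h1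
          rw [Finset.mem_singleton] at h2
          rw [h2]; exact hx
      · rw [Function.iterate_succ_apply, Finsupp.mapDomain_add, Finsupp.mapDomain_single]
        have h3 : T - T.mapDomain φ = Finsupp.single (φ x) a - Finsupp.single (φ^[l] (φ x)) a :=
          h.symm
        calc Finsupp.single x a - Finsupp.single (φ^[l] (φ x)) a
            = (Finsupp.single (φ x) a - Finsupp.single (φ^[l] (φ x)) a) +
              (Finsupp.single x a - Finsupp.single (φ x) a) := by abel
          _ = (T - T.mapDomain φ) + (Finsupp.single x a - Finsupp.single (φ x) a) := by rw [h3]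
          _ = _ := by abel
  -- `m - r_* m` is of the required form
  have hall : ∀ m : X →₀ A, (∀ x ∈ m.support, x ∈ C) →
      ∃ T : X →₀ A, (∀ x ∈ T.support, x ∈ C) ∧
        m - m.mapDomain (pairs_rep φ) = T - T.mapDomain φ := by
    intro m
    induction m using Finsupp.induction with
    | zero => intro _; exact ⟨0, by simp, by simp⟩
    | single_add x a m hx ha ih =>
      intro hm
      have hxm : x ∈ (Finsupp.single x a + m).support := by
        rw [Finsupp.mem_support_iff, Finsupp.add_apply, Finsupp.single_eq_same,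
          Finsupp.notMem_support_iff.1 hx, add_zero]
        exact ha
      have hxC := hm x hxm
      obtain ⟨T, hT, h⟩ := ih (by
        intro y hy
        apply hm
        have hyx : y ≠ x := fun h => hx (h ▸ hy)
        rw [Finsupp.mem_support_iff, Finsupp.add_apply, Finsupp.single_eq_of_ne hyx, zero_add]
        exact Finsupp.mem_support_iff.1 hy)
      obtain ⟨l, hl⟩ := hrep x hxC
      obtain ⟨T', hT', h'⟩ := htel l x hxC a
      refine ⟨T' + T, ?_, ?_⟩
      · intro y hy
        rcases Finset.mem_union.1 (Finsupp.support_add hy) with h1 | h1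
        · exact hT' y h1
        · exact hT y h1
      · rw [Finsupp.mapDomain_add, Finsupp.mapDomain_single, Finsupp.mapDomain_add, hl]
        calc Finsupp.single x a + m - (Finsupp.single (φ^[l] x) a + m.mapDomain (pairs_rep φ))
            = (Finsupp.single x a - Finsupp.single (φ^[l] x) a) +
              (m - m.mapDomain (pairs_rep φ)) := by abel
          _ = (T' - T'.mapDomain φ) + (T - T.mapDomain φ) := by rw [h, h']
          _ = _ := by abel
  obtain ⟨T, hT, h⟩ := hall m hm
  refine ⟨T, hT, ?_⟩
  rw [← h]
  have hzero : m.mapDomain (pairs_rep φ) = 0 := by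
    ext y
    rw [Finsupp.zero_apply, Finsupp.mapDomain, Finsupp.sum_apply, Finsupp.sum]
    simp only [Finsupp.single_apply]
    rw [← Finset.sum_filter]
    -- the support of `m` in the orbit of `y`
    by_cases hy : ∃ x ∈ C, pairs_rep φ x = y
    · obtain ⟨x, hx, hxy⟩ := hy
      obtain ⟨l, hl⟩ := hrep x hx
      have hyC : y ∈ C := by rw [← hxy, hl]; exact hCi l x hx
      have hex : ∃ n : ℕ, 0 < n ∧ φ^[n] y = y := hper y hyC
      set f := Nat.find hex with hf
      have hf1 := Nat.find_spec hex
      have hf2 : ∀ i, 0 < i → i < f → φ^[i] y ≠ y := fun i h1 h2 h3 =>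
        Nat.find_min hex h2 ⟨h1, h3⟩
      rw [← hf] at hf1
      rw [← hsum y hyC f hf1.1 hf1.2 hf2]
      -- injectivity on `range f`
      have hinj : Set.InjOn (fun i => φ^[i] y) (Finset.range f : Set ℕ) := by
        have key : ∀ i j : ℕ, i < j → j < f → φ^[i] y ≠ φ^[j] y := by
          intro i j hij hj heq
          have h5 : φ^[i] y = φ^[i] (φ^[j - i] y) := by
            rw [← Function.iterate_add_apply, Nat.add_sub_cancel' hij.le]
            exact heq
          exact hf2 (j - i) (by omega) (by omega) (hφ.iterate i h5).symm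
        intro i hi j hj hij
        rw [Finset.coe_range, Set.mem_Iio] at hi hj
        rcases lt_trichotomy i j with h | h | h
        · exact absurd hij (key i j h hj)
        · exact h
        · exact absurd hij.symm (key j i h hi)
      rw [← Finset.sum_image (f := fun z => m z) (g := fun i => φ^[i] y) hinj]
      refine Finset.sum_subset ?_ ?_
      · intro z hz
        rw [Finset.mem_filter] at hz
        obtain ⟨hz1, hz2⟩ := hz
        have hzC := hm z hz1
        -- `z` lies in the orbit of `y`
        obtain ⟨i, j, h6⟩ := pairs_rep_spec φ z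
        rw [hz2] at h6
        obtain ⟨l', hl'⟩ := pairs_orbit hφ hf1.1 hf1.2 ⟨j, i, h6.symm⟩
        rw [Finset.mem_image]
        refine ⟨l' % f, Finset.mem_range.2 (Nat.mod_lt _ hf1.1), ?_⟩
        have h7 : Function.IsPeriodicPt φ f y := hf1.2
        change φ^[l' % f] y = z
        rw [hl', h7.iterate_mod_apply]
      · intro z hz1 hz2
        obtain ⟨i, _, rfl⟩ := Finset.mem_image.1 hz1
        by_contra h8
        apply hz2
        rw [Finset.mem_filter]
        refine ⟨Finsupp.mem_support_iff.2 h8, ?_⟩
        have h9 : pairs_rep φ (φ^[i] y) = pairs_rep φ x := by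
          apply pairs_rep_eq
          refine ⟨0, i + l, ?_⟩
          rw [Function.iterate_zero, id, Function.iterate_add_apply, ← hl, hxy]
        rw [h9, hxy]
    · refine Finset.sum_eq_zero fun x hx => ?_
      rw [Finset.mem_filter] at hx
      exact absurd ⟨x, hm x hx.1, hx.2⟩ hy
  rw [hzero, sub_zero]

end

variable {k Ω : Type} [Field k] [Field Ω] [Algebra (RatFunc k) Ω]

/-- PIECE 3 (orbit sums, any coefficient group). -/
theorem pairs [Finite k] {A : Type} [AddCommGroup A] (m : Ω →₀ A)
    (hm : ∀ α ∈ m.support, IsCst k α)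
    (hsum : ∀ α : Ω, IsCst k α → ∀ f : ℕ, 0 < f → α ^ (Nat.card k ^ f) = α →
      (∀ i, 0 < i → i < f → α ^ (Nat.card k ^ i) ≠ α) →
      ∑ i ∈ Finset.range f, m (α ^ (Nat.card k ^ i)) = 0) :
    ∃ T : Ω →₀ A, (∀ α ∈ T.support, IsCst k α) ∧
      m = T - T.mapDomain (fun x => x ^ Nat.card k) := by
  have hit : ∀ (i : ℕ) (x : Ω), (fun x : Ω => x ^ Nat.card k)^[i] x = x ^ (Nat.card k ^ i) := by
    intro i
    induction i with
    | zero => intro x; simp
    | succ i ih =>
      intro x
      rw [Function.iterate_succ_apply, ih, ← pow_mul, pow_succ, mul_comm]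
  have hinj : Function.Injective (fun x : Ω => x ^ Nat.card k) := by
    have : Fintype k := Fintype.ofFinite k
    obtain ⟨p, hp⟩ := CharP.exists k
    have hpr : Fact p.Prime := ⟨CharP.char_is_prime k p⟩
    obtain ⟨n, -, hn⟩ := FiniteField.card k p
    have h1 : CharP Ω p := by
      have h2 : Function.Injective ((algebraMap (RatFunc k) Ω).comp (RatFunc.C (K := k))) :=
        RingHom.injective _
      exact charP_of_injective_ringHom h2 p
    have h3 : ExpChar Ω p := inferInstance
    intro x y hxy
    have h4 : x ^ Nat.card k = y ^ Nat.card k := hxy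
    rw [Nat.card_eq_fintype_card, hn] at h4
    apply (iterateFrobenius Ω p n).injective
    rw [iterateFrobenius_def, iterateFrobenius_def]
    exact h4
  exact pairs_aux (φ := fun x : Ω => x ^ Nat.card k) hinj {x | IsCst k x}
    (by
      rintro x ⟨n, hn, h⟩
      refine ⟨n, hn, ?_⟩
      rw [← pow_mul, mul_comm, pow_mul, h])
    (by
      rintro x ⟨n, hn, h⟩
      exact ⟨n, hn, by rw [hit, h]⟩) m hm
    (by
      intro x hx f hf h1 h2
      simp only [hit] at h1 h2 ⊢
      exact hsum x hx f hf h1 h2)

end Pool.Agent.SmithC
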