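import Pool.Agent.Lib.SM.C.Orbit
import Pool.Agent.Lib.SM.C.NMu
import Pool.Agent.Lib.SM.C.Extend
import Pool.Agent.Lib.SM.C.FinTwo
import Pool.Agent.Lib.SM.C.TsenU
import Pool.Agent.Lib.SM.C.KumU
import Pool.Agent.Lib.SM.C.Pairs

set_option autoImplicit false

/-!
SMITH, block C: the Hasse principle for two-cocycles with values in `μ_M`, `M = 2^e`, over
`K = k(t)`, with local conditions only at the finite places (through abstract local data).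
-/

namespace Pool.Agent.SmithC

open EGrp Pool.Agent.SmD

variable {k Ω : Type} [Field k] [Field Ω] [Algebra (RatFunc k) Ω]

/-- explicit formula for the defect at the standard lift -/
theorem dfc_formula {G A : Type*} [Group G] [CommGroup A] {φ : G →* MulAut A} {f : G → G → A}
    (hf : IsTwoCoc φ f) (c : G → A) (σ g : G) :
    dfc hf c (mk hf 1 σ) g
      = φ σ ((c (σ⁻¹ * g * σ))⁻¹) * f σ (σ⁻¹ * g * σ) * (f g σ)⁻¹ * c g := by
  apply dfc_eq_of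
  rw [mul_inv_eq_iff_eq_mul, incl_mul]
  apply ext'
  · change 1 * φ σ ((c (σ⁻¹ * g * σ))⁻¹) * f σ (σ⁻¹ * g * σ)
      = φ σ ((c (σ⁻¹ * g * σ))⁻¹) * f σ (σ⁻¹ * g * σ) * (f g σ)⁻¹ * c g
        * (c g)⁻¹ * φ g 1 * f g σ
    rw [map_one (φ g), one_mul, mul_one, mul_inv_cancel_right, inv_mul_cancel_right]
  · change σ * (σ⁻¹ * g * σ) = g * σ
    group

section conv

variable {e : ℕ}

/-- restriction of a cochain to `μ_M` -/
def toMu (b : GG k Ω → Ωˣ) (hb : ∀ s, b s ^ (2 ^ e) = 1) (s : GG k Ω) : rootsOfUnity (2 ^ e) Ω :=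
  ⟨b s, hb s⟩

theorem toMu_lc {A : Subgroup (GG k Ω)} {b : GG k Ω → Ωˣ} (hb : ∀ s, b s ^ (2 ^ e) = 1)
    (h : LCOn A b) : LCOn A (toMu b hb) := by
  obtain ⟨N, h1, h2, h3⟩ := h
  exact ⟨N, h1, h2, fun s hs n hn hnA => Subtype.ext (h3 s hs n hn hnA)⟩

theorem toMu_spl {A : Subgroup (GG k Ω)} {b : GG k Ω → Ωˣ} (hb : ∀ s, b s ^ (2 ^ e) = 1)
    {c : GG k Ω → GG k Ω → Ωˣ} (hM : ∀ s t, c s t ^ (2 ^ e) = 1) (h : SplU A c b) :
    SplA (actMu k (2 ^ e)) (fun s t => (⟨c s t, hM s t⟩ : rootsOfUnity (2 ^ e) Ω)) A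
      (toMu b hb) := fun s hs t ht => Subtype.ext (h s hs t ht)

end conv

theorem hasseU [Finite k] (h2 : (2 : k) ≠ 0) [IsSepClosure (RatFunc k) Ω] (e : ℕ)
    (c : GG k Ω → GG k Ω → Ωˣ) (hM : ∀ s t, c s t ^ (2 ^ e) = 1) (hc : TF2U c) (hcoc : CocU c)
    (loc : ∀ α : Ω, IsCst k α → ∃ (j d : ℕ) (D : Subgroup (GG k Ω)) (F τ : GG k Ω)
      (β : GG k Ω → Ωˣ), LocDataU e (α ^ (Nat.card k ^ j)) d D F τ ∧ LCOn D β ∧ SplU D c β) :
    ∃ b : GG k Ω → Ωˣ, (∀ s, b s ^ (2 ^ e) = 1) ∧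
      (∃ N ∈ NN (RatFunc k) Ω, ∀ s, ∀ n ∈ N, b (s * n) = b s) ∧
      ∀ s t, c s t = b s * s • b t * (b (s * t))⁻¹ := by
  classical
  have hM0 : 0 < 2 ^ e := by positivity
  have hNZ : NeZero (2 ^ e) := ⟨hM0.ne'⟩
  have hcard := card_mu (k := k) (Ω := Ω) h2 e
  have hfin : Finite (rootsOfUnity (2 ^ e) Ω) :=
    Nat.finite_of_card_ne_zero (by rw [hcard]; positivity)
  have hHA : ∀ h ∈ HH k Ω, ∀ a, actMu k (2 ^ e) h a = a := fun h hh a =>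
    Subtype.ext (HH_smul_mu hM0 hh a.2)
  -- the cocycle with values in `μ_M`
  let f : GG k Ω → GG k Ω → rootsOfUnity (2 ^ e) Ω := fun s t => ⟨c s t, hM s t⟩
  have hf : IsTwoCoc (actMu k (2 ^ e)) f := fun s t w => Subtype.ext (hcoc s t w)
  -- the splitting over `H`
  obtain ⟨b0, hb0M, hb0lc, hb0s⟩ := tsenU h2 e c hM hc hcoc
  set b : GG k Ω → rootsOfUnity (2 ^ e) Ω := toMu b0 hb0M with hb
  have hblc : LCOn (HH k Ω) b := toMu_lc hb0M hb0lc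
  have hbs : SplA (actMu k (2 ^ e)) f (HH k Ω) b := toMu_spl hb0M hM hb0s
  -- the Frobenius
  obtain ⟨σ, hσ⟩ : ∃ σ : GG k Ω, ∀ x : Ω, IsCst k x → σ x = x ^ Nat.card k := by
    have h0 : IsCst k (0 : Ω) := ⟨1, one_pos, zero_pow (pow_pos Nat.card_pos 1).ne'⟩
    obtain ⟨j, d, D, F, τ, β, L, -, -⟩ := loc 0 h0
    have hz : (0 : Ω) ^ (Nat.card k ^ j) = 0 := zero_pow (pow_pos Nat.card_pos j).ne'
    rw [hz] at L
    have hd : d = 1 := by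
      by_contra hne
      have h1 := L.fpos
      exact L.mini 1 one_pos (by omega) (zero_pow (pow_pos Nat.card_pos 1).ne')
    refine ⟨F, fun x hx => ?_⟩
    rw [L.F_act x hx, hd, pow_one]
  -- the defect
  set χ : GG k Ω → Ωˣ := fun h =>
    ((dfc hf b (mk hf 1 σ) h : rootsOfUnity (2 ^ e) Ω) : Ωˣ) with hχ
  have hχM : ∀ s, χ s ^ (2 ^ e) = 1 := fun s => (dfc hf b (mk hf 1 σ) s).2
  have hχhom : ∀ s ∈ HH k Ω, ∀ t ∈ HH k Ω, χ (s * t) = χ s * χ t := by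
    intro s hs t ht
    have h1 := dfc_hom hf hHA hbs (mk hf 1 σ) hs ht
    exact congrArg (fun u : rootsOfUnity (2 ^ e) Ω => (u : Ωˣ)) h1
  obtain ⟨Nc, hNc, hcN⟩ := hc
  have hNcn : Nc.Normal := NN.normal hNc
  have hfNc : ∀ s t, ∀ n ∈ Nc, ∀ m ∈ Nc, f (s * n) (t * m) = f s t := fun s t n hn m hm =>
    Subtype.ext (hcN s t n hn m hm)
  have hχlc : LCOn (HH k Ω) χ := by
    obtain ⟨Nb, n1, n2, n3⟩ := hblc
    refine ⟨Nb ⊓ Nc, inferInstance, ?_, fun s hs n hn hnH => ?_⟩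
    · rw [Subgroup.coe_inf]
      exact n2.inter (NN.isOpen hNc)
    · have hconjH : ∀ g ∈ HH k Ω, σ⁻¹ * g * σ ∈ HH k Ω := fun g hg => by
        have := (HH_normal (k := k) (Ω := Ω)).conj_mem g hg σ⁻¹
        rwa [inv_inv] at this
      have hc1 : σ⁻¹ * n * σ ∈ Nb := by
        have := n1.conj_mem n hn.1 σ⁻¹
        rwa [inv_inv] at this
      have hc2 : σ⁻¹ * n * σ ∈ Nc := by
        have := hNcn.conj_mem n hn.2 σ⁻¹
        rwa [inv_inv] at this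
      have e0 : σ⁻¹ * (s * n) * σ = (σ⁻¹ * s * σ) * (σ⁻¹ * n * σ) := by group
      have e1 : f σ ((σ⁻¹ * s * σ) * (σ⁻¹ * n * σ)) = f σ (σ⁻¹ * s * σ) := by
        have := hfNc σ (σ⁻¹ * s * σ) 1 Nc.one_mem _ hc2
        rwa [mul_one] at this
      have e2 : f (s * n) σ = f s σ := by
        have := hfNc s σ n hn.2 1 Nc.one_mem
        rwa [mul_one] at this
      change ((dfc hf b (mk hf 1 σ) (s * n) : rootsOfUnity (2 ^ e) Ω) : Ωˣ)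
        = ((dfc hf b (mk hf 1 σ) s : rootsOfUnity (2 ^ e) Ω) : Ωˣ)
      rw [dfc_formula, dfc_formula, e0, e1, e2, n3 s hs n hn.1 hnH,
        n3 _ (hconjH s hs) _ hc1 (hconjH n hnH)]
  obtain ⟨m, hm, hχm⟩ := kummerU h2 e χ hχM hχlc hχhom
  -- the orbit sums vanish
  obtain ⟨T, hT, hmT⟩ := pairs (k := k) m hm (by
    intro α hα d hd hper hmin
    obtain ⟨j, d', D, F, τ, β, L, hβlc, hβs⟩ := loc α hα
    obtain ⟨β', hβM, hβ'lc, hβ's⟩ := kumStep h2 e D c hM β hβlc hβs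
    have h1 := localStep h2 e hf b hblc hbs σ hσ m hm hχm L (toMu β' hβM)
      (toMu_lc hβM hβ'lc) (toMu_spl hβM hM hβ's)
    exact orbit_transfer m hd hper hmin L.fpos L.per L.mini h1)
  -- correction of the splitting
  have hTσ : T.mapDomain σ = T.mapDomain (fun x => x ^ Nat.card k) :=
    Finsupp.mapDomain_congr fun x hx => hσ x (hT x hx)
  have hT' : ∀ α ∈ (T.mapDomain σ).support, IsCst k α := by
    intro β hβ
    have h1 := Finsupp.mapDomain_support hβ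
    obtain ⟨γ, hγ, rfl⟩ := Finset.mem_image.1 h1
    exact (hT γ hγ).map σ
  let ψ : GG k Ω → rootsOfUnity (2 ^ e) Ω := fun h =>
    if hh : h ∈ HH k Ω then ⟨psiU k (2 ^ e) T h, psiU_pow h2 e hT hh⟩ else 1
  have hψ : ∀ h ∈ HH k Ω, ((ψ h : rootsOfUnity (2 ^ e) Ω) : Ωˣ) = psiU k (2 ^ e) T h := by
    intro h hh
    change ((if hh : h ∈ HH k Ω then (⟨psiU k (2 ^ e) T h, psiU_pow h2 e hT hh⟩ :
      rootsOfUnity (2 ^ e) Ω) else 1 : rootsOfUnity (2 ^ e) Ω) : Ωˣ) = _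
    rw [dif_pos hh]
  have hψhom : ∀ s ∈ HH k Ω, ∀ t ∈ HH k Ω, ψ (s * t) = ψ s * ψ t := by
    intro s hs t ht
    apply Subtype.ext
    rw [Subgroup.coe_mul, hψ _ (mul_mem hs ht), hψ s hs, hψ t ht, psiU_hom h2 e hT hs ht]
  set b1 : GG k Ω → rootsOfUnity (2 ^ e) Ω := fun g => b g * (ψ g)⁻¹ with hb1
  have hb1s : SplA (actMu k (2 ^ e)) f (HH k Ω) b1 := spl_div hHA hbs hψhom
  have hb1lc : LCOn (HH k Ω) b1 := by
    obtain ⟨N, n1, n2, n3⟩ := (hblc.prod (lcOn_psiU (HH k Ω) (2 ^ e) T))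
    refine ⟨N, n1, n2, fun s hs n hn hnH => ?_⟩
    have h1 := n3 s hs n hn hnH
    have h3 := congrArg Prod.fst h1
    have h4 : psiU k (2 ^ e) T (s * n) = psiU k (2 ^ e) T s := congrArg Prod.snd h1
    have h5 : b (s * n) = b s := h3
    have h6 : ψ (s * n) = ψ s := by
      apply Subtype.ext
      rw [hψ _ (mul_mem hs hnH), hψ s hs, h4]
    change b (s * n) * (ψ (s * n))⁻¹ = b s * (ψ s)⁻¹
    rw [h5, h6]
  have hdef : ∀ h ∈ HH k Ω, dfc hf b1 (mk hf 1 σ) h = 1 := by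
    intro h hh
    have hconj : σ⁻¹ * h * σ ∈ HH k Ω := by
      have := (HH_normal (k := k) (Ω := Ω)).conj_mem h hh σ⁻¹
      rwa [inv_inv] at this
    have h1 := dfc_div hf b ψ (mk hf 1 σ) h
    change dfc hf b1 (mk hf 1 σ) h = dfc hf b (mk hf 1 σ) h * (ψ h)⁻¹
      * actMu k (2 ^ e) σ (ψ (σ⁻¹ * h * σ)) at h1
    rw [h1]
    apply Subtype.ext
    rw [Subgroup.coe_mul, Subgroup.coe_mul, coe_actMu, hψ _ hconj, psiU_conj h2 e hT σ hh,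
      Subgroup.coe_inv, hψ h hh]
    change χ h * (psiU k (2 ^ e) T h)⁻¹ * psiU k (2 ^ e) (T.mapDomain σ) h = 1
    rw [hχm h hh]
    have h3 : psiU k (2 ^ e) m h * psiU k (2 ^ e) (T.mapDomain σ) h = psiU k (2 ^ e) T h := by
      rw [← psiU_add_mu h2 e hm hT' hh]
      congr 1
      rw [hTσ, hmT, sub_add_cancel]
    rw [mul_right_comm, h3, mul_inv_cancel]
  -- extension to `G`
  obtain ⟨Nb, n1, n2, n3⟩ := hb1lc
  have hμ := nMu_mem (k := k) (Ω := Ω) h2 e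
  set Nμ : Subgroup (GG k Ω) := (actMu k (Ω := Ω) (2 ^ e)).ker with hNμ
  have hN0 : Nc ⊓ Nμ ∈ NN (RatFunc k) Ω := inf_mem_NN hNc hμ
  have hN0n : (Nc ⊓ Nμ).Normal := NN.normal hN0
  have hNn : (Nb ⊓ (Nc ⊓ Nμ)).Normal := inferInstance
  have hNo : IsOpen ((Nb ⊓ (Nc ⊓ Nμ) : Subgroup (GG k Ω)) : Set (GG k Ω)) := by
    rw [Subgroup.coe_inf]
    exact n2.inter (NN.isOpen hN0)
  obtain ⟨n, hn0, hn⟩ := exists_Hn_le (Nb ⊓ (Nc ⊓ Nμ)) hNo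
  have hnM0 : 0 < n * 2 ^ e := Nat.mul_pos hn0 hM0
  obtain ⟨β, hβ, hβN⟩ := extend_abs hf (HH k Ω) (Nb ⊓ (Nc ⊓ Nμ)) hHA
    (fun h hh a => nMu_triv hh.2.2 a)
    (fun s t x hx y hy => hfNc s t x hx.2.1 y hy.2.1) b1 hb1s
    (fun h hh x hx hxH => n3 h hh x hx.1 hxH) σ hdef (2 ^ e)
    (fun a => Subtype.ext a.2) (Hn k Ω n) (Hn k Ω (n * 2 ^ e)) (Hn_mono (Nat.dvd_mul_right n _)) hn
    n (frob_pow_mem hσ hn0) (frob_pow_mem hσ hnM0) (fun g => frob_gen h2 hσ hnM0 g)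
    (fun i hi => frob_zpow_mem h2 hσ hnM0 i hi)
  -- two-finiteness
  have hMo : IsOpen (((Nb ⊓ (Nc ⊓ Nμ)) ⊓ Hn k Ω (n * 2 ^ e) : Subgroup (GG k Ω)) :
      Set (GG k Ω)) := by
    rw [Subgroup.coe_inf]
    exact hNo.inter (isOpen_Hn hnM0)
  obtain ⟨N1, hN1, hN1'⟩ := finTwo hcard (Nc ⊓ Nμ) hN0 (fun h hh a => nMu_triv hh.2 a)
    (fun s t x hx y hy => hfNc s t x hx.1 y hy.1) β hβ _ hMo hβN
  refine ⟨fun s => ((β s : rootsOfUnity (2 ^ e) Ω) : Ωˣ), fun s => (β s).2,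
    ⟨N1, hN1, fun s x hx => ?_⟩, fun s t => ?_⟩
  · change ((β (s * x) : rootsOfUnity (2 ^ e) Ω) : Ωˣ) = ((β s : rootsOfUnity (2 ^ e) Ω) : Ωˣ)
    rw [hN1' s x hx]
  · exact congrArg (fun u : rootsOfUnity (2 ^ e) Ω => (u : Ωˣ)) (hβ s t)

end Pool.Agent.SmithC
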