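import Pool.Agent.Lib.SM.C.Cst

/-!
# SMITH, block C, module KB: the field `κ(t)` inside `Ω`, `κ` the field of constants
-/

set_option autoImplicit false

namespace Pool.Agent.SmithC

open Polynomial

variable {k Ω : Type} [Field k] [Field Ω] [Algebra (RatFunc k) Ω]

/-- the embedding `κ(t) → Ω`: it extends `k(t) → Ω` and its image is fixed by `HH k Ω` -/
theorem exists_alg (κ : Subfield Ω) (hκ : ∀ x, x ∈ κ ↔ IsCst k x)
    (hk : ∀ a : k, algebraMap (RatFunc k) Ω (RatFunc.C a) ∈ κ)
    (ht : Transcendental κ (tt k Ω)) :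
    ∃ (j : RatFunc κ →+* Ω) (ψ : RatFunc k →+* RatFunc κ),
      (∀ a : κ, j (RatFunc.C a) = a) ∧ j RatFunc.X = tt k Ω ∧
      (∀ h ∈ HH k Ω, ∀ x, h (j x) = j x) ∧ (∀ r, j (ψ r) = algebraMap (RatFunc k) Ω r) := by
  have hinj : Function.Injective ((aeval (R := κ) (tt k Ω)).toRingHom : κ[X] →+* Ω) :=
    transcendental_iff_injective.1 ht
  let j : RatFunc κ →+* Ω := IsFractionRing.lift (A := κ[X]) (K := RatFunc κ) hinj
  have hj : ∀ p : κ[X], j (algebraMap κ[X] (RatFunc κ) p) = aeval (tt k Ω) p := fun p =>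
    IsFractionRing.lift_algebraMap hinj p
  let kk : k →+* κ := RingHom.codRestrict ((algebraMap (RatFunc k) Ω).comp RatFunc.C) κ
    (fun a => hk a)
  have hinj2 : Function.Injective
      ((algebraMap κ[X] (RatFunc κ)).comp (mapRingHom kk) : k[X] →+* RatFunc κ) := by
    intro a b hab
    exact Polynomial.map_injective kk kk.injective (RatFunc.algebraMap_injective κ hab)
  let ψ : RatFunc k →+* RatFunc κ := IsFractionRing.lift (A := k[X]) (K := RatFunc k) hinj2
  have hψ : ∀ p : k[X], ψ (algebraMap k[X] (RatFunc k) p)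
      = algebraMap κ[X] (RatFunc κ) (p.map kk) := fun p =>
    IsFractionRing.lift_algebraMap hinj2 p
  refine ⟨j, ψ, ?_, ?_, ?_, ?_⟩
  · intro a
    rw [← RatFunc.algebraMap_C, hj, aeval_C]
    rfl
  · rw [← RatFunc.algebraMap_X, hj, aeval_X]
  · intro h hh x
    have h1 : ((h : Ω ≃ₐ[RatFunc k] Ω) : Ω →+* Ω).comp j = j := by
      apply IsLocalization.ringHom_ext (nonZeroDivisors κ[X])
      apply Polynomial.ringHom_ext
      · intro a
        change h (j (algebraMap κ[X] (RatFunc κ) (C a))) = j (algebraMap κ[X] (RatFunc κ) (C a))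
        rw [hj, aeval_C]
        exact mem_HH.1 hh _ ((hκ _).1 a.2)
      · change h (j (algebraMap κ[X] (RatFunc κ) X)) = j (algebraMap κ[X] (RatFunc κ) X)
        rw [hj, aeval_X]
        exact h.commutes _
    exact DFunLike.congr_fun h1 x
  · intro r
    have h1 : j.comp ψ = algebraMap (RatFunc k) Ω := by
      apply IsLocalization.ringHom_ext (nonZeroDivisors k[X])
      apply Polynomial.ringHom_ext
      · intro a
        change j (ψ (algebraMap k[X] (RatFunc k) (C a)))
          = algebraMap (RatFunc k) Ω (algebraMap k[X] (RatFunc k) (C a))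
        rw [hψ, map_C, hj, aeval_C, RatFunc.algebraMap_C]
        rfl
      · change j (ψ (algebraMap k[X] (RatFunc k) X))
          = algebraMap (RatFunc k) Ω (algebraMap k[X] (RatFunc k) X)
        rw [hψ, map_X, hj, aeval_X, RatFunc.algebraMap_X]
        rfl
    exact DFunLike.congr_fun h1 r

end Pool.Agent.SmithC
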