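import Pool.Agent.Lib.SM.C.LocDef
import Pool.Agent.Lib.SmD.Main
import Pool.Agent.Lib.SmD.Const
import Pool.Agent.Lib.SmD.Near

/-!
# SMITH, block C: the decomposition groups of block D and the group `HH` fixing the constants
-/

set_option autoImplicit false

namespace Pool.Agent.SmithC

open Pool.Agent.Lib.SmD Pool.Agent.BSDFF

variable {k Ω : Type} [Field k] [Field Ω] [Algebra (RatFunc k) Ω]

theorem isCst_iff {p s : ℕ} (hs : 0 < s) (hq : Nat.card k = p ^ s) (x : Ω) :
    IsCst k x ↔ Pool.Agent.Lib.SmD.IsCst p x := by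
  constructor
  · rintro ⟨n, hn, h⟩
    refine ⟨s * n, Nat.mul_pos hs hn, ?_⟩
    rw [pow_mul, ← hq]
    exact h
  · rintro ⟨e, he, h⟩
    refine ⟨e, he, ?_⟩
    rw [hq, ← pow_mul, mul_comm s e]
    exact cst_pow_mul h s

/-- The constants in the two senses, with the characteristic. -/
theorem exists_char [Finite k] : ∃ p s : ℕ, p.Prime ∧ CharP Ω p ∧ 0 < s ∧ Nat.card k = p ^ s := by
  classical
  have hfin : Fintype k := Fintype.ofFinite k
  obtain ⟨p, hp⟩ := CharP.exists k
  have hpp : p.Prime := CharP.char_is_prime k p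
  obtain ⟨n, -, hn⟩ := FiniteField.card k p
  refine ⟨p, n, hpp, ?_, n.pos, by rw [Nat.card_eq_fintype_card, hn]⟩
  exact charP_of_injective_ringHom (kOm k Ω).injective p

theorem dec_inf_HH [Finite k] [IsSepClosure (RatFunc k) Ω] (v : Place k (RatFunc k)) :
    dv Ω v ⊓ HH k Ω = iner (RatFunc k) (ab Ω v) := by
  have : IsSepClosed Ω := IsSepClosure.sep_closed (RatFunc k)
  have : IsGalois (RatFunc k) Ω := IsSepClosure.isGalois
  obtain ⟨p, s, hp, hch, hs, hq⟩ := exists_char (k := k) (Ω := Ω)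
  have : Fact p.Prime := ⟨hp⟩
  have := hch
  ext σ
  rw [Subgroup.mem_inf, mem_HH]
  constructor
  · rintro ⟨h1, h3⟩
    exact (mem_iner_iff_cst (p := p) h1).2 fun c hc => h3 c ((isCst_iff hs hq c).2 hc)
  · intro h
    exact ⟨h.1, fun x hx => iner_cst (p := p) h ((isCst_iff hs hq x).1 hx)⟩

theorem sg_mem_HH [Finite k] [IsSepClosure (RatFunc k) Ω] (h2 : (2 : k) ≠ 0)
    (v : Place k (RatFunc k)) : sg Ω v ∈ HH k Ω := by
  have : IsSepClosed Ω := IsSepClosure.sep_closed (RatFunc k)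
  have : IsGalois (RatFunc k) Ω := IsSepClosure.isGalois
  have h1 : sg Ω v ∈ dv Ω v ⊓ HH k Ω := by
    rw [dec_inf_HH]
    exact sg_iner h2 v
  exact h1.2

theorem sg_mem_dv [Finite k] [IsSepClosure (RatFunc k) Ω] (h2 : (2 : k) ≠ 0)
    (v : Place k (RatFunc k)) : sg Ω v ∈ dv Ω v := by
  have : IsSepClosed Ω := IsSepClosure.sep_closed (RatFunc k)
  have : IsGalois (RatFunc k) Ω := IsSepClosure.isGalois
  exact sg_mem h2 v

theorem ph_mem_dv [Finite k] [IsSepClosure (RatFunc k) Ω] (v : Place k (RatFunc k)) :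
    ph Ω v ∈ dv Ω v := by
  have : IsGalois (RatFunc k) Ω := IsSepClosure.isGalois
  exact ph_mem v

/-- Frobenius on the constants, exponent = size of the residue field of the place. -/
theorem ph_act [Finite k] [IsSepClosure (RatFunc k) Ω] (v : Place k (RatFunc k)) (x : Ω)
    (hx : IsCst k x) : ph Ω v x = x ^ resCard (below (RatFunc k) (ab Ω v)) := by
  have : IsGalois (RatFunc k) Ω := IsSepClosure.isGalois
  obtain ⟨p, s, hp, hch, hs, hq⟩ := exists_char (k := k) (Ω := Ω)
  have : Fact p.Prime := ⟨hp⟩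
  have := hch
  exact (ph_frob v).cst ((isCst_iff hs hq x).1 hx)

end Pool.Agent.SmithC
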