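import Pool.Agent.Lib.SM.C.Cst
import Pool.Agent.Lib.SmD.Near
import Pool.Agent.Lib.SmD.Main

/-!
# SMITH, block C, module LocRoot: the Frobenius orbit of a constant

`α ∈ Ω` a constant, `f` its exact period under `x ↦ x ^ q`: the minimal polynomial of `α` over `k`
is `∏_{i < f} (X - α ^ (q ^ i))`. The residue field at its place has `q ^ f` elements.
-/

set_option autoImplicit false

namespace Pool.Agent.SmithC

open Polynomial Pool.Agent.Lib.SmD Pool.Agent.BSDFF

variable {k Ω : Type} [Field k] [Field Ω] [Algebra (RatFunc k) Ω]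

variable (k Ω) in
/-- the characteristic and the cardinality of `k` -/
theorem locRoot_char [Finite k] : ∃ (p s : ℕ), p.Prime ∧ CharP k p ∧ CharP Ω p ∧ 0 < s ∧
    Nat.card k = p ^ s := by
  have hfin : Fintype k := Fintype.ofFinite _
  obtain ⟨p, hp⟩ := CharP.exists k
  obtain ⟨n, hpp, hn⟩ := FiniteField.card k p
  exact ⟨p, n, hpp, hp, charP_of_injective_ringHom (kOm k Ω).injective p, n.pos,
    by rw [Nat.card_eq_fintype_card, hn]⟩

theorem locRoot_inj [Finite k] (n : ℕ) {x y : Ω} (h : x ^ (Nat.card k ^ n) = y ^ (Nat.card k ^ n)) :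
    x = y := by
  obtain ⟨p, s, hp, -, hO, -, hq⟩ := locRoot_char k Ω
  have : Fact p.Prime := ⟨hp⟩
  rw [hq, ← pow_mul] at h
  exact iterateFrobenius_inj Ω p (s * n) h

omit [Field k] [Algebra (RatFunc k) Ω] in
/-- constants in the sense of block D -/
theorem IsCst.conv {p s : ℕ} (hs : 0 < s) (hq : Nat.card k = p ^ s) {x : Ω} (hx : IsCst k x) :
    Pool.Agent.Lib.SmD.IsCst p x := by
  obtain ⟨n, hn, h⟩ := hx
  exact ⟨s * n, Nat.mul_pos hs hn, by rw [pow_mul, ← hq, h]⟩

omit [Field k] [Algebra (RatFunc k) Ω] in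
theorem IsCst.powc {x : Ω} (hx : IsCst k x) (n : ℕ) : IsCst k (x ^ n) := by
  obtain ⟨m, hm, h⟩ := hx
  exact ⟨m, hm, by rw [← pow_mul, mul_comm, pow_mul, h]⟩

/-- elements with `x ^ q = x` lie in `k` -/
theorem locRoot_mem_k [Finite k] {x : Ω} (hx : x ^ Nat.card k = x) : ∃ a : k, kOm k Ω a = x := by
  have hfin : Fintype k := Fintype.ofFinite _
  have hq : 1 < Fintype.card k := Fintype.one_lt_card
  have h0 : (X ^ Fintype.card k - X : k[X]) ≠ 0 := FiniteField.X_pow_card_sub_X_ne_zero k hq
  have hmon : (X ^ Fintype.card k - X : k[X]).Monic := by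
    refine monic_X_pow_sub ?_
    rw [degree_X]
    exact_mod_cast hq
  have hspl : (X ^ Fintype.card k - X : k[X]).Splits := by
    rw [splits_iff_card_roots, FiniteField.roots_X_pow_card_sub_X,
      FiniteField.X_pow_card_sub_X_natDegree_eq k hq]
    rfl
  have hprod := hspl.eq_prod_roots_of_monic hmon
  rw [FiniteField.roots_X_pow_card_sub_X] at hprod
  have h1 := congrArg (Polynomial.eval₂ (kOm k Ω) x) hprod
  rw [eval₂_multiset_prod, Multiset.map_map, eval₂_sub, eval₂_X, eval₂_pow, eval₂_X,
    ← Nat.card_eq_fintype_card, hx, sub_self] at h1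
  have h2 := (Multiset.prod_eq_zero_iff).1 h1.symm
  obtain ⟨a, -, ha⟩ := Multiset.mem_map.1 h2
  refine ⟨a, ?_⟩
  rw [Function.comp_apply, eval₂_sub, eval₂_X, eval₂_C, sub_eq_zero] at ha
  exact ha.symm

/-- the minimal polynomial of a constant -/
theorem locRoot_exists [Finite k] {α : Ω} (hα : IsCst k α) :
    ∃ (f : ℕ) (P : k[X]), 0 < f ∧ α ^ (Nat.card k ^ f) = α ∧
      (∀ i, 0 < i → i < f → α ^ (Nat.card k ^ i) ≠ α) ∧ Irreducible P ∧ P.natDegree = f ∧
      P.map (kOm k Ω) = ∏ i ∈ Finset.range f, (X - C (α ^ (Nat.card k ^ i))) := by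
  classical
  let _ : Algebra k Ω := algk k Ω
  have halgmap : algebraMap k Ω = kOm k Ω := rfl
  obtain ⟨p, s, hp, hkp, hO, hs, hq⟩ := locRoot_char k Ω
  have : Fact p.Prime := ⟨hp⟩
  -- the period
  set f : ℕ := Nat.find hα with hf
  have hfs : 0 < f ∧ α ^ (Nat.card k ^ f) = α := Nat.find_spec hα
  have hmin : ∀ i, 0 < i → i < f → α ^ (Nat.card k ^ i) ≠ α := fun i hi hif h =>
    Nat.find_min hα hif ⟨hi, h⟩
  set g : ℕ → Ω := fun i => α ^ (Nat.card k ^ i) with hg
  set Q : Polynomial Ω := ∏ i ∈ Finset.range f, (X - C (g i)) with hQ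
  have hQm : Q.Monic := monic_prod_of_monic _ _ fun i _ => monic_X_sub_C _
  have hQd : Q.natDegree = f := by
    rw [hQ, natDegree_prod_of_monic _ _ fun i _ => monic_X_sub_C _]
    simp
  -- Frobenius
  have hcyc : ∏ i ∈ Finset.range f, (X - C (g (i + 1))) = Q := by
    have h1 := Finset.prod_range_succ (fun i => (X - C (g i) : Polynomial Ω)) f
    have h2 := Finset.prod_range_succ' (fun i => (X - C (g i) : Polynomial Ω)) f
    rw [h1] at h2
    have h3 : g f = g 0 := by
      rw [hg]
      change α ^ (Nat.card k ^ f) = α ^ (Nat.card k ^ 0)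
      rw [hfs.2, pow_zero, pow_one]
    rw [h3] at h2
    exact (mul_right_cancel₀ (X_sub_C_ne_zero (g 0)) h2).symm
  have hfrob : Q.map (iterateFrobenius Ω p s) = Q := by
    conv_rhs => rw [← hcyc]
    rw [hQ, Polynomial.map_prod]
    refine Finset.prod_congr rfl fun i _ => ?_
    rw [Polynomial.map_sub, map_X, map_C, iterateFrobenius_def, ← hq]
    congr 2
    change (α ^ (Nat.card k ^ i)) ^ Nat.card k = α ^ (Nat.card k ^ (i + 1))
    rw [← pow_mul, pow_succ]
  have hlift : Q ∈ lifts (kOm k Ω) := by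
    rw [lifts_iff_coeff_lifts]
    intro n
    have h1 : (Q.coeff n) ^ Nat.card k = Q.coeff n := by
      conv_rhs => rw [← hfrob]
      rw [coeff_map, iterateFrobenius_def, ← hq]
    exact locRoot_mem_k h1
  obtain ⟨P, hPQ, hPd, hPm⟩ := lifts_and_natDegree_eq_and_monic hlift hQm
  have hint : IsIntegral k α := ((isCst_iff α).1 hα).isIntegral
  set m := minpoly k α with hm
  -- the roots of the minimal polynomial
  have hroot : ∀ i, aeval (g i) m = 0 := by
    have hfin : Fintype k := Fintype.ofFinite _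
    intro i
    induction i with
    | zero =>
      change aeval (α ^ (Nat.card k ^ 0)) m = 0
      rw [pow_zero, pow_one]
      exact minpoly.aeval k α
    | succ i ih =>
      have h1 : g (i + 1) = (g i) ^ Nat.card k := by
        change α ^ (Nat.card k ^ (i + 1)) = (α ^ (Nat.card k ^ i)) ^ Nat.card k
        rw [← pow_mul, pow_succ]
      rw [h1, ← expand_aeval, Nat.card_eq_fintype_card, FiniteField.expand_card, map_pow, ih,
        zero_pow Fintype.card_ne_zero]
  have hinj : Set.InjOn g (Finset.range f) := by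
    intro i hi j hj hij
    have key : ∀ a b : ℕ, a < b → b < f → g a ≠ g b := by
      intro a b hab hb h
      have h1 : g b = (g (b - a)) ^ (Nat.card k ^ a) := by
        change α ^ (Nat.card k ^ b) = (α ^ (Nat.card k ^ (b - a))) ^ (Nat.card k ^ a)
        rw [← pow_mul, ← pow_add, Nat.sub_add_cancel hab.le]
      rw [h1] at h
      exact hmin (b - a) (by omega) (by omega) (locRoot_inj a h).symm
    rw [Finset.mem_coe, Finset.mem_range] at hi hj
    rcases lt_trichotomy i j with h | h | h
    · exact absurd hij (key i j h hj)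
    · exact h
    · exact absurd hij.symm (key j i h hi)
  have hmd : f ≤ m.natDegree := by
    have h1 : (Finset.image g (Finset.range f)).card ≤ (m.map (algebraMap k Ω)).natDegree := by
      refine card_le_degree_of_subset_roots ?_
      intro x hx
      have hx' : x ∈ Finset.image g (Finset.range f) := hx
      obtain ⟨i, -, rfl⟩ := Finset.mem_image.1 hx'
      rw [mem_roots (Polynomial.map_ne_zero (minpoly.ne_zero hint)), IsRoot.def, eval_map,
        ← aeval_def]
      exact hroot i
    rw [Finset.card_image_of_injOn hinj, Finset.card_range, natDegree_map] at h1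
    exact h1
  have hdvd : m ∣ P := by
    apply minpoly.dvd
    rw [aeval_def, ← eval_map, halgmap, hPQ, hQ, eval_prod]
    refine Finset.prod_eq_zero (Finset.mem_range.2 hfs.1) ?_
    rw [eval_sub, eval_X, eval_C]
    change α - α ^ (Nat.card k ^ 0) = 0
    rw [pow_zero, pow_one, sub_self]
  have hmP : P = m := by
    refine eq_of_monic_of_dvd_of_natDegree_le (minpoly.monic hint) hPm hdvd ?_
    rw [hPd, hQd]
    exact hmd
  refine ⟨f, P, hfs.1, hfs.2, hmin, ?_, ?_, hPQ⟩
  · rw [hmP]
    exact minpoly.irreducible hint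
  · rw [hPd, hQd]

/-- the residue field at the place of `P` -/
theorem locRoot_resCard [Finite k] {P : k[X]} (hP : Irreducible P) :
    resCard (below (RatFunc k) (ab Ω (placeOf P hP))) = Nat.card k ^ P.natDegree := by
  rw [below_ab]
  obtain ⟨e, -⟩ := residue_equiv (placeOf P hP) (X_mem_placeOf P hP) hP (nonunit_placeOf P hP)
  have hfd : Module.Finite k (AdjoinRoot P) := (AdjoinRoot.powerBasis hP.ne_zero).finite
  unfold resCard
  rw [← Nat.card_congr e.toEquiv, Module.natCard_eq_pow_finrank (K := k),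
    (AdjoinRoot.powerBasis hP.ne_zero).finrank, AdjoinRoot.powerBasis_dim]

end Pool.Agent.SmithC
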