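import Pool.Agent.Lib.SM.C.MuAct
import Pool.Agent.Lib.SM.C.LocDef
import Pool.Agent.Lib.SM.C.Levels

set_option autoImplicit false

/-!
SMITH, block C: the local step. If the cocycle splits at the place of the constant `α`, then the
orbit sum of `m` over the Frobenius orbit of `α` vanishes, where `m` describes the defect of the
splitting over `H` under the Frobenius `σ`.
-/

namespace Pool.Agent.SmithC

open EGrp

variable {k Ω : Type} [Field k] [Field Ω] [Algebra (RatFunc k) Ω]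

theorem orbit_shift {A : Type} [AddCommGroup A] (m : Ω → A) (α : Ω) (q f : ℕ)
    (hper : α ^ q ^ f = α) :
    ∑ i ∈ Finset.range f, m (α ^ q ^ (f - i)) = ∑ i ∈ Finset.range f, m (α ^ q ^ i) := by
  have h1 : ∑ i ∈ Finset.range f, m (α ^ q ^ (f - i))
      = ∑ i ∈ Finset.range f, m (α ^ q ^ (i + 1)) := by
    rw [← Finset.sum_range_reflect (fun i => m (α ^ q ^ (i + 1))) f]
    refine Finset.sum_congr rfl fun i hi => ?_
    have := Finset.mem_range.1 hi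
    congr 3
    omega
  rw [h1]
  have h2 := Finset.sum_range_succ' (fun i => m (α ^ q ^ i)) f
  have h3 := Finset.sum_range_succ (fun i => m (α ^ q ^ i)) f
  rw [h3] at h2
  change _ + m (α ^ q ^ f) = _ + m (α ^ q ^ 0) at h2
  rw [hper, pow_zero, pow_one] at h2
  exact (add_right_cancel h2).symm

/-- value of `psiU` at an element with only one nontrivial symbol -/
theorem psiU_single (M : ℕ) (m : Ω →₀ ZMod M) (hm : ∀ α ∈ m.support, IsCst k α) (α : Ω)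
    (τ : GG k Ω) (hτ : ∀ β : Ω, IsCst k β → β ≠ α → kumU M (tt k Ω - β) τ = 1) :
    psiU k M m τ = kumU M (tt k Ω - α) τ ^ (m α).val := by
  unfold psiU Finsupp.prod
  by_cases hα : α ∈ m.support
  · rw [Finset.prod_eq_single_of_mem α hα]
    intro β hβ hne
    change kumU M (tt k Ω - β) τ ^ (m β).val = 1
    rw [hτ β (hm β hβ) hne, one_pow]
  · rw [Finset.prod_eq_one]
    · rw [Finsupp.notMem_support_iff] at hα
      rw [hα]
      simp
    · intro β hβ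
      have hne : β ≠ α := by
        rintro rfl
        exact hα hβ
      change kumU M (tt k Ω - β) τ ^ (m β).val = 1
      rw [hτ β (hm β hβ) hne, one_pow]

theorem localStep [Finite k] (h2 : (2 : k) ≠ 0) [IsSepClosure (RatFunc k) Ω] (e : ℕ)
    {f : GG k Ω → GG k Ω → rootsOfUnity (2 ^ e) Ω} (hf : IsTwoCoc (actMu k (2 ^ e)) f)
    (b : GG k Ω → rootsOfUnity (2 ^ e) Ω) (hb : LCOn (HH k Ω) b)
    (hs : SplA (actMu k (2 ^ e)) f (HH k Ω) b)
    (σ : GG k Ω) (hσ : ∀ x : Ω, IsCst k x → σ x = x ^ Nat.card k)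
    (m : Ω →₀ ZMod (2 ^ e)) (hm : ∀ α ∈ m.support, IsCst k α)
    (hχ : ∀ h ∈ HH k Ω, ((dfc hf b (mk hf 1 σ) h : rootsOfUnity (2 ^ e) Ω) : Ωˣ)
      = psiU k (2 ^ e) m h)
    {α : Ω} {d : ℕ} {D : Subgroup (GG k Ω)} {F τ : GG k Ω} (L : LocDataU e α d D F τ)
    (b' : GG k Ω → rootsOfUnity (2 ^ e) Ω) (hb' : LCOn D b')
    (hs' : SplA (actMu k (2 ^ e)) f D b') :
    ∑ i ∈ Finset.range d, m (α ^ (Nat.card k ^ i)) = 0 := by
  classical
  have hM0 : 0 < 2 ^ e := by positivity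
  have hNZ : NeZero (2 ^ e) := ⟨hM0.ne'⟩
  have hHA : ∀ h ∈ HH k Ω, ∀ a, actMu k (2 ^ e) h a = a := fun h hh a =>
    Subtype.ext (HH_smul_mu hM0 hh a.2)
  set σ' : EGrp hf := mk hf 1 σ with hσ'
  set ζ : Ωˣ := kumU (2 ^ e) (tt k Ω - α) τ with hζ
  have hpow0 : ∀ m : ℕ, (σ' ^ m).snd = σ ^ m := fun m => map_pow (proj hf) σ' m
  -- steps 1 and 2
  have hmem : (σ' ^ d).snd⁻¹ * (sec hf b' F).snd ∈ HH k Ω := by
    rw [hpow0, snd_sec]
    intro x hx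
    change (σ ^ d)⁻¹ (F x) = x
    rw [L.F_act x hx, ← frob_pow hσ d hx]
    exact (σ ^ d).symm_apply_apply x
  have e1 : dfc hf b (sec hf b' F) τ = dfc hf b (σ' ^ d) τ :=
    dfc_congr hf hHA hs hmem L.τ_H
  have e2 : ((dfc hf b (σ' ^ d) τ : rootsOfUnity (2 ^ e) Ω) : Ωˣ)
      = ∏ i ∈ Finset.range d, ζ ^ (m (α ^ Nat.card k ^ (d - i))).val := by
    rw [dfc_pow hf hHA hs σ' d L.τ_H]
    rw [Subgroup.val_finsetProd]
    refine Finset.prod_congr rfl fun i hi => ?_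
    have hi' := Finset.mem_range.1 hi
    rw [coe_actMu]
    change (σ ^ i) • ((dfc hf b σ' ((σ ^ i)⁻¹ * τ * σ ^ i) : rootsOfUnity (2 ^ e) Ω) : Ωˣ) = _
    have hin : (σ ^ i)⁻¹ * τ * σ ^ i ∈ HH k Ω := by
      have := (HH_normal (k := k) (Ω := Ω)).conj_mem τ L.τ_H (σ ^ i)⁻¹
      rwa [inv_inv] at this
    rw [hχ _ hin, psiU_conj h2 e hm (σ ^ i) L.τ_H]
    have hm' : ∀ β ∈ (m.mapDomain (σ ^ i)).support, IsCst k β := by
      intro β hβ
      have h1 := Finsupp.mapDomain_support hβ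
      obtain ⟨γ, hγ, rfl⟩ := Finset.mem_image.1 h1
      exact (hm γ hγ).map (σ ^ i)
    rw [psiU_single (2 ^ e) _ hm' α τ L.τ_ne]
    congr 2
    have h3 : (σ ^ i) (α ^ Nat.card k ^ (d - i)) = α := by
      rw [frob_pow hσ i (L.cst.pow _), ← pow_mul, ← pow_add, Nat.sub_add_cancel hi'.le, L.per]
    conv_lhs => rw [← h3]
    exact Finsupp.mapDomain_apply (σ ^ i).injective m _
  -- step 5
  set ψ : GG k Ω → rootsOfUnity (2 ^ e) Ω := fun s => (b s)⁻¹ * b' s with hψ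
  have hD : ∀ {s}, s ∈ D ⊓ HH k Ω → s ∈ D := fun h => h.1
  have hH : ∀ {s}, s ∈ D ⊓ HH k Ω → s ∈ HH k Ω := fun h => h.2
  have hψhom : ∀ s ∈ D ⊓ HH k Ω, ∀ t ∈ D ⊓ HH k Ω, ψ (s * t) = ψ s * ψ t := by
    intro s hs1 t ht1
    have h1 := hs s (hH hs1) t (hH ht1)
    have h3 := hs' s (hD hs1) t (hD ht1)
    rw [hHA s (hH hs1)] at h1 h3
    rw [h1] at h3
    -- b s b t (b st)⁻¹ = b' s b' t (b' st)⁻¹
    change (b (s * t))⁻¹ * b' (s * t) = (b s)⁻¹ * b' s * ((b t)⁻¹ * b' t)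
    rw [mul_inv_eq_iff_eq_mul] at h3
    have h4 : b' s * b' t = b s * b t * (b (s * t))⁻¹ * b' (s * t) := by
      have h5 : b s * b t * b' (s * t) = b' s * b' t * b (s * t) := by
        rw [h3]
        simp only [mul_assoc, mul_comm, mul_left_comm, mul_inv_cancel_left, inv_mul_cancel_left,
          mul_inv_cancel, mul_one]
      rw [mul_right_comm, h5, mul_inv_cancel_right]
    calc (b (s * t))⁻¹ * b' (s * t)
        = (b s)⁻¹ * (b t)⁻¹ * (b s * b t * (b (s * t))⁻¹ * b' (s * t)) := by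
          rw [mul_assoc (b s * b t), ← mul_assoc ((b s)⁻¹ * (b t)⁻¹)]
          have : (b s)⁻¹ * (b t)⁻¹ * (b s * b t) = 1 := by
            rw [mul_comm (b s), ← mul_assoc, mul_assoc (b s)⁻¹, inv_mul_cancel, mul_one,
              inv_mul_cancel]
          rw [this, one_mul]
      _ = _ := by
          rw [← h4]
          simp only [mul_assoc, mul_comm, mul_left_comm]
  have hζM : ζ ^ (2 ^ e) = 1 := L.τ_prim.pow_eq_one
  obtain ⟨j, -, hj⟩ : ∃ j < 2 ^ e, ζ ^ j = (ψ τ : Ωˣ) := by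
    have h1 : IsPrimitiveRoot (ζ : Ω) (2 ^ e) := IsPrimitiveRoot.coe_units_iff.2 L.τ_prim
    have h3 : ((ψ τ : Ωˣ) : Ω) ^ (2 ^ e) = 1 := by
      rw [← Units.val_pow_eq_pow_val, (ψ τ).2, Units.val_one]
    obtain ⟨j, hj, h⟩ := h1.eq_pow_of_pow_eq_one h3
    exact ⟨j, hj, Units.ext (by rw [Units.val_pow_eq_pow_val, h])⟩
  have hkM : ∀ s ∈ HH k Ω, kumU (2 ^ e) (tt k Ω - α) s ^ (2 ^ e) = 1 := fun s hs =>
    kumU_pow_one h2 e (tt_sub_ne h2 L.cst) (tt_sub_fixed hs L.cst)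
  have hψj : ∀ s ∈ D ⊓ HH k Ω, (ψ s : Ωˣ) = kumU (2 ^ e) (tt k Ω - α) s ^ j := by
    let ψ' : GG k Ω → Ωˣ := fun s => if s ∈ D ⊓ HH k Ω then
      (ψ s : Ωˣ) * (kumU (2 ^ e) (tt k Ω - α) s ^ j)⁻¹ else 1
    have hψ' : ∀ s ∈ D ⊓ HH k Ω, ψ' s = (ψ s : Ωˣ) * (kumU (2 ^ e) (tt k Ω - α) s ^ j)⁻¹ :=
      fun s hs => if_pos hs
    have h1 := L.hom ψ' ?_ ?_ ?_ ?_
    · intro s hs1
      have h3 := h1 s hs1
      rw [hψ' s hs1] at h3
      exact mul_inv_eq_one.1 h3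
    · intro s
      by_cases hs1 : s ∈ D ⊓ HH k Ω
      · rw [hψ' s hs1, mul_pow, inv_pow, ← pow_mul, mul_comm j, pow_mul, hkM s (hH hs1), one_pow,
          inv_one, mul_one]
        exact (ψ s).2
      · have : ψ' s = 1 := if_neg hs1
        rw [this, one_pow]
    · have l1 : LCOn (D ⊓ HH k Ω) b := hb.mono inf_le_right
      have l2 : LCOn (D ⊓ HH k Ω) b' := hb'.mono inf_le_left
      have l3 : LCOn (D ⊓ HH k Ω) (fun s => kumU (2 ^ e) (tt k Ω - α) s) :=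
        lcOn_kumU _ _ _
      obtain ⟨N, n1, n2, n3⟩ := ((l1.prod l2).prod l3).comp
        (fun x : (rootsOfUnity (2 ^ e) Ω × rootsOfUnity (2 ^ e) Ω) × Ωˣ =>
          ((x.1.1⁻¹ * x.1.2 : rootsOfUnity (2 ^ e) Ω) : Ωˣ) * (x.2 ^ j)⁻¹)
      refine ⟨N, n1, n2, fun s hs1 n hn hn1 => ?_⟩
      rw [hψ' s hs1, hψ' _ (mul_mem hs1 hn1)]
      exact n3 s hs1 n hn hn1
    · intro s hs1 t ht1
      rw [hψ' s hs1, hψ' t ht1, hψ' _ (mul_mem hs1 ht1), hψhom s hs1 t ht1,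
        kumU_mul h2 e (tt_sub_ne h2 L.cst) (hH hs1) (tt_sub_fixed (hH ht1) L.cst)]
      rw [mul_pow, mul_inv, Subgroup.coe_mul]
      simp only [mul_assoc, mul_left_comm]
    · have : τ ∈ D ⊓ HH k Ω := ⟨L.τ_mem, L.τ_H⟩
      rw [hψ' τ this, ← hj, mul_inv_cancel]
  have hτ' : F⁻¹ * τ * F ∈ D ⊓ HH k Ω := by
    refine ⟨D.mul_mem (D.mul_mem (D.inv_mem L.F_mem) L.τ_mem) L.F_mem, ?_⟩
    have := (HH_normal (k := k) (Ω := Ω)).conj_mem τ L.τ_H F⁻¹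
    rwa [inv_inv] at this
  have e5 : ((dfc hf b (sec hf b' F) τ : rootsOfUnity (2 ^ e) Ω) : Ωˣ) = 1 := by
    rw [dfc_local hf hs' L.F_mem L.τ_mem]
    change F • ((ψ (F⁻¹ * τ * F) : rootsOfUnity (2 ^ e) Ω) : Ωˣ)
      * ((ψ τ : rootsOfUnity (2 ^ e) Ω) : Ωˣ)⁻¹ = 1
    rw [hψj _ hτ', smul_pow', kumU_conj h2 e (tt_sub_ne h2 L.cst) F L.τ_H, tt_sub_map,
      L.F_act α L.cst, L.per, ← hj, mul_inv_cancel]
  -- step 6
  rw [e1, e2, Finset.prod_pow_eq_pow_sum] at e5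
  have h6 := L.τ_prim.dvd_of_pow_eq_one _ e5
  rw [← ZMod.natCast_eq_zero_iff, Nat.cast_sum] at h6
  rw [← orbit_shift (fun x => m x) α (Nat.card k) d L.per]
  rw [← h6]
  refine Finset.sum_congr rfl fun i _ => ?_
  rw [ZMod.natCast_zmod_val]

end Pool.Agent.SmithC
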