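import Pool.Agent.Lib.SM.C.DefsU
import Pool.Agent.Lib.SM.C.Kap
import Pool.Agent.Lib.SM.C.Dfc
import Pool.Agent.Lib.SM.C.Cst

set_option autoImplicit false

/-!
SMITH, block C: the action of `G` on `μ_M`, and the Kummer symbols `kumU`, `psiU`.
-/

namespace Pool.Agent.SmithC

variable {k Ω : Type} [Field k] [Field Ω] [Algebra (RatFunc k) Ω]

theorem smul_pow_eq_one {M : ℕ} (g : GG k Ω) {u : Ωˣ} (hu : u ^ M = 1) : (g • u) ^ M = 1 := by
  rw [← smul_pow', hu, smul_one]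

/-- the action on `μ_M` -/
noncomputable def actMu (k : Type) {Ω : Type} [Field k] [Field Ω] [Algebra (RatFunc k) Ω] (M : ℕ) :
    GG k Ω →* MulAut (rootsOfUnity M Ω) where
  toFun g :=
    { toFun := fun u => ⟨g • (u : Ωˣ), smul_pow_eq_one g u.2⟩
      invFun := fun u => ⟨g⁻¹ • (u : Ωˣ), smul_pow_eq_one g⁻¹ u.2⟩
      left_inv := fun u => Subtype.ext (inv_smul_smul g (u : Ωˣ))
      right_inv := fun u => Subtype.ext (smul_inv_smul g (u : Ωˣ))
      map_mul' := fun u v => Subtype.ext (smul_mul' g (u : Ωˣ) (v : Ωˣ)) }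
  map_one' := by
    ext1 u
    exact Subtype.ext (one_smul _ (u : Ωˣ))
  map_mul' := fun g h => by
    ext1 u
    exact Subtype.ext (mul_smul g h (u : Ωˣ))

@[simp] theorem coe_actMu (M : ℕ) (g : GG k Ω) (u : rootsOfUnity M Ω) :
    ((actMu k M g u : rootsOfUnity M Ω) : Ωˣ) = g • (u : Ωˣ) := rfl

theorem isCst_mu [Finite k] {M : ℕ} (hM : 0 < M) {x : Ω} (hx : x ^ M = 1) :
    IsCst k x := by
  let _ : Algebra k Ω := algk k Ω
  rw [isCst_iff]
  refine ⟨Polynomial.X ^ M - 1, ?_, ?_⟩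
  · exact (Polynomial.monic_X_pow_sub_C 1 hM.ne').ne_zero
  · rw [map_sub, map_pow, Polynomial.aeval_X, map_one, hx, sub_self]

/-- `H` acts trivially on `μ_M` -/
theorem HH_smul_mu [Finite k] {M : ℕ} (hM : 0 < M) {h : GG k Ω} (hh : h ∈ HH k Ω) {u : Ωˣ}
    (hu : u ^ M = 1) : h • u = u := by
  apply Units.ext
  change h (u : Ω) = u
  apply hh
  apply isCst_mu hM
  rw [← Units.val_pow_eq_pow_val, hu, Units.val_one]

theorem pow_val_add {M : ℕ} {u : Ωˣ} (hu : u ^ M = 1) [NeZero M] (a b : ZMod M) :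
    u ^ (a + b).val = u ^ a.val * u ^ b.val := by
  rw [← pow_add, ZMod.val_add]
  exact (pow_eq_pow_mod _ hu).symm

theorem exists_rootU [IsSepClosure (RatFunc k) Ω] (h2 : (2 : k) ≠ 0) (e : ℕ) {f : Ω} (hf : f ≠ 0) :
    ∃ r : Ωˣ, (r : Ω) ^ (2 ^ e) = f := by
  induction e generalizing f with
  | zero => exact ⟨Units.mk0 f hf, by simp⟩
  | succ e ih =>
    obtain ⟨s, hs⟩ := exists_root (k := k) h2 f
    have hs0 : s ≠ 0 := by
      rintro rfl
      apply hf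
      rw [← hs]; simp
    obtain ⟨r, hr⟩ := ih hs0
    exact ⟨r, by rw [pow_succ, pow_mul, hr, hs]⟩

theorem rtU_pow [IsSepClosure (RatFunc k) Ω] (h2 : (2 : k) ≠ 0) (e : ℕ) {f : Ω} (hf : f ≠ 0) :
    (rtU (2 ^ e) f : Ω) ^ (2 ^ e) = f := by
  have H := exists_rootU (k := k) h2 e hf
  unfold rtU
  rw [dif_pos H]
  exact H.choose_spec

/-- the symbol can be computed with any root -/
theorem kumU_eq [Finite k] [IsSepClosure (RatFunc k) Ω] (h2 : (2 : k) ≠ 0) (e : ℕ) {f : Ω} (hf : f ≠ 0)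
    {h : GG k Ω} (hh : h ∈ HH k Ω) {r : Ωˣ} (hr : (r : Ω) ^ (2 ^ e) = f) :
    kumU (2 ^ e) f h = h • r * r⁻¹ := by
  have h1 := rtU_pow (k := k) h2 e hf
  set r0 := rtU (2 ^ e) f with hr0
  have hu : (r0 * r⁻¹) ^ (2 ^ e) = 1 := by
    apply Units.ext
    rw [Units.val_pow_eq_pow_val, Units.val_mul, mul_pow, h1, ← hr, Units.val_one, ← mul_pow]
    simp
  have h3 := HH_smul_mu (by positivity : 0 < 2 ^ e) hh hu
  unfold kumU
  rw [← hr0]
  rw [smul_mul', smul_inv'] at h3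
  have h4 : h • r0 = r0 * r⁻¹ * h • r := by
    rw [← h3, inv_mul_cancel_right]
  rw [h4]
  rw [mul_assoc r0, mul_comm r0, mul_inv_cancel_right, mul_comm]

theorem kumU_pow_one [Finite k] [IsSepClosure (RatFunc k) Ω] (h2 : (2 : k) ≠ 0) (e : ℕ) {f : Ω} (hf : f ≠ 0)
    {h : GG k Ω} (hh : h f = f) : kumU (2 ^ e) f h ^ (2 ^ e) = 1 := by
  have h1 := rtU_pow (k := k) h2 e hf
  unfold kumU
  apply Units.ext
  rw [Units.val_pow_eq_pow_val, Units.val_mul, mul_pow, Units.val_one]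
  change (h (rtU (2 ^ e) f : Ω)) ^ (2 ^ e) * _ = 1
  rw [← map_pow, h1, hh, Units.val_inv_eq_inv_val, inv_pow, h1, mul_inv_cancel₀ hf]

theorem kumU_mul [Finite k] [IsSepClosure (RatFunc k) Ω] (h2 : (2 : k) ≠ 0) (e : ℕ) {f : Ω} (hf : f ≠ 0)
    {s t : GG k Ω} (hs : s ∈ HH k Ω) (ht : t f = f) :
    kumU (2 ^ e) f (s * t) = kumU (2 ^ e) f s * kumU (2 ^ e) f t := by
  have h3 := HH_smul_mu (by positivity : 0 < 2 ^ e) hs (kumU_pow_one h2 e hf ht)
  have e1 : kumU (2 ^ e) f (s * t) = kumU (2 ^ e) f s * s • kumU (2 ^ e) f t := by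
    unfold kumU
    rw [mul_smul, smul_mul', smul_inv']
    have : ∀ a b c : Ωˣ, a * b⁻¹ = c * b⁻¹ * (a * c⁻¹) := by
      intro a b c
      rw [mul_comm a c⁻¹, mul_comm c, mul_assoc, mul_inv_cancel_left, mul_comm]
    exact this _ _ _
  rw [e1, h3]

/-- conjugation -/
theorem kumU_conj [Finite k] [IsSepClosure (RatFunc k) Ω] (h2 : (2 : k) ≠ 0) (e : ℕ) {f : Ω}
    (hf : f ≠ 0) (g : GG k Ω) {h : GG k Ω} (hh : h ∈ HH k Ω) :
    g • kumU (2 ^ e) f (g⁻¹ * h * g) = kumU (2 ^ e) (g f) h := by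
  have hgf : g f ≠ 0 := by
    rw [Ne, map_eq_zero_iff _ g.injective]
    exact hf
  have h1 : ((g • rtU (2 ^ e) f : Ωˣ) : Ω) ^ (2 ^ e) = g f := by
    change (g (rtU (2 ^ e) f : Ω)) ^ (2 ^ e) = g f
    rw [← map_pow, rtU_pow (k := k) h2 e hf]
  rw [kumU_eq h2 e hgf hh h1]
  unfold kumU
  rw [smul_mul', smul_inv', mul_smul, mul_smul, smul_inv_smul]

theorem tt_sub_ne (h2 : (2 : k) ≠ 0) [Finite k] [IsSepClosure (RatFunc k) Ω] {α : Ω}
    (hα : IsCst k α) : tt k Ω - α ≠ 0 := by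
  obtain ⟨κ, hκ, -, htr, -⟩ := exists_cstField (k := k) (Ω := Ω) h2
  intro h
  apply htr
  rw [sub_eq_zero.1 h]
  exact isAlgebraic_algebraMap (R := κ) (A := Ω) (⟨α, (hκ α).2 hα⟩ : κ)

theorem psiU_pow [Finite k] [IsSepClosure (RatFunc k) Ω] (h2 : (2 : k) ≠ 0) (e : ℕ)
    {m : Ω →₀ ZMod (2 ^ e)} (hm : ∀ α ∈ m.support, IsCst k α) {h : GG k Ω} (hh : h ∈ HH k Ω) :
    psiU k (2 ^ e) m h ^ (2 ^ e) = 1 := by
  unfold psiU Finsupp.prod
  rw [← Finset.prod_pow]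
  refine Finset.prod_eq_one fun α hα => ?_
  change (kumU (2 ^ e) (tt k Ω - α) h ^ (m α).val) ^ (2 ^ e) = 1
  rw [← pow_mul, mul_comm, pow_mul, kumU_pow_one h2 e (tt_sub_ne h2 (hm α hα))
    (tt_sub_fixed hh (hm α hα)), one_pow]

theorem psiU_hom [Finite k] [IsSepClosure (RatFunc k) Ω] (h2 : (2 : k) ≠ 0) (e : ℕ)
    {m : Ω →₀ ZMod (2 ^ e)} (hm : ∀ α ∈ m.support, IsCst k α) {s t : GG k Ω} (hs : s ∈ HH k Ω)
    (ht : t ∈ HH k Ω) : psiU k (2 ^ e) m (s * t) = psiU k (2 ^ e) m s * psiU k (2 ^ e) m t := by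
  unfold psiU Finsupp.prod
  rw [← Finset.prod_mul_distrib]
  refine Finset.prod_congr rfl fun α hα => ?_
  change kumU (2 ^ e) (tt k Ω - α) (s * t) ^ (m α).val
    = kumU (2 ^ e) (tt k Ω - α) s ^ (m α).val * kumU (2 ^ e) (tt k Ω - α) t ^ (m α).val
  rw [kumU_mul h2 e (tt_sub_ne h2 (hm α hα)) hs (tt_sub_fixed ht (hm α hα)), mul_pow]

/-- additivity in `m` -/
theorem psiU_add_mu [Finite k] [IsSepClosure (RatFunc k) Ω] (h2 : (2 : k) ≠ 0) (e : ℕ)
    {m m' : Ω →₀ ZMod (2 ^ e)} (hm : ∀ α ∈ m.support, IsCst k α)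
    (hm' : ∀ α ∈ m'.support, IsCst k α) {h : GG k Ω} (hh : h ∈ HH k Ω) :
    psiU k (2 ^ e) (m + m') h = psiU k (2 ^ e) m h * psiU k (2 ^ e) m' h := by
  classical
  unfold psiU
  apply Finsupp.prod_add_index
  · intro α _
    simp
  · intro α hα a b
    have hα' : IsCst k α := by
      rcases Finset.mem_union.1 hα with h1 | h1
      · exact hm α h1
      · exact hm' α h1
    exact pow_val_add (kumU_pow_one h2 e (tt_sub_ne h2 hα') (tt_sub_fixed hh hα')) a b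

theorem psiU_conj [Finite k] [IsSepClosure (RatFunc k) Ω] (h2 : (2 : k) ≠ 0) (e : ℕ)
    {m : Ω →₀ ZMod (2 ^ e)} (hm : ∀ α ∈ m.support, IsCst k α) (g : GG k Ω) {h : GG k Ω}
    (hh : h ∈ HH k Ω) :
    g • psiU k (2 ^ e) m (g⁻¹ * h * g) = psiU k (2 ^ e) (m.mapDomain g) h := by
  classical
  have h1 : psiU k (2 ^ e) (m.mapDomain g) h
      = m.prod fun α a => kumU (2 ^ e) (tt k Ω - g α) h ^ a.val := by
    unfold psiU
    have e1 : m.mapDomain g = m.mapDomain (g.toEquiv.toEmbedding) := rfl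
    rw [e1, ← Finsupp.embDomain_eq_mapDomain, Finsupp.prod_embDomain]
    rfl
  rw [h1]
  unfold psiU Finsupp.prod
  rw [Finset.smul_prod']
  refine Finset.prod_congr rfl fun α hα => ?_
  change g • (kumU (2 ^ e) (tt k Ω - α) (g⁻¹ * h * g) ^ (m α).val)
    = kumU (2 ^ e) (tt k Ω - g α) h ^ (m α).val
  rw [smul_pow', kumU_conj h2 e (tt_sub_ne h2 (hm α hα)) g hh, tt_sub_map]

theorem lcOn_kumU [IsSepClosure (RatFunc k) Ω] (A : Subgroup (GG k Ω)) (M : ℕ) (f : Ω) :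
    LCOn A (fun s => kumU M f s) := by
  obtain ⟨N, h1, h2', h3⟩ := exists_open_fix (k := k) (rtU M f : Ω)
  refine ⟨N, h1, h2', fun s _ n hn _ => ?_⟩
  unfold kumU
  have h4 : n • rtU M f = rtU M f := Units.ext (h3 n hn)
  change (s * n) • rtU M f * (rtU M f)⁻¹ = s • rtU M f * (rtU M f)⁻¹
  rw [mul_smul, h4]

theorem lcOn_psiU [IsSepClosure (RatFunc k) Ω] (A : Subgroup (GG k Ω)) (M : ℕ)
    (m : Ω →₀ ZMod M) : LCOn A (psiU k M m) := by
  classical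
  have key : ∀ S : Finset Ω, LCOn A
      (fun s : GG k Ω => ∏ α ∈ S, kumU M (tt k Ω - α) s ^ (m α).val) := by
    intro S
    induction S using Finset.induction_on with
    | empty => simpa using lcOn_const A (1 : Ωˣ)
    | insert a S ha ih =>
      have h0 : LCOn A (fun s => kumU M (tt k Ω - a) s) := lcOn_kumU A M (tt k Ω - a)
      have h1 := (h0.prod ih).comp
        fun x : Ωˣ × Ωˣ => x.1 ^ (m a).val * x.2
      have h2 : (fun s : GG k Ω => ∏ α ∈ insert a S, kumU M (tt k Ω - α) s ^ (m α).val)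
          = fun s : GG k Ω => kumU M (tt k Ω - a) s ^ (m a).val
            * ∏ α ∈ S, kumU M (tt k Ω - α) s ^ (m α).val := by
        funext s
        rw [Finset.prod_insert ha]
      rw [h2]
      exact h1
  exact key m.support

end Pool.Agent.SmithC
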