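import Pool.Agent.Lib.SM.C.LocStep

set_option autoImplicit false

/-!
SMITH, block C: orbit sums along a shifted orbit.
-/

namespace Pool.Agent.SmithC

variable {k Ω : Type} [Field k] [Field Ω] [Algebra (RatFunc k) Ω]

theorem orbit_shift_one {A : Type} [AddCommGroup A] (m : Ω → A) (α : Ω) (q f : ℕ)
    (hper : α ^ q ^ f = α) :
    ∑ i ∈ Finset.range f, m ((α ^ q) ^ q ^ i) = ∑ i ∈ Finset.range f, m (α ^ q ^ i) := by
  have h1 : ∑ i ∈ Finset.range f, m ((α ^ q) ^ q ^ i)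
      = ∑ i ∈ Finset.range f, m (α ^ q ^ (i + 1)) := by
    refine Finset.sum_congr rfl fun i _ => ?_
    rw [← pow_mul, pow_succ']
  rw [h1]
  have h2 := Finset.sum_range_succ' (fun i => m (α ^ q ^ i)) f
  have h3 := Finset.sum_range_succ (fun i => m (α ^ q ^ i)) f
  rw [h3] at h2
  change _ + m (α ^ q ^ f) = _ + m (α ^ q ^ 0) at h2
  rw [hper, pow_zero, pow_one] at h2
  exact (add_right_cancel h2).symm

theorem orbit_shift_pow {A : Type} [AddCommGroup A] (m : Ω → A) (α : Ω) (q f j : ℕ)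
    (hper : α ^ q ^ f = α) :
    ∑ i ∈ Finset.range f, m ((α ^ q ^ j) ^ q ^ i) = ∑ i ∈ Finset.range f, m (α ^ q ^ i) := by
  induction j with
  | zero => simp
  | succ j ih =>
    have hper' : (α ^ q ^ j) ^ q ^ f = α ^ q ^ j := by
      rw [← pow_mul, mul_comm, pow_mul, hper]
    rw [← ih, ← orbit_shift_one m (α ^ q ^ j) q f hper']
    refine Finset.sum_congr rfl fun i _ => ?_
    rw [← pow_mul, ← pow_mul, ← pow_mul, pow_succ, mul_assoc]

theorem iterate_pow (q n : ℕ) (α : Ω) : (fun x : Ω => x ^ q)^[n] α = α ^ q ^ n := by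
  induction n with
  | zero => simp
  | succ n ih =>
    rw [Function.iterate_succ_apply', ih, ← pow_mul, pow_succ]

theorem minimalPeriod_eq {q f : ℕ} {α : Ω} (hf : 0 < f) (hper : α ^ q ^ f = α)
    (hmin : ∀ i, 0 < i → i < f → α ^ q ^ i ≠ α) :
    Function.minimalPeriod (fun x : Ω => x ^ q) α = f := by
  have h1 : Function.IsPeriodicPt (fun x : Ω => x ^ q) f α := by
    change (fun x : Ω => x ^ q)^[f] α = α
    rw [iterate_pow, hper]
  refine le_antisymm (h1.minimalPeriod_le hf) ?_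
  by_contra hlt
  push Not at hlt
  have h2 := h1.minimalPeriod_pos hf
  apply hmin _ h2 hlt
  rw [← iterate_pow]
  exact Function.isPeriodicPt_minimalPeriod _ _

/-- the orbit sum at `α` from the orbit sum at `α ^ (q ^ j)` -/
theorem orbit_transfer {A : Type} [AddCommGroup A] (m : Ω → A) {α : Ω} {q f d j : ℕ} (hf : 0 < f)
    (hper : α ^ q ^ f = α) (hmin : ∀ i, 0 < i → i < f → α ^ q ^ i ≠ α) (hd : 0 < d)
    (hper' : (α ^ q ^ j) ^ q ^ d = α ^ q ^ j)
    (hmin' : ∀ i, 0 < i → i < d → (α ^ q ^ j) ^ q ^ i ≠ α ^ q ^ j)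
    (hsum : ∑ i ∈ Finset.range d, m ((α ^ q ^ j) ^ q ^ i) = 0) :
    ∑ i ∈ Finset.range f, m (α ^ q ^ i) = 0 := by
  have h1 := minimalPeriod_eq hf hper hmin
  have h2 := minimalPeriod_eq hd hper' hmin'
  have h3 : α ∈ Function.periodicPts (fun x : Ω => x ^ q) :=
    ⟨f, hf, by
      change (fun x : Ω => x ^ q)^[f] α = α
      rw [iterate_pow, hper]⟩
  have h4 := Function.minimalPeriod_apply_iterate h3 j
  rw [iterate_pow, h1, h2] at h4
  rw [h4, orbit_shift_pow m α q f j hper] at hsum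
  exact hsum

end Pool.Agent.SmithC
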