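import Pool.Agent.Lib.SM.C.Ext
import Pool.Agent.Lib.SM.C.GL

set_option autoImplicit false

/-!
SMITH, block C, module Step2: inflation step for a subgroup of index 2. If a two-cocycle of `G`
in `A` splits over a subgroup `Γ1` of index 2, `H^1(Γ1, A) = 0`, and every element of `A^G` is a
norm `y * σ y` from `A^{Γ1}`, then it splits over `G`.
-/

namespace Pool.Agent.SmithC

theorem step2 {G A : Type*} [Group G] [CommGroup A] (φ : G →* MulAut A) (f : G → G → A)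
    (hf : IsTwoCoc φ f) (Γ1 : Subgroup G) (hidx : Γ1.index = 2)
    (β1 : G → A) (hβ1 : ∀ g ∈ Γ1, ∀ h ∈ Γ1, f g h = β1 g * φ g (β1 h) * (β1 (g * h))⁻¹)
    (H90 : ∀ z : G → A, (∀ g ∈ Γ1, ∀ h ∈ Γ1, z (g * h) = z g * φ g (z h)) →
      ∃ y, ∀ g ∈ Γ1, z g = φ g y * y⁻¹)
    (σ : G) (hσ : σ ∉ Γ1)
    (hN : ∀ a, (∀ g, φ g a = a) → ∃ y, (∀ g ∈ Γ1, φ g y = y) ∧ a = y * φ σ y) :
    ∃ β : G → A, ∀ g h, f g h = β g * φ g (β h) * (β (g * h))⁻¹ := by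
  classical
  have hnorm : Γ1.Normal := Subgroup.normal_of_index_eq_two hidx
  set π : EGrp hf →* G := EGrp.proj hf with hπ
  set ι : A →* EGrp hf := EGrp.incl hf with hι
  have hcomm : ∀ (x : EGrp hf) (a : A), x * ι a = ι (φ x.snd a) * x :=
    fun x a => EGrp.mul_incl hf x a
  have hιs : ∀ a : A, (ι a).snd = 1 := fun _ => rfl
  have hιinj : ∀ a b : A, ι a = ι b → a = b := fun a b h => EGrp.incl_inj hf h
  -- section over Γ1
  set s1 : G → EGrp hf := fun g => EGrp.mk hf (β1 g)⁻¹ g with hs1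
  have hs1mul : ∀ g ∈ Γ1, ∀ h ∈ Γ1, s1 (g * h) = s1 g * s1 h := EGrp.section_mul hf Γ1 β1 hβ1
  have hs1snd : ∀ g, (s1 g).snd = g := fun _ => rfl
  have hsndmul : ∀ x y : EGrp hf, (x * y).snd = x.snd * y.snd := fun _ _ => rfl
  have hsndinv : ∀ x : EGrp hf, (x⁻¹).snd = x.snd⁻¹ := fun _ => rfl
  -- conjugation by a lift of σ
  set σ0 : EGrp hf := EGrp.mk hf 1 σ with hσ0
  have hmem : ∀ g ∈ Γ1, σ * g * σ⁻¹ ∈ Γ1 := fun g hg => hnorm.conj_mem g hg σ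
  have hmem' : ∀ g ∈ Γ1, σ⁻¹ * g * σ ∈ Γ1 := fun g hg => by
    have := hnorm.conj_mem g hg σ⁻¹
    rwa [inv_inv] at this
  -- the 1-cocycle z
  obtain ⟨z, hz'⟩ : ∃ z : G → A, ∀ g, σ0 * s1 (σ⁻¹ * g * σ) * σ0⁻¹ = ι (z g) * s1 g := by
    refine ⟨fun g => (σ0 * s1 (σ⁻¹ * g * σ) * σ0⁻¹).fst * (s1 g).fst⁻¹, fun g => ?_⟩
    apply EGrp.exists_incl hf
    change σ * (σ⁻¹ * g * σ) * σ⁻¹ = g
    group
  have hzc : ∀ g ∈ Γ1, ∀ h ∈ Γ1, z (g * h) = z g * φ g (z h) := by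
    intro g hg h hh
    apply hιinj
    have h1 := hz' (g * h)
    have h2 : σ⁻¹ * (g * h) * σ = (σ⁻¹ * g * σ) * (σ⁻¹ * h * σ) := by group
    rw [h2, hs1mul _ (hmem' g hg) _ (hmem' h hh), hs1mul g hg h hh] at h1
    have h3 : σ0 * (s1 (σ⁻¹ * g * σ) * s1 (σ⁻¹ * h * σ)) * σ0⁻¹
        = (σ0 * s1 (σ⁻¹ * g * σ) * σ0⁻¹) * (σ0 * s1 (σ⁻¹ * h * σ) * σ0⁻¹) := by group
    rw [h3, hz' g, hz' h] at h1
    have h4 : ι (z g) * s1 g * (ι (z h) * s1 h) = ι (z g * φ g (z h)) * (s1 g * s1 h) := by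
      rw [map_mul]
      calc ι (z g) * s1 g * (ι (z h) * s1 h) = ι (z g) * (s1 g * ι (z h)) * s1 h := by group
        _ = ι (z g) * (ι (φ g (z h)) * s1 g) * s1 h := by rw [hcomm (s1 g), hs1snd]
        _ = _ := by group
    rw [h4] at h1
    exact (mul_right_cancel h1).symm
  obtain ⟨y, hy⟩ := H90 z hzc
  -- check: sign convention u z(g) / (g u) = 1 with u = y
  have hconj1 : ∀ g ∈ Γ1, ι y * σ0 * s1 (σ⁻¹ * g * σ) * (ι y * σ0)⁻¹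
      = ι (y * z g * (φ g y)⁻¹) * s1 g := by
    intro g hg
    have h5 : ι y * σ0 * s1 (σ⁻¹ * g * σ) * (ι y * σ0)⁻¹
        = ι y * (σ0 * s1 (σ⁻¹ * g * σ) * σ0⁻¹) * ι y⁻¹ := by rw [map_inv]; group
    rw [h5, hz' g]
    calc ι y * (ι (z g) * s1 g) * ι y⁻¹ = ι y * ι (z g) * (s1 g * ι y⁻¹) := by group
      _ = ι y * ι (z g) * (ι (φ g y⁻¹) * s1 g) := by rw [hcomm (s1 g), hs1snd]
      _ = _ := by rw [map_mul, map_mul, map_inv (φ g)]; group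
  have hconj2 : ∀ g ∈ Γ1, ι y * σ0 * s1 (σ⁻¹ * g * σ) * (ι y * σ0)⁻¹ = s1 g := by
    intro g hg
    rw [hconj1 g hg, hy g hg]
    have : y * (φ g y * y⁻¹) * (φ g y)⁻¹ = 1 := by
      rw [mul_comm (φ g y) y⁻¹, ← mul_assoc y, mul_inv_cancel, one_mul, mul_inv_cancel]
    rw [this, map_one, one_mul]
  set τ : EGrp hf := ι y * σ0 with hτ
  have hτs : τ.snd = σ := one_mul σ
  have hσ2 : σ ^ 2 ∈ Γ1 := by
    have := Subgroup.sq_mem_of_index_two hidx σ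
    exact this
  -- the element a
  obtain ⟨a, ha0'⟩ : ∃ a : A, τ ^ 2 = ι a * s1 (σ ^ 2) := by
    refine ⟨_, EGrp.exists_incl hf _ _ ?_⟩
    rw [sq, hsndmul, hτs, hs1snd, sq]
  have hconj3 : ∀ g ∈ Γ1, τ * s1 g * τ⁻¹ = s1 (σ * g * σ⁻¹) := by
    intro g hg
    have := hconj2 _ (hmem g hg)
    have h6 : σ⁻¹ * (σ * g * σ⁻¹) * σ = g := by group
    rwa [h6] at this
  have hafix1 : ∀ g ∈ Γ1, φ g a = a := by
    intro g hg
    -- conjugate s1 g' by τ^2, g = σ^2 g' σ^-2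
    have hg' : σ⁻¹ * (σ⁻¹ * g * σ) * σ ∈ Γ1 := hmem' _ (hmem' g hg)
    set g' := σ⁻¹ * (σ⁻¹ * g * σ) * σ with hg'def
    have h7 : τ ^ 2 * s1 g' * (τ ^ 2)⁻¹ = s1 g := by
      have e1 : τ ^ 2 * s1 g' * (τ ^ 2)⁻¹ = τ * (τ * s1 g' * τ⁻¹) * τ⁻¹ := by
        simp only [sq]; group
      rw [e1, hconj3 _ hg', hconj3 _ (hmem _ hg')]
      congr 1
      rw [hg'def]; group
    have h8 : s1 (σ ^ 2) * s1 g' * (s1 (σ ^ 2))⁻¹ = s1 g := by
      have e3 : s1 (g * σ ^ 2) = s1 g * s1 (σ ^ 2) := hs1mul g hg _ hσ2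
      have e4 : g * σ ^ 2 = σ ^ 2 * g' := by rw [hg'def]; simp only [sq]; group
      rw [e4, hs1mul _ hσ2 _ hg'] at e3
      rw [e3]; group
    rw [ha0'] at h7
    have h9 : ι a * s1 (σ ^ 2) * s1 g' * (ι a * s1 (σ ^ 2))⁻¹
        = ι a * (s1 (σ ^ 2) * s1 g' * (s1 (σ ^ 2))⁻¹) * ι a⁻¹ := by rw [map_inv]; group
    rw [h9, h8, mul_assoc, hcomm, hs1snd, ← mul_assoc, ← map_mul] at h7
    have h10 : ι (a * φ g a⁻¹) = ι 1 := by
      rw [map_one]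
      exact mul_eq_right.mp h7
    have h11 := hιinj _ _ h10
    rw [map_inv, mul_inv_eq_one] at h11
    exact h11.symm
  have hafixσ : φ σ a = a := by
    have h12 : τ * (ι a * s1 (σ ^ 2)) * τ⁻¹ = ι a * s1 (σ ^ 2) := by
      rw [← ha0']; group
    have h13 : τ * (ι a * s1 (σ ^ 2)) * τ⁻¹ = ι (φ σ a) * s1 (σ ^ 2) := by
      calc τ * (ι a * s1 (σ ^ 2)) * τ⁻¹ = (τ * ι a) * s1 (σ ^ 2) * τ⁻¹ := by group
        _ = (ι (φ σ a) * τ) * s1 (σ ^ 2) * τ⁻¹ := by rw [hcomm, hτs]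
        _ = ι (φ σ a) * (τ * s1 (σ ^ 2) * τ⁻¹) := by group
        _ = ι (φ σ a) * s1 (σ ^ 2) := by
            rw [hconj3 _ hσ2]; congr 2; group
    rw [h13] at h12
    exact hιinj _ _ (mul_right_cancel h12)
  have hcase : ∀ g : G, g ∈ Γ1 ∨ σ⁻¹ * g ∈ Γ1 := by
    intro g
    by_cases hg : g ∈ Γ1
    · exact Or.inl hg
    · right
      have hσi : σ⁻¹ ∉ Γ1 := fun h => hσ (by simpa using Γ1.inv_mem h)
      exact (Subgroup.mul_mem_iff_of_index_two hidx).mpr (iff_of_false hσi hg)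
  have hafix : ∀ g, φ g a = a := by
    intro g
    rcases hcase g with hg | hg
    · exact hafix1 g hg
    · have e5 : g = σ * (σ⁻¹ * g) := by group
      rw [e5, map_mul, MulAut.mul_apply, hafix1 _ hg, hafixσ]
  obtain ⟨w, hw1, hw2⟩ := hN a hafix
  -- second correction
  set ρ : EGrp hf := ι w⁻¹ * τ with hρ
  have hρs : ρ.snd = σ := by
    rw [hρ, hsndmul, hιs, hτs, one_mul]
  have hπρ : π ρ = σ := hρs
  have hρ2 : ρ ^ 2 = s1 (σ ^ 2) := by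
    have : ρ ^ 2 = ι (w⁻¹ * φ σ w⁻¹) * τ ^ 2 := by
      rw [hρ, map_mul]
      calc (ι w⁻¹ * τ) ^ 2 = ι w⁻¹ * (τ * ι w⁻¹) * τ := by rw [sq]; group
        _ = ι w⁻¹ * (ι (φ σ w⁻¹) * τ) * τ := by rw [hcomm, hτs]
        _ = _ := by rw [sq]; group
    rw [this, ha0', ← mul_assoc, ← map_mul, hw2, map_inv]
    have e6 : w⁻¹ * (φ σ w)⁻¹ * (w * φ σ w) = 1 := by
      rw [mul_comm w⁻¹, mul_assoc, inv_mul_cancel_left, inv_mul_cancel]
    rw [e6, map_one, one_mul]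
  have hρconj : ∀ g ∈ Γ1, ρ * s1 g * ρ⁻¹ = s1 (π ρ * g * (π ρ)⁻¹) := by
    intro g hg
    rw [hπρ]
    have e7 : ρ * s1 g * ρ⁻¹ = ι w⁻¹ * (τ * s1 g * τ⁻¹) * ι w := by
      rw [hρ, mul_inv_rev, ← map_inv, inv_inv]; group
    rw [e7, hconj3 g hg, mul_assoc, hcomm, hs1snd, hw1 _ (hmem g hg), ← mul_assoc, ← map_mul,
      inv_mul_cancel, map_one, one_mul]
  obtain ⟨s, hs, -, -⟩ := ext_section π Γ1 s1 hs1mul (fun g _ => hs1snd g) ρ
    (by rw [hπρ]; exact hmem) (by rw [hπρ]; exact hmem') hρconj 2 (by rw [hπρ]; exact hσ2)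
    (by rw [hπρ]; exact hρ2)
    (by
      rw [hπρ]
      intro g
      rcases hcase g with hg | hg
      · exact ⟨0, by simpa using hg⟩
      · exact ⟨1, by simpa using hg⟩)
    (by
      rw [hπρ]
      intro i hi
      by_contra hodd
      have h14 : ∃ j : ℤ, i = 2 * j + 1 := by
        rcases Int.even_or_odd' i with ⟨j, h | h⟩
        · exact absurd (by exact_mod_cast Dvd.intro j h.symm) hodd
        · exact ⟨j, h⟩
      obtain ⟨j, rfl⟩ := h14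
      rw [zpow_add, zpow_one, zpow_mul] at hi
      have h15 : (σ ^ (2 : ℤ)) ^ j ∈ Γ1 := Γ1.zpow_mem (by exact_mod_cast hσ2) j
      exact hσ ((Subgroup.mul_mem_cancel_left Γ1 h15).mp hi))
  exact ⟨fun g => ((s g).fst)⁻¹, fun g h =>
    EGrp.cochain_of_section hf s (map_mul s) hs g h⟩

end Pool.Agent.SmithC
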